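import Pool.Agent.H34.FL.Defs

/-!
# Mean height and first moment for measures of arbitrary support: definitions
-/

namespace Pool.Agent.H34.DA

open Pool.Agent.H34.LS Pool.Agent.H34.FL

universe u

/-- finite first moment of the word length. -/
def FirstMoment {G : Type u} [Group G] (mu : G → ℝ) : Prop :=
  ∃ S : Set G, S.Finite ∧ Subgroup.closure S = ⊤ ∧ Summable fun g => mu g * (wordLength S g : ℝ)

/-- the height `f : G → ℤ` has finite first moment and mean `0` with respect to `mu`. -/
def CenteredHeight {G : Type u} [Group G] (f : G →* Multiplicative ℤ) (mu : G → ℝ) : Prop :=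
  HasSum (fun g => mu g * ((Multiplicative.toAdd (f g) : ℤ) : ℝ)) 0

/-- the mean height of `mu` with respect to `f : G → ℤ`. -/
noncomputable def mean {G : Type u} [Group G] (f : G →* Multiplicative ℤ) (mu : G → ℝ) : ℝ :=
  ∑' g, mu g * ((Multiplicative.toAdd (f g) : ℤ) : ℝ)

end Pool.Agent.H34.DA
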