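import Pool.Agent.H34.DA.Defs

/-!
E2: the rates `rate mu w k = mu {s : |k| ≤ w s}` for a weight `w : G → ℕ` are summable over `k : ℤ` if `∑ mu s * w s < ∞`: double sum of `mu s * (if |k| ≤ w s then 1 else 0)`; for fixed `s` the sum over `k` is
`mu s * (2 w s + 1)` (finite sum over `Finset.Icc (-(w s)) (w s)`, `Int.card_Icc`). Compare DA/K1a (`lampRate_summable`).
-/

namespace Pool.Agent.H34.DA

open Pool.Agent.H34.LS Pool.Agent.H34.FL

universe u

/-- the mass of the elements of weight at least `|k|`. -/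
noncomputable def rate {G : Type u} (mu : G → ℝ) (w : G → ℕ) (k : ℤ) : ℝ :=
  ∑' s : G, mu s * (if |k| ≤ (w s : ℤ) then 1 else 0)

private theorem e2_hasSum (n : ℕ) :
    HasSum (fun k : ℤ => if |k| ≤ (n : ℤ) then (1 : ℝ) else 0) (2 * (n : ℝ) + 1) := by
  have h2 : HasSum (fun k : ℤ => if |k| ≤ (n : ℤ) then (1 : ℝ) else 0)
      (∑ k ∈ Finset.Icc (-(n : ℤ)) (n : ℤ), (if |k| ≤ (n : ℤ) then (1 : ℝ) else 0)) :=
    hasSum_sum_of_ne_finset_zero (by
      intro b hb
      rw [if_neg]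
      intro hc
      exact hb (Finset.mem_Icc.2 (abs_le.1 hc)))
  have h3 : ∑ k ∈ Finset.Icc (-(n : ℤ)) (n : ℤ), (if |k| ≤ (n : ℤ) then (1 : ℝ) else 0) =
      2 * (n : ℝ) + 1 := by
    rw [Finset.sum_congr rfl (g := fun _ => (1 : ℝ))]
    · rw [Finset.sum_const, Int.card_Icc, nsmul_eq_mul, mul_one]
      have : ((n : ℤ) + 1 - -(n : ℤ)).toNat = 2 * n + 1 := by omega
      rw [this]
      push_cast
      ring
    · intro k hk
      rw [if_pos (abs_le.2 (Finset.mem_Icc.1 hk))]
  rwa [h3] at h2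

theorem rate_summable {G : Type u} {mu : G → ℝ} (h : IsProb mu) {w : G → ℕ}
    (hw : Summable fun s => mu s * (w s : ℝ)) :
    (∀ k, 0 ≤ rate mu w k) ∧ Summable (rate mu w) := by
  constructor
  · intro k
    exact tsum_nonneg fun x => mul_nonneg (h.1 x) (by split_ifs <;> norm_num)
  · have hF0 : ∀ p : G × ℤ, 0 ≤ mu p.1 * (if |p.2| ≤ (w p.1 : ℤ) then (1 : ℝ) else 0) :=
      fun p => mul_nonneg (h.1 p.1) (by split_ifs <;> norm_num)
    have hF : Summable fun p : G × ℤ => mu p.1 * (if |p.2| ≤ (w p.1 : ℤ) then (1 : ℝ) else 0) := by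
      rw [summable_prod_of_nonneg hF0]
      constructor
      · intro x
        exact ((e2_hasSum (w x)).mul_left (mu x)).summable
      · refine ((hw.mul_left 2).add h.2.summable).congr fun x => ?_
        have h5 := ((e2_hasSum (w x)).mul_left (mu x)).tsum_eq
        rw [h5]
        ring
    have h2 : Summable fun p : ℤ × G => mu p.2 * (if |p.1| ≤ (w p.2 : ℤ) then (1 : ℝ) else 0) :=
      (Equiv.prodComm ℤ G).summable_iff.mpr hF
    exact h2.prod

end Pool.Agent.H34.DA
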