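import Pool.Agent.H34.DA.Defs
import Pool.Agent.H34.LS.LL1

/-!
I2: `image_pos_gen`, the law of the position generates: the closure
of the support of `q = image pos nu` contains `pos x` for all `x` in the closure of the support of `nu` (`Submonoid.closure_induction`), and `pos` is onto;
`q (pos x) ≥ nu x > 0` if `nu x ≠ 0`.
-/

namespace Pool.Agent.H34.DA

open Pool.Agent.H34.LS Pool.Agent.H34.FL

private theorem i2_supp {nu : LL → ℝ} (h : IsProb nu) {x : LL} (hx : nu x ≠ 0) :
    x.pos ∈ Function.support (image (fun x : LL => x.pos) nu) := by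
  rw [Function.mem_support]
  have h1 : 0 < nu x := lt_of_le_of_ne (h.1 x) hx.symm
  have h2 : Summable fun g : {g : LL // g.pos = x.pos} => nu g := h.2.summable.subtype _
  have h3 : nu x ≤ ∑' g : {g : LL // g.pos = x.pos}, nu g :=
    h2.le_tsum (⟨x, rfl⟩ : {g : LL // g.pos = x.pos}) fun g _ => h.1 g
  have h4 : 0 < image (fun x : LL => x.pos) nu x.pos := lt_of_lt_of_le h1 h3
  exact h4.ne'

theorem image_pos_gen {nu : LL → ℝ} (h : IsProb nu) (hg : Generating nu) :
    AddSubmonoid.closure (Function.support (image (fun x : LL => x.pos) nu)) = ⊤ := by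
  have h1 : ∀ x : LL, x.pos ∈
      AddSubmonoid.closure (Function.support (image (fun x : LL => x.pos) nu)) := by
    intro x
    have hx : x ∈ Submonoid.closure (Function.support nu) := by
      have h2 : Submonoid.closure (Function.support nu) = ⊤ := hg
      rw [h2]
      exact Submonoid.mem_top x
    induction hx using Submonoid.closure_induction with
    | mem y hy => exact AddSubmonoid.subset_closure (i2_supp h hy)
    | one => exact AddSubmonoid.zero_mem _
    | mul y z _ _ hy hz => exact AddSubmonoid.add_mem _ hy hz
  rw [eq_top_iff]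
  intro k _
  exact h1 ⟨0, k⟩

end Pool.Agent.H34.DA
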