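import Pool.Agent.H34.DA.I1
import Pool.Agent.H34.DA.I2

/-!
I: image measures, unbounded functions (parts I1 and I2).
-/
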