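import Pool.Agent.H34.DA.Defs

/-!
S: a harmonic function between a subharmonic and a superharmonic one (Perron). `V` = the set of `v : G → ℝ` with `∀ g, |v g| ≤ C`, `v ≤ b` and `v g ≤ ∑' x, mu x * v (g * x)`;
`a ∈ V`. `f g = sSup {v g | v ∈ V}`. `|f| ≤ C`, `a ≤ f ≤ b`. `f ≤ P f`: for `v ∈ V` `v g ≤ P v g ≤ P f g` (`tsum_le_tsum`, all families are summable:
`Summable.of_norm_bounded` with `C * mu x`). `P f ∈ V`: `P f ≤ P b ≤ b`, `P f ≤ P (P f)` from `f ≤ P f`, `|P f| ≤ C`. So `P f ≤ f`.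
-/

namespace Pool.Agent.H34.DA

open Pool.Agent.H34.LS Pool.Agent.H34.FL

universe u

/-- the averaging operator -/
private noncomputable def s_P {G : Type u} [Group G] (mu v : G → ℝ) (g : G) : ℝ :=
  ∑' x, mu x * v (g * x)

private theorem s_summable {G : Type u} [Group G] {mu : G → ℝ} (h : IsProb mu) {v : G → ℝ} {C : ℝ}
    (hv : ∀ g, |v g| ≤ C) (g : G) : Summable fun x => mu x * v (g * x) := by
  refine Summable.of_norm_bounded (h.2.summable.mul_left C) fun x => ?_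
  rw [Real.norm_eq_abs, abs_mul, abs_of_nonneg (h.1 x), mul_comm]
  exact mul_le_mul_of_nonneg_right (hv _) (h.1 x)

private theorem s_mono {G : Type u} [Group G] {mu : G → ℝ} (h : IsProb mu) {v w : G → ℝ} {C : ℝ}
    (hv : ∀ g, |v g| ≤ C) (hw : ∀ g, |w g| ≤ C) (hvw : ∀ g, v g ≤ w g) (g : G) :
    s_P mu v g ≤ s_P mu w g :=
  (s_summable h hv g).tsum_le_tsum (fun x => mul_le_mul_of_nonneg_left (hvw _) (h.1 x))
    (s_summable h hw g)

private theorem s_const {G : Type u} [Group G] {mu : G → ℝ} (h : IsProb mu) (c : ℝ) (g : G) :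
    s_P mu (fun _ => c) g = c := by
  unfold s_P
  rw [tsum_mul_right, h.2.tsum_eq, one_mul]

private theorem s_abs {G : Type u} [Group G] {mu : G → ℝ} (h : IsProb mu) {v : G → ℝ} {C : ℝ}
    (hv : ∀ g, |v g| ≤ C) (g : G) : |s_P mu v g| ≤ C := by
  have hC : 0 ≤ C := (abs_nonneg _).trans (hv 1)
  have h1 : ∀ g : G, |(fun _ : G => C) g| ≤ C := fun _ => (abs_of_nonneg hC).le
  have h2 : ∀ g : G, |(fun _ : G => -C) g| ≤ C := fun _ => by
    show |-C| ≤ C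
    rw [abs_neg]
    exact (abs_of_nonneg hC).le
  rw [abs_le]
  constructor
  · have h3 := s_mono h h2 hv (fun g => (abs_le.1 (hv g)).1) g
    rwa [s_const h] at h3
  · have h3 := s_mono h hv h1 (fun g => (abs_le.1 (hv g)).2) g
    rwa [s_const h] at h3

theorem sandwich {G : Type u} [Group G] {mu : G → ℝ} (h : IsProb mu) {a b : G → ℝ} {C : ℝ}
    (ha : ∀ g, |a g| ≤ C) (hb : ∀ g, |b g| ≤ C) (hab : ∀ g, a g ≤ b g)
    (hsub : ∀ g, a g ≤ ∑' x, mu x * a (g * x)) (hsup : ∀ g, ∑' x, mu x * b (g * x) ≤ b g) :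
    ∃ f : G → ℝ, BddHarm mu f ∧ ∀ g, a g ≤ f g ∧ f g ≤ b g := by
  obtain ⟨V, hV⟩ : ∃ V : Set (G → ℝ), V = {v | (∀ g, |v g| ≤ C) ∧ (∀ g, v g ≤ b g) ∧
    ∀ g, v g ≤ s_P mu v g} := ⟨_, rfl⟩
  have hmem : ∀ v, v ∈ V ↔ (∀ g, |v g| ≤ C) ∧ (∀ g, v g ≤ b g) ∧ ∀ g, v g ≤ s_P mu v g := by
    intro v
    rw [hV]
    rfl
  have haV : a ∈ V := (hmem a).2 ⟨ha, hab, hsub⟩
  obtain ⟨f, hf⟩ : ∃ f : G → ℝ, ∀ g, f g = sSup ((fun v : G → ℝ => v g) '' V) := ⟨_, fun _ => rfl⟩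
  have hbdd : ∀ g, BddAbove ((fun v : G → ℝ => v g) '' V) := by
    intro g
    refine ⟨b g, ?_⟩
    rintro _ ⟨v, hv, rfl⟩
    exact ((hmem v).1 hv).2.1 g
  have hle : ∀ v ∈ V, ∀ g, v g ≤ f g := by
    intro v hv g
    rw [hf]
    exact le_csSup (hbdd g) ⟨v, hv, rfl⟩
  have hlub : ∀ g c, (∀ v ∈ V, v g ≤ c) → f g ≤ c := by
    intro g c hc
    rw [hf]
    refine csSup_le ⟨_, a, haV, rfl⟩ ?_
    rintro _ ⟨v, hv, rfl⟩
    exact hc v hv
  have hfb : ∀ g, f g ≤ b g := fun g => hlub g _ fun v hv => ((hmem v).1 hv).2.1 g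
  have hfa : ∀ g, a g ≤ f g := hle a haV
  have hfC : ∀ g, |f g| ≤ C := by
    intro g
    rw [abs_le]
    exact ⟨(abs_le.1 (ha g)).1.trans (hfa g), (hfb g).trans (abs_le.1 (hb g)).2⟩
  have h1 : ∀ g, f g ≤ s_P mu f g := by
    intro g
    refine hlub g _ fun v hv => ?_
    have hv' := (hmem v).1 hv
    exact (hv'.2.2 g).trans (s_mono h hv'.1 hfC (hle v hv) g)
  have h2 : s_P mu f ∈ V := by
    refine (hmem _).2 ⟨s_abs h hfC, fun g => ?_, fun g => ?_⟩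
    · exact (s_mono h hfC hb hfb g).trans (hsup g)
    · exact s_mono h hfC (s_abs h hfC) h1 g
  have h3 : ∀ g, s_P mu f g = f g := fun g => le_antisymm (hle _ h2 g) (h1 g)
  refine ⟨f, ⟨⟨C, hfC⟩, fun g => ?_⟩, fun g => ⟨hfa g, hfb g⟩⟩
  have h4 := (s_summable h hfC g).hasSum
  have h5 : ∑' x, mu x * f (g * x) = f g := h3 g
  rwa [h5] at h4

end Pool.Agent.H34.DA
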