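import Pool.Agent.H34.DA.G2
import Pool.Agent.H34.DA.S
import Pool.Agent.H34.DA.I
import Pool.Agent.H34.DA.E2
import Pool.Agent.H34.DC.N2

/-!
E3: a nonconstant bounded harmonic function from an asymptotically invariant one; abstract form of DA/K1. `φ : G → ℝ`, `|φ| ≤ 1`, `φ (x s) = φ x` whenever `w s < |ht f x|`; `q = image (ht f) mu` is a law on `ℤ` with mean `m > 0`.
`|∑' s, mu s * φ (x s) - φ x| ≤ 2 * rate mu w (ht f x)` (as `|φ (x s) - φ x| ≤ 2 * (if |ht f x| ≤ w s then 1 else 0)`). `A` from `pot_sum` for `t k = 2 * rate mu w k`; `a = φ - A ∘ ht f`, `b = φ + A ∘ ht f` satisfy the hypotheses of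
`sandwich` (`ht f (x s) = ht f x + ht f s`, `image_sum`). Copy of the proof of `ll_drift_pos` (DA/K1). If `φ (xs n) = 1` and `φ (ys n) = -1` with `ht f (xs n) = ht f (ys n) = n` for all natural `n`, the harmonic function is not constant.
-/

namespace Pool.Agent.H34.DA

open Pool.Agent.H34.LS Pool.Agent.H34.FL Pool.Agent.H34.DC Filter

universe u

private theorem e3_ht_mul {G : Type u} [Group G] (f : G →* Multiplicative ℤ) (x y : G) :
    ht f (x * y) = ht f x + ht f y := by
  unfold ht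
  rw [map_mul, toAdd_mul]

private theorem e3_sum {G : Type u} {mu : G → ℝ} (h : IsProb mu) {ψ : G → ℝ} {C : ℝ}
    (hψ : ∀ x, |ψ x| ≤ C) : Summable fun x : G => mu x * ψ x := by
  refine Summable.of_norm_bounded (g := fun x => mu x * C) (h.2.summable.mul_right C) fun x => ?_
  rw [norm_mul, Real.norm_eq_abs, Real.norm_eq_abs, abs_of_nonneg (h.1 x)]
  exact mul_le_mul_of_nonneg_left (hψ _) (h.1 x)

private noncomputable def e3_ind {G : Type u} (w : G → ℕ) (k : ℤ) (s : G) : ℝ :=
  if |k| ≤ (w s : ℤ) then 1 else 0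

private theorem e3_ind_abs {G : Type u} (w : G → ℕ) (k : ℤ) (s : G) : |e3_ind w k s| ≤ 1 := by
  unfold e3_ind
  split_ifs <;> simp

private theorem e3_diff {G : Type u} [Group G] {f : G →* Multiplicative ℤ} {w : G → ℕ}
    {φ : G → ℝ} (hφ : ∀ x, |φ x| ≤ 1)
    (hinv : ∀ x s, (w s : ℤ) < |ht f x| → φ (x * s) = φ x) (x s : G) :
    |φ (x * s) - φ x| ≤ 2 * e3_ind w (ht f x) s := by
  unfold e3_ind
  by_cases h2 : |ht f x| ≤ (w s : ℤ)
  · rw [if_pos h2]
    have h4 := abs_le.1 (hφ (x * s))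
    have h5 := abs_le.1 (hφ x)
    rw [abs_le]
    constructor <;> linarith [h4.1, h4.2, h5.1, h5.2]
  · rw [if_neg h2, hinv x s (not_le.1 h2), sub_self, abs_zero, mul_zero]

private theorem e3_mean {G : Type u} [Group G] {f : G →* Multiplicative ℤ} {mu : G → ℝ}
    (h : IsProb mu) {w : G → ℕ} {φ : G → ℝ} (hφ : ∀ x, |φ x| ≤ 1)
    (hinv : ∀ x s, (w s : ℤ) < |ht f x| → φ (x * s) = φ x) (g : G) :
    |∑' x, mu x * φ (g * x) - φ g| ≤ 2 * rate mu w (ht f g) := by
  have s1 : Summable fun x : G => mu x * φ (g * x) :=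
    e3_sum h (C := 1) fun x => hφ _
  have s2 : Summable fun x : G => mu x * φ g := h.2.summable.mul_right _
  have s3 : Summable fun x : G => mu x * e3_ind w (ht f g) x :=
    e3_sum h (C := 1) fun x => e3_ind_abs _ _ _
  have e1 : ∑' x, mu x * φ g = φ g := by
    rw [tsum_mul_right, h.2.tsum_eq, one_mul]
  have e2 : 2 * rate mu w (ht f g) = ∑' x, 2 * (mu x * e3_ind w (ht f g) x) := by
    rw [tsum_mul_left]
    rfl
  have e3 : ∑' x, mu x * φ (g * x) - φ g =
      ∑' x, (mu x * φ (g * x) - mu x * φ g) := by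
    rw [s1.tsum_sub s2, e1]
  have hle : ∀ x, |mu x * φ (g * x) - mu x * φ g| ≤ 2 * (mu x * e3_ind w (ht f g) x) := by
    intro x
    rw [← mul_sub, abs_mul, abs_of_nonneg (h.1 x)]
    have := mul_le_mul_of_nonneg_left (e3_diff hφ hinv g x) (h.1 x)
    linarith
  rw [e2, e3, ← Real.norm_eq_abs]
  exact tsum_of_norm_bounded (s3.mul_left 2).hasSum fun x => by
    rw [Real.norm_eq_abs]
    exact hle x

theorem nonconst {G : Type u} [Group G] (f : G →* Multiplicative ℤ) {mu : G → ℝ} (h : IsProb mu)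
    {w : G → ℕ} (hw : Summable fun s => mu s * (w s : ℝ)) {m : ℝ} (hm : 0 < m)
    (h1 : HasSum (fun g => mu g * (ht f g : ℝ)) m) {φ : G → ℝ} (hφ : ∀ x, |φ x| ≤ 1)
    (hinv : ∀ x s, (w s : ℤ) < |ht f x| → φ (x * s) = φ x) {xs ys : ℕ → G}
    (hx : ∀ n, ht f (xs n) = n ∧ φ (xs n) = 1) (hy : ∀ n, ht f (ys n) = n ∧ φ (ys n) = -1) :
    ¬ Liouville mu := by
  obtain ⟨hr0, hrs⟩ := rate_summable h hw
  obtain ⟨q, hqd⟩ : ∃ q : ℤ → ℝ, q = image (fun x : G => ht f x) mu := ⟨_, rfl⟩
  have hq1 : HasSum q 1 := by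
    have h3 := image_sum (fun x : G => ht f x) h (φ := fun _ => (1 : ℝ))
      (by simpa using h.2.summable)
    simp only [mul_one] at h3
    rw [h.2.tsum_eq] at h3
    rw [hqd]
    exact h3
  have hq : IsProb q := by
    refine ⟨fun j => ?_, hq1⟩
    rw [hqd]
    exact tsum_nonneg fun g => h.1 _
  have hqm : HasSum (fun j : ℤ => q j * (j : ℝ)) m := by
    have h3 := image_sum (fun x : G => ht f x) h (φ := fun j : ℤ => (j : ℝ)) h1.summable
    rw [h1.tsum_eq] at h3
    rw [hqd]
    exact h3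
  obtain ⟨A, B, hA, hlim, hpot⟩ := pot_sum hq hm hqm
    (t := fun k => 2 * rate mu w k) (fun k => mul_nonneg zero_le_two (hr0 k)) (hrs.mul_left 2)
  have hAabs : ∀ k, |A k| ≤ B := fun k => by
    rw [abs_of_nonneg (hA k).1]
    exact (hA k).2
  have sA : ∀ g : G, Summable fun x : G => mu x * A (ht f (g * x)) := fun g =>
    e3_sum h (C := B) fun x => hAabs _
  have sφ : ∀ g : G, Summable fun x : G => mu x * φ (g * x) := fun g =>
    e3_sum h (C := 1) fun x => hφ _
  have hApot : ∀ g : G, ∑' x, mu x * A (ht f (g * x)) + 2 * rate mu w (ht f g) ≤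
      A (ht f g) := by
    intro g
    have h2 : ∀ x : G, mu x * A (ht f (g * x)) = mu x * A (ht f g + ht f x) := fun x => by
      rw [e3_ht_mul]
    have h3 := image_sum (fun x : G => ht f x) h (φ := fun j : ℤ => A (ht f g + j))
      ((sA g).congr h2)
    have h4 := hpot (ht f g)
    rw [← hqd] at h3
    rw [h3.tsum_eq] at h4
    rw [tsum_congr h2]
    exact h4
  obtain ⟨F, hF, hab⟩ := sandwich h (a := fun g : G => φ g - A (ht f g))
    (b := fun g : G => φ g + A (ht f g)) (C := 1 + B)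
    (fun g => by
      have h3 := abs_le.1 (hφ g)
      have h4 := hA (ht f g)
      rw [abs_le]
      constructor <;> linarith [h3.1, h3.2, h4.1, h4.2])
    (fun g => by
      have h3 := abs_le.1 (hφ g)
      have h4 := hA (ht f g)
      rw [abs_le]
      constructor <;> linarith [h3.1, h3.2, h4.1, h4.2])
    (fun g => by
      have h4 := hA (ht f g)
      show φ g - A (ht f g) ≤ φ g + A (ht f g)
      linarith [h4.1])
    (fun g => by
      have e : ∑' x, mu x * (φ (g * x) - A (ht f (g * x))) =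
          ∑' x, mu x * φ (g * x) - ∑' x, mu x * A (ht f (g * x)) := by
        rw [← (sφ g).tsum_sub (sA g)]
        exact tsum_congr fun x => by ring
      show φ g - A (ht f g) ≤ ∑' x, mu x * (φ (g * x) - A (ht f (g * x)))
      rw [e]
      have h3 := (abs_le.1 (e3_mean h hφ hinv g)).1
      have h4 := hApot g
      linarith)
    (fun g => by
      have e : ∑' x, mu x * (φ (g * x) + A (ht f (g * x))) =
          ∑' x, mu x * φ (g * x) + ∑' x, mu x * A (ht f (g * x)) := by
        rw [← (sφ g).tsum_add (sA g)]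
        exact tsum_congr fun x => by ring
      show ∑' x, mu x * (φ (g * x) + A (ht f (g * x))) ≤ φ g + A (ht f g)
      rw [e]
      have h3 := (abs_le.1 (e3_mean h hφ hinv g)).2
      have h4 := hApot g
      linarith)
  intro hL
  have hlim' : Tendsto (fun n : ℕ => A (n : ℤ)) atTop (nhds 0) :=
    hlim.comp tendsto_natCast_atTop_atTop
  obtain ⟨n, hn⟩ := ((tendsto_order.1 hlim').2 (1 / 2) (by norm_num)).exists
  have h5 := (hab (xs n)).1
  have h6 := (hab (ys n)).2
  have h7 := hL F hF (xs n) (ys n)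
  simp only [(hx n).1, (hx n).2] at h5
  simp only [(hy n).1, (hy n).2] at h6
  linarith

end Pool.Agent.H34.DA
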