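import Pool.Agent.H34.DA.E1
import Pool.Agent.H34.DA.E3

/-!
E4: drift with finite first moment implies a nontrivial boundary. Positive mean: `S` from `FirstMoment`, `t` with `f t = ofAdd 1`, `C` from `ht_bound`, `w s = C * wordLength S s`, `k0` from `exists_out`. `φ x = 0` if `ht f x < 0`, `1` if `InUp f t (symS S) x`,
`-1` otherwise (`InUp` includes `0 ≤ ht f x`). If `w s < |ht f x|`: for `ht f x ≥ 0` use `stay` and `ht f (x s) ≥ ht f x - w s ≥ 0`; for `ht f x < 0` `ht f (x s) ≤ ht f x + w s < 0`. `xs n = t ^ n` (`kp = 1`), `ys n = k0 * t ^ n` (`kp = k0`, not in `up`).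
`nonconst`. Summability of `mu s * w s` from `FirstMoment`; `HasSum` of the heights: `|ht f s| ≤ w s` and `mean` is the `tsum`. Negative mean: replace `f` by `f⁻¹` as in DC/N5 (`drift_nontrivial`).
-/

namespace Pool.Agent.H34.DA

open Pool.Agent.H34.LS Pool.Agent.H34.FL Pool.Agent.H34.DC

universe u

variable {G : Type u} [Group G]

private theorem e4_mul (f : G →* Multiplicative ℤ) (x y : G) : ht f (x * y) = ht f x + ht f y := by
  unfold ht
  rw [map_mul, toAdd_mul]

private theorem e4_pow {f : G →* Multiplicative ℤ} {t : G} (ht1 : f t = Multiplicative.ofAdd 1)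
    (n : ℕ) : ht f (t ^ n) = n := by
  unfold ht
  rw [map_pow, ht1, toAdd_pow, toAdd_ofAdd, nsmul_eq_mul, mul_one]

open Classical in
private noncomputable def e4_phi (f : G →* Multiplicative ℤ) (t : G) (S : Set G) (x : G) : ℝ :=
  if ht f x < 0 then 0 else if InUp f t (symS S) x then 1 else -1

private theorem e4_pos (f : G →* Multiplicative ℤ)
    (hf : Function.Surjective f)
    (hK : ∀ s : Set G, s.Finite → s ⊆ (f.ker : Set G) →
      ((Subgroup.closure s : Subgroup G) : Set G).Finite)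
    (hinf : (f.ker : Set G).Infinite) {mu : G → ℝ} (h : IsProb mu) (hm : FirstMoment mu)
    (hd : 0 < mean f mu) : ¬ Liouville mu := by
  obtain ⟨S, hSf, hSt, hSs⟩ := hm
  obtain ⟨t, ht1⟩ := hf (Multiplicative.ofAdd 1)
  obtain ⟨C, hC, hCw⟩ := ht_bound f hSf hSt
  obtain ⟨k0, hk0, hk1⟩ := exists_out f ht1 hK hinf hSf
  have hw : Summable fun s : G => mu s * ((C * wordLength S s : ℕ) : ℝ) := by
    refine (hSs.mul_left (C : ℝ)).congr fun s => ?_
    push_cast
    ring
  have hsum : Summable fun g : G => mu g * (ht f g : ℝ) := by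
    refine Summable.of_norm_bounded hw fun g => ?_
    rw [norm_mul, Real.norm_eq_abs, Real.norm_eq_abs, abs_of_nonneg (h.1 g)]
    refine mul_le_mul_of_nonneg_left ?_ (h.1 g)
    have h2 := hCw g
    have h3 : ((|ht f g| : ℤ) : ℝ) ≤ (((C * wordLength S g : ℕ) : ℤ) : ℝ) := by exact_mod_cast h2
    rw [Int.cast_abs, Int.cast_natCast] at h3
    exact h3
  have h1 : HasSum (fun g : G => mu g * (ht f g : ℝ)) (mean f mu) := hsum.hasSum
  have hk2 : ht f k0 = 0 := by
    unfold ht
    rw [MonoidHom.mem_ker.1 hk0]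
    rfl
  refine nonconst f h (w := fun s => C * wordLength S s) hw hd h1 (φ := e4_phi f t S)
    (xs := fun n => t ^ n) (ys := fun n => k0 * t ^ n) (fun x => ?_) (fun x s hs => ?_)
    (fun n => ⟨e4_pow ht1 n, ?_⟩) (fun n => ⟨?_, ?_⟩)
  · unfold e4_phi
    split_ifs <;> simp
  · have h2 := hCw s
    have h3 := abs_le.1 h2
    change ((C * wordLength S s : ℕ) : ℤ) < |ht f x| at hs
    rcases lt_or_ge (ht f x) 0 with h4 | h4
    · rw [abs_of_neg h4] at hs
      have h5 : ht f (x * s) < 0 := by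
        rw [e4_mul]
        linarith [h3.2]
      unfold e4_phi
      rw [if_pos h4, if_pos h5]
    · rw [abs_of_nonneg h4] at hs
      have h5 : ¬ ht f (x * s) < 0 := by
        rw [e4_mul]
        linarith [h3.1]
      unfold e4_phi
      rw [if_neg h5, if_neg (not_lt.2 h4)]
      have h6 := stay ht1 hSt hC x s hs.le
      by_cases h7 : InUp f t (symS S) x
      · rw [if_pos h7, if_pos (h6.2 h7)]
      · rw [if_neg h7, if_neg (fun h8 => h7 (h6.1 h8))]
  · have h2 : InUp f t (symS S) (t ^ n) := inUp_pow ht1 n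
    change e4_phi f t S (t ^ n) = 1
    unfold e4_phi
    rw [if_neg (not_lt.2 h2.1), if_pos h2]
  · change ht f (k0 * t ^ n) = n
    rw [e4_mul, hk2, e4_pow ht1, zero_add]
  · have h2 : ¬ InUp f t (symS S) (k0 * t ^ n) := not_inUp ht1 hk0 hk1 n
    change e4_phi f t S (k0 * t ^ n) = -1
    unfold e4_phi
    have h3 : ht f (k0 * t ^ n) = n := by rw [e4_mul, hk2, e4_pow ht1, zero_add]
    rw [if_neg (by rw [h3]; omega), if_neg h2]

theorem drift_first {G : Type u} [Group G] (f : G →* Multiplicative ℤ)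
    (hf : Function.Surjective f)
    (hK : ∀ s : Set G, s.Finite → s ⊆ (f.ker : Set G) →
      ((Subgroup.closure s : Subgroup G) : Set G).Finite)
    (hinf : (f.ker : Set G).Infinite) {mu : G → ℝ} (h : IsProb mu) (hm : FirstMoment mu)
    (hd : mean f mu ≠ 0) : ¬ Liouville mu := by
  rcases lt_or_gt_of_ne hd with hneg | hpos
  · have hker : (f⁻¹).ker = f.ker := by
      ext x
      rw [MonoidHom.mem_ker, MonoidHom.mem_ker, MonoidHom.inv_apply, inv_eq_one]
    have hdr : mean f⁻¹ mu = -mean f mu := by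
      unfold mean
      rw [← tsum_neg]
      refine tsum_congr fun g => ?_
      rw [MonoidHom.inv_apply, toAdd_inv]
      push_cast
      ring
    refine e4_pos f⁻¹ (fun y => ?_) ?_ ?_ h hm ?_
    · obtain ⟨x, hx⟩ := hf y⁻¹
      exact ⟨x, by rw [MonoidHom.inv_apply, hx, inv_inv]⟩
    · rw [hker]; exact hK
    · rw [hker]; exact hinf
    · rw [hdr]; linarith
  · exact e4_pos f hf hK hinf h hm hpos

end Pool.Agent.H34.DA
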