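import Pool.Agent.H34.DA.K1

/-!
K2: negative mean by reflection: the automorphism `r` of `LL`: `(r x).lamp i = x.lamp (-i)`, `(r x).pos = - x.pos` (`Finsupp.domCongr (Equiv.neg ℤ)` or `Finsupp.mapDomain`;
`r (x y) = r x * r y` from `LL.mul_lamp`, `LL.sh_apply`). `nu' = nu ∘ r` (as `r (r x) = x`) has mean `-m`, the same second moment and lamp moment (`Equiv.summable_iff`, `Equiv.hasSum_iff`;
the support of `(r x).lamp` has the same cardinality); `f` harmonic for `nu` iff `f ∘ r` is harmonic for `nu'`.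
-/

namespace Pool.Agent.H34.DA

open Pool.Agent.H34.LS Pool.Agent.H34.FL Filter

/-- the reflection. -/
private noncomputable def k2R (x : LL) : LL :=
  ⟨Finsupp.domCongr (Equiv.neg ℤ) x.lamp, -x.pos⟩

private theorem k2R_lamp (x : LL) (i : ℤ) : (k2R x).lamp i = x.lamp (-i) := by
  rw [k2R, Finsupp.domCongr_apply, Finsupp.equivMapDomain_apply]
  rfl

private theorem k2R_pos (x : LL) : (k2R x).pos = -x.pos := rfl

private theorem k2R_R (x : LL) : k2R (k2R x) = x := by
  apply LL.ext
  · ext i
    rw [k2R_lamp, k2R_lamp, neg_neg]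
  · rw [k2R_pos, k2R_pos, neg_neg]

private theorem k2R_mul (x y : LL) : k2R (x * y) = k2R x * k2R y := by
  apply LL.ext
  · ext i
    rw [k2R_lamp, LL.mul_lamp, LL.mul_lamp, Finsupp.add_apply, Finsupp.add_apply, LL.sh_apply,
      LL.sh_apply, k2R_lamp, k2R_lamp, k2R_pos]
    congr 2
    ring
  · rw [k2R_pos, LL.mul_pos, LL.mul_pos, k2R_pos, k2R_pos]
    ring

private theorem k2R_card (x : LL) : (k2R x).lamp.support.card = x.lamp.support.card := by
  refine Finset.card_bij (fun i _ => -i) ?_ ?_ ?_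
  · intro i hi
    rw [Finsupp.mem_support_iff, k2R_lamp] at hi
    exact Finsupp.mem_support_iff.2 hi
  · intro i _ j _ h
    exact neg_injective h
  · intro j hj
    refine ⟨-j, ?_, neg_neg j⟩
    rw [Finsupp.mem_support_iff, k2R_lamp, neg_neg]
    exact Finsupp.mem_support_iff.1 hj

/-- the reflection as a bijection. -/
private noncomputable def k2E : LL ≃ LL := ⟨k2R, k2R, k2R_R, k2R_R⟩

theorem ll_drift {nu : LL → ℝ} (h : IsProb nu)
    (hl : Summable fun x : LL => nu x * (x.lamp.support.card : ℝ)) {m : ℝ} (hm : m ≠ 0)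
    (h1 : HasSum (fun x : LL => nu x * (x.pos : ℝ)) m) : ¬ Liouville nu := by
  rcases lt_or_gt_of_ne hm with hneg | hpos
  · have g : IsProb fun x => nu (k2R x) :=
      ⟨fun x => h.1 _, (Equiv.hasSum_iff k2E (f := nu)).2 h.2⟩
    have gl : Summable fun x : LL => nu (k2R x) * (x.lamp.support.card : ℝ) := by
      have := (Equiv.summable_iff k2E).2 hl
      refine this.congr fun x => ?_
      show nu (k2R x) * ((k2R x).lamp.support.card : ℝ) = _
      rw [k2R_card]
    have g1 : HasSum (fun x : LL => nu (k2R x) * (x.pos : ℝ)) (-m) := by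
      have h3 := ((Equiv.hasSum_iff k2E).2 h1).neg
      have h4 : (fun x : LL => -(((fun x : LL => nu x * (x.pos : ℝ)) ∘ k2E) x)) =
          fun x : LL => nu (k2R x) * (x.pos : ℝ) := by
        funext x
        show -(nu (k2R x) * ((k2R x).pos : ℝ)) = _
        rw [k2R_pos]
        push_cast
        ring
      rwa [h4] at h3
    intro hL
    refine ll_drift_pos g gl (neg_pos.2 hneg) g1 ?_
    intro f hf x y
    have hf' : BddHarm nu fun a => f (k2R a) := by
      obtain ⟨⟨C, hC⟩, hh⟩ := hf
      refine ⟨⟨C, fun a => hC _⟩, fun a => ?_⟩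
      have h3 := (Equiv.hasSum_iff k2E).2 (hh (k2R a))
      have h4 : ((fun h : LL => nu (k2R h) * f (k2R a * h)) ∘ k2E) =
          fun h : LL => nu h * f (k2R (a * h)) := by
        funext b
        show nu (k2R (k2R b)) * f (k2R a * k2R b) = _
        rw [k2R_R, k2R_mul]
      rwa [h4] at h3
    have h5 := hL _ hf' (k2R x) (k2R y)
    simp only [k2R_R] at h5
    exact h5
  · exact ll_drift_pos h hl hpos h1

end Pool.Agent.H34.DA
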