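import Pool.Agent.H34.DA.I
import Pool.Agent.H34.LS.W1

/-!
T: moments of the image in the lamplighter group. For a finite generating set `S` of `G` let `C` bound `|pos (theta s)|` and `#supp lamp (theta s)`
for `s` in `S` and inverses; then `|pos (theta g)| ≤ C * wordLength S g` and `#supp lamp (theta g) ≤ C * wordLength S g` (induction over a word of minimal length, `wl_exists` in LS/W1 or W2;
`(a b).lamp = a.lamp + sh a.pos b.lamp`, the support of a sum lies in the union, the support of `sh` has the same cardinality; inverses: `inv_lamp`). So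
`mu g * # ≤ C mu g * wl`, `mu g |pos| ≤ C mu g * wl`; then `image_sum`.
-/

namespace Pool.Agent.H34.DA

open Pool.Agent.H34.LS Pool.Agent.H34.FL

universe u

/-- the size: modulus of the position plus number of lamps. -/
private noncomputable def t_sz (x : LL) : ℕ := x.pos.natAbs + x.lamp.support.card

private theorem t_sh (k : ℤ) (l : ℤ →₀ ZMod 2) : (LL.sh k l).support.card = l.support.card := by
  have h : (LL.sh k l).support = l.support.map (Equiv.addRight k).toEmbedding := by
    ext i
    rw [Finsupp.mem_support_iff, LL.sh_apply, Finset.mem_map]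
    constructor
    · intro hi
      exact ⟨i - k, Finsupp.mem_support_iff.2 hi, by
        show i - k + k = i
        ring⟩
    · rintro ⟨j, hj, hji⟩
      have h1 : i - k = j := by
        have h2 : j + k = i := hji
        omega
      rw [h1]
      exact Finsupp.mem_support_iff.1 hj
  rw [h, Finset.card_map]

private theorem t_mul (a b : LL) : t_sz (a * b) ≤ t_sz a + t_sz b := by
  unfold t_sz
  rw [LL.mul_pos, LL.mul_lamp]
  have h1 : (a.lamp + LL.sh a.pos b.lamp).support.card ≤
      a.lamp.support.card + b.lamp.support.card := by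
    refine (Finset.card_le_card Finsupp.support_add).trans ?_
    refine (Finset.card_union_le _ _).trans ?_
    rw [t_sh]
  have h2 := Int.natAbs_add_le a.pos b.pos
  omega

private theorem t_one : t_sz 1 = 0 := by
  unfold t_sz
  rw [LL.one_pos, LL.one_lamp]
  rfl

private theorem t_inv (a : LL) : t_sz a⁻¹ = t_sz a := by
  unfold t_sz
  rw [LL.inv_pos, LL.inv_lamp, t_sh, Int.natAbs_neg]

private theorem t_list {G : Type u} [Group G] (theta : G →* LL) {S : Set G} {C : ℕ}
    (hC : ∀ s ∈ S, t_sz (theta s) ≤ C) :
    ∀ l : List G, (∀ x ∈ l, x ∈ S ∨ x⁻¹ ∈ S) → t_sz (theta l.prod) ≤ C * l.length := by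
  intro l
  induction l with
  | nil =>
    intro _
    rw [List.prod_nil, map_one, t_one]
    exact Nat.zero_le _
  | cons x l ih =>
    intro hl
    have h1 := ih fun y hy => hl y (List.mem_cons_of_mem _ hy)
    have h2 : t_sz (theta x) ≤ C := by
      rcases hl x List.mem_cons_self with hx | hx
      · exact hC x hx
      · have h3 := hC _ hx
        rwa [map_inv, t_inv] at h3
    rw [List.prod_cons, map_mul, List.length_cons]
    have h3 := t_mul (theta x) (theta l.prod)
    have h4 : C * (l.length + 1) = C * l.length + C := by ring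
    omega

private theorem t_bound {G : Type u} [Group G] (theta : G →* LL) {S : Set G} (hf : S.Finite)
    (hS : Subgroup.closure S = ⊤) :
    ∃ C : ℕ, ∀ g, t_sz (theta g) ≤ C * wordLength S g := by
  obtain ⟨C, hC⟩ := (hf.image fun s => t_sz (theta s)).bddAbove
  refine ⟨C, fun g => ?_⟩
  obtain ⟨l, h1, h2, h3⟩ := wl_exists hS g
  have h4 := t_list theta (fun s hs => hC (Set.mem_image_of_mem _ hs)) l h2
  rw [h3, h1] at h4
  exact h4

theorem transfer {G : Type u} [Group G] (theta : G →* LL) {mu : G → ℝ} (h : IsProb mu)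
    (hm : FirstMoment mu) :
    Summable (fun x : LL => image theta mu x * (x.lamp.support.card : ℝ)) ∧
    HasSum (fun x : LL => image theta mu x * (x.pos : ℝ)) (mean (LL.hpos.comp theta) mu) := by
  obtain ⟨S, hf, hS, hs⟩ := hm
  obtain ⟨C, hC⟩ := t_bound theta hf hS
  have hp : ∀ g, |((theta g).pos : ℝ)| ≤ C * (wordLength S g : ℝ) := by
    intro g
    have h1 : (theta g).pos.natAbs ≤ C * wordLength S g :=
      (Nat.le_add_right _ _).trans (hC g)
    have h2 : (((theta g).pos.natAbs : ℕ) : ℝ) = |((theta g).pos : ℝ)| := by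
      rw [Nat.cast_natAbs, Int.cast_abs]
    rw [← h2]
    exact_mod_cast h1
  have hc : ∀ g, ((theta g).lamp.support.card : ℝ) ≤ C * (wordLength S g : ℝ) := by
    intro g
    have h1 : (theta g).lamp.support.card ≤ C * wordLength S g :=
      (Nat.le_add_left _ _).trans (hC g)
    exact_mod_cast h1
  have hs1 : Summable fun g => (C : ℝ) * (mu g * (wordLength S g : ℝ)) := hs.mul_left _
  refine ⟨?_, ?_⟩
  · refine (image_sum (fun g => theta g) h
      (φ := fun x : LL => (x.lamp.support.card : ℝ)) ?_).summable
    refine Summable.of_nonneg_of_le (fun g => mul_nonneg (h.1 g) (Nat.cast_nonneg _))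
      (fun g => ?_) hs1
    have h2 := mul_le_mul_of_nonneg_left (hc g) (h.1 g)
    calc mu g * ((theta g).lamp.support.card : ℝ) ≤ mu g * (C * (wordLength S g : ℝ)) := h2
      _ = (C : ℝ) * (mu g * (wordLength S g : ℝ)) := by ring
  · refine image_sum (fun g => theta g) h (φ := fun x : LL => (x.pos : ℝ)) ?_
    refine Summable.of_norm_bounded hs1 fun g => ?_
    rw [Real.norm_eq_abs, abs_mul, abs_of_nonneg (h.1 g)]
    have h2 := mul_le_mul_of_nonneg_left (hp g) (h.1 g)
    calc mu g * |((theta g).pos : ℝ)| ≤ mu g * (C * (wordLength S g : ℝ)) := h2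
      _ = (C : ℝ) * (mu g * (wordLength S g : ℝ)) := by ring

end Pool.Agent.H34.DA
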