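import Pool.Agent.H34.DA.M2
import Pool.Agent.H34.DA.K2
import Pool.Agent.H34.DA.T
import Pool.Agent.H34.FL.Fin
import Pool.Agent.H34.DC.Fin
import Pool.Agent.H34.DA.E4

/-!
Fin: assembly; the criterion for finitely supported centered measures.
-/

namespace Pool.Agent.H34.DA

open Pool.Agent.H34.LS Pool.Agent.H34.FL Pool.Agent.H34.DC

universe u

theorem mean_eq {G : Type u} [Group G] (f : G →* Multiplicative ℤ) {mu : G → ℝ}
    (h : IsFSProb mu) : mean f mu = drift f mu := by
  unfold mean drift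
  refine tsum_eq_finsum ?_
  refine h.finite.subset fun g hg => ?_
  rw [Function.mem_support] at hg ⊢
  exact left_ne_zero_of_mul hg

theorem ll_iff2 {nu : LL → ℝ} (h : IsProb nu) (hg : Generating nu)
    (hl : Summable fun x : LL => nu x * (x.lamp.support.card : ℝ)) {m : ℝ}
    (h1 : HasSum (fun x : LL => nu x * (x.pos : ℝ)) m) : Liouville nu ↔ m = 0 := by
  constructor
  · intro hL
    by_contra hm
    exact ll_drift h hl hm h1 hL
  · rintro rfl
    exact ll_centered h hg h1

theorem example2 : ∃ (G : Type) (_ : Group G) (f : G →* Multiplicative ℤ), Group.FG G ∧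
    LocFinByZ G ∧ LacunaryHyperbolic G ∧ Function.Surjective f ∧
    (∃ mu : G → ℝ, IsFSProb mu ∧ Generating mu ∧ Symm mu ∧ mean f mu = 0) ∧
    (∃ mu : G → ℝ, IsFSProb mu ∧ Generating mu ∧ mean f mu ≠ 0) ∧
    (∀ mu : G → ℝ, IsProb mu → Generating mu → CenteredHeight f mu → Liouville mu) ∧
    ∀ mu : G → ℝ, IsProb mu → Generating mu → FirstMoment mu →
      (Liouville mu ↔ mean f mu = 0) := by
  obtain ⟨G, iG, theta, hlac, _, hloc, hsurj, _, hmu, _⟩ :=
    lift_limit LL (limit_of_locFin LL.ll_fg LL.ll_locFinByZ)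
  have hfg : Group.FG G := by
    obtain ⟨S, hS, hS2, _⟩ := hlac
    exact ⟨⟨hS.toFinset, by simpa using hS2⟩⟩
  have hpos : Function.Surjective LL.hpos := by
    intro k
    exact ⟨⟨0, Multiplicative.toAdd k⟩, rfl⟩
  have hf : Function.Surjective (LL.hpos.comp theta) := by
    rw [MonoidHom.coe_comp]
    exact hpos.comp hsurj
  refine ⟨G, iG, LL.hpos.comp theta, hfg, hloc LL.ll_locFinByZ, hlac, hf, ?_, ?_, ?_, ?_⟩
  · obtain ⟨mu, h1, h2, h3⟩ := exists_symm hfg
    exact ⟨mu, h1, h2, h3, by rw [mean_eq _ h1, drift_symm _ h3]⟩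
  · obtain ⟨mu, h1, h2, h3⟩ := exists_drift hfg (LL.hpos.comp theta) hf
    exact ⟨mu, h1, h2, by rw [mean_eq _ h1]; exact h3⟩
  · intro mu h hg hm
    rw [(hmu mu h hg).2]
    refine ll_centered (image_prob theta h) (image_gen theta hsurj h hg) ?_
    have h1 := image_sum (fun g => theta g) h (φ := fun x : LL => (x.pos : ℝ)) hm.summable
    have h2 : ∑' g, mu g * (((theta g).pos : ℤ) : ℝ) = 0 := hm.tsum_eq
    rw [h2] at h1
    exact h1
  · intro mu h hg hm
    obtain ⟨t2, t3⟩ := transfer theta h hm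
    rw [(hmu mu h hg).2]
    exact ll_iff2 (image_prob theta h) (image_gen theta hsurj h hg) t2 t3

theorem main5 :
    (∀ (G : Type u) [Group G] (f : G →* Multiplicative ℤ) (S : Set G), SmallWindows f S →
      ∀ mu : G → ℝ, IsFSProb mu → Generating mu → mean f mu = 0 → Liouville mu) ∧
    (∀ (G : Type u) [Group G] (f : G →* Multiplicative ℤ), Onto f →
      ∀ mu : G → ℝ, IsProb mu → FirstMoment mu → mean f mu ≠ 0 → ¬ Liouville mu) ∧
    ∃ (G : Type) (_ : Group G) (f : G →* Multiplicative ℤ), Group.FG G ∧ LocFinByZ G ∧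
      LacunaryHyperbolic G ∧ Function.Surjective f ∧
      (∃ mu : G → ℝ, IsFSProb mu ∧ Generating mu ∧ Symm mu ∧ mean f mu = 0) ∧
      (∃ mu : G → ℝ, IsFSProb mu ∧ Generating mu ∧ mean f mu ≠ 0) ∧
      (∀ mu : G → ℝ, IsProb mu → Generating mu → CenteredHeight f mu → Liouville mu) ∧
      ∀ mu : G → ℝ, IsProb mu → Generating mu → FirstMoment mu →
        (Liouville mu ↔ mean f mu = 0) := by
  refine ⟨?_, ?_, example2⟩
  · intro G _ f S hS mu h hg h0
    rw [mean_eq f h] at h0
    rw [liouville_fs h]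
    exact centered_criterion f S hS.gen hS.finite hS.diverges h hg h0
  · intro G _ f hf mu h hm hd
    exact drift_first f hf.surj hf.locfin hf.infinite h hm hd

end Pool.Agent.H34.DA
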