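import Pool.Agent.H34.DA.E1a

/-!
E1b: `stay`: the invariant of DC/N2 for long steps.
-/

namespace Pool.Agent.H34.DA

open Pool.Agent.H34.LS Pool.Agent.H34.FL Pool.Agent.H34.DC

universe u

variable {G : Type u} [Group G]

private theorem e1b_mul (f : G →* Multiplicative ℤ) (x y : G) : ht f (x * y) = ht f x + ht f y := by
  unfold ht
  rw [map_mul, toAdd_mul]

private theorem e1b_list {f : G →* Multiplicative ℤ} {t : G} (ht1 : f t = Multiplicative.ofAdd 1)
    {S : Set G} {C : ℕ} (hC : ∀ s ∈ symS S, |ht f s| ≤ (C : ℤ)) (l : List G) :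
    (∀ y ∈ l, y ∈ symS S) → ∀ x : G, ((C * l.length : ℕ) : ℤ) ≤ ht f x →
      (InUp f t (symS S) (x * l.prod) ↔ InUp f t (symS S) x) := by
  induction l with
  | nil =>
    intro _ x _
    rw [List.prod_nil, mul_one]
  | cons a l ih =>
    intro hl x hx
    have ha : a ∈ symS S := hl a List.mem_cons_self
    have h1 := (abs_le.1 (hC a ha)).1
    have h2 : ((C * l.length : ℕ) : ℤ) ≤ ht f (x * a) := by
      rw [e1b_mul]
      rw [List.length_cons] at hx
      push_cast at hx ⊢
      linarith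
    have h3 : (0 : ℤ) ≤ ht f (x * a) := (Int.natCast_nonneg _).trans h2
    have h4 : (0 : ℤ) ≤ ht f x := (Int.natCast_nonneg _).trans hx
    rw [List.prod_cons, ← mul_assoc, ih (fun y hy => hl y (List.mem_cons_of_mem _ hy)) (x * a) h2]
    exact inUp_step ht1 ha h4 h3

theorem stay {f : G →* Multiplicative ℤ} {t : G} (ht1 : f t = Multiplicative.ofAdd 1) {S : Set G}
    (hS : Subgroup.closure S = ⊤) {C : ℕ} (hC : ∀ s ∈ symS S, |ht f s| ≤ (C : ℤ)) (x s : G)
    (hx : ((C * wordLength S s : ℕ) : ℤ) ≤ ht f x) :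
    InUp f t (symS S) (x * s) ↔ InUp f t (symS S) x := by
  obtain ⟨l, hl, hs, hp⟩ := wl_exists hS s
  rw [← hl] at hx
  rw [← hp]
  exact e1b_list ht1 hC l hs x hx

end Pool.Agent.H34.DA
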