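import Pool.Agent.H34.DA.E1a
import Pool.Agent.H34.DA.E1b

/-!
E1: walks which stay in the kernel (proofs in E1a, E1b).
-/
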