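import Pool.Agent.H34.DA.Defs
import Pool.Agent.H34.DC.N2
import Pool.Agent.H34.DC.N1
import Pool.Agent.H34.LS.W1

/-!
E1a: the alphabet `symS S`, the bound of the heights by the word length (`ht_bound`), and an element of the kernel which is
not in `up t (kp f t '' symS S)` (`exists_out`).
-/

namespace Pool.Agent.H34.DA

open Pool.Agent.H34.LS Pool.Agent.H34.FL Pool.Agent.H34.DC

universe u

variable {G : Type u} [Group G]

/-- `S` and the inverses of its elements. -/
def symS (S : Set G) : Set G := {x | x ∈ S ∨ x⁻¹ ∈ S}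

private theorem e1a_fin {S : Set G} (hf : S.Finite) : (symS S).Finite := by
  have h : symS S ⊆ S ∪ (fun x => x⁻¹) '' S := by
    rintro x (hx | hx)
    · exact Or.inl hx
    · exact Or.inr ⟨x⁻¹, hx, inv_inv x⟩
  exact (hf.union (hf.image _)).subset h

private theorem e1a_mul (f : G →* Multiplicative ℤ) (x y : G) :
    ht f (x * y) = ht f x + ht f y := by
  unfold ht
  rw [map_mul, toAdd_mul]

private theorem e1a_list (f : G →* Multiplicative ℤ) {S : Set G} {C : ℕ}
    (hC : ∀ s ∈ symS S, |ht f s| ≤ (C : ℤ)) (l : List G) (hl : ∀ x ∈ l, x ∈ S ∨ x⁻¹ ∈ S) :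
    |ht f l.prod| ≤ (C : ℤ) * l.length := by
  induction l with
  | nil =>
    have h : ht f (1 : G) = 0 := by
      unfold ht
      rw [map_one, toAdd_one]
    rw [List.prod_nil, h]
    simp
  | cons a l ih =>
    rw [List.prod_cons, e1a_mul, List.length_cons]
    have h1 := hC a (hl a (List.mem_cons_self ..))
    have h2 := ih fun x hx => hl x (List.mem_cons_of_mem _ hx)
    push_cast
    calc |ht f a + ht f l.prod| ≤ |ht f a| + |ht f l.prod| := abs_add_le _ _
      _ ≤ C + C * l.length := add_le_add h1 h2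
      _ = C * (l.length + 1) := by ring

theorem ht_bound (f : G →* Multiplicative ℤ) {S : Set G} (hf : S.Finite)
    (hS : Subgroup.closure S = ⊤) :
    ∃ C : ℕ, (∀ s ∈ symS S, |ht f s| ≤ (C : ℤ)) ∧ ∀ s : G, |ht f s| ≤ (C * wordLength S s : ℕ) := by
  obtain ⟨C, hC⟩ := ((e1a_fin hf).image fun s => (ht f s).natAbs).bddAbove
  have h1 : ∀ s ∈ symS S, |ht f s| ≤ (C : ℤ) := by
    intro s hs
    have h2 : (ht f s).natAbs ≤ C := hC ⟨s, hs, rfl⟩
    rw [Int.abs_eq_natAbs]
    exact_mod_cast h2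
  refine ⟨C, h1, fun s => ?_⟩
  obtain ⟨l, hl, hl2, hp⟩ := wl_exists hS s
  have h3 := e1a_list f h1 l hl2
  rw [hp, hl] at h3
  rw [Nat.cast_mul]
  exact h3

theorem exists_out (f : G →* Multiplicative ℤ) {t : G} (ht1 : f t = Multiplicative.ofAdd 1)
    (hK : ∀ s : Set G, s.Finite → s ⊆ (f.ker : Set G) →
      ((Subgroup.closure s : Subgroup G) : Set G).Finite)
    (hinf : (f.ker : Set G).Infinite) {S : Set G} (hf : S.Finite) :
    ∃ k ∈ f.ker, k ∉ up t (kp f t '' symS S) := by
  by_contra hcon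
  push Not at hcon
  have hA : (kp f t '' symS S).Finite := (e1a_fin hf).image _
  have hAK : kp f t '' symS S ⊆ (f.ker : Set G) := by
    rintro x ⟨s, -, rfl⟩
    exact kp_mem_ker ht1 s
  have hle : up t (kp f t '' symS S) ≤ f.ker := by
    unfold up
    rw [Subgroup.closure_le]
    rintro x ⟨j, k, hk, rfl⟩
    exact (inferInstance : f.ker.Normal).conj_mem k (hAK hk) (t ^ j)
  exact hinf (finite_of_up hK hA hAK (le_antisymm hle hcon))

end Pool.Agent.H34.DA
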