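import Pool.Agent.H34.DA.Defs

/-!
F1: Choquet and Deny on `ℤ`: bounded harmonic functions of a generating law are constant. It is enough to show `W k := v (k + i) - v k ≤ 0` for all `i` and `k` (apply it to
`-i` at `k + i` for the other inequality). `s = sSup (range W)` (bounded by `2 C`), suppose `s > 0`. As in FL/A: for every `x : ℤ` and `e > 0` there is `d > 0` such that `W k ≥ s - d` implies
`W (k + x) ≥ s - e` for all `k` (`AddSubmonoid.closure_induction`; for `x` in the support: `W k = ∑' q j W (k + j)`, all `W ≤ s`, so `q x (s - W (k + x)) ≤ s - W k`). Take `J` with `J * s / 2 > 2 C`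
and `d` good for `x = n i`, `n < J`, and `e = s / 2` (minimum of finitely many `d`), and `k` with `W k ≥ s - d`. Then `v (k + J i) - v k = ∑_{n < J} W (k + n i) ≥ J s / 2 > 2 C`, contradiction
(`Finset.sum_range_sub`).
-/

namespace Pool.Agent.H34.DA

open Pool.Agent.H34.LS Pool.Agent.H34.FL

theorem cd_int {q : ℤ → ℝ} (hq : IsProb q)
    (hgen : AddSubmonoid.closure (Function.support q) = ⊤) {v : ℤ → ℝ} {C : ℝ}
    (hv : ∀ k, |v k| ≤ C) (hh : ∀ k, v k = ∑' j, q j * v (k + j)) (k l : ℤ) : v k = v l := by
  obtain ⟨hpos, hsum⟩ := hq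
  have hvs : ∀ k, HasSum (fun j => q j * v (k + j)) (v k) := by
    intro k
    have h1 : Summable fun j : ℤ => q j * v (k + j) := by
      refine Summable.of_norm_bounded (g := fun j => q j * C) (hsum.summable.mul_right C)
        fun j => ?_
      rw [norm_mul, Real.norm_eq_abs, Real.norm_eq_abs, abs_of_nonneg (hpos j)]
      exact mul_le_mul_of_nonneg_left (hv _) (hpos j)
    have h2 := h1.hasSum
    rwa [← hh k] at h2
  suffices H : ∀ i k, v (k + i) - v k ≤ 0 by
    have h1 := H (k - l) l
    have h2 := H (l - k) k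
    rw [add_sub_cancel] at h1 h2
    linarith
  intro i
  set W : ℤ → ℝ := fun k => v (k + i) - v k with hW
  have hWb : BddAbove (Set.range W) := by
    refine ⟨2 * C, ?_⟩
    rintro r ⟨k, rfl⟩
    have h1 := abs_le.1 (hv (k + i))
    have h2 := abs_le.1 (hv k)
    simp only [hW]
    linarith [h1.2, h2.1]
  set s : ℝ := sSup (Set.range W) with hs
  have hle : ∀ k, W k ≤ s := fun k => le_csSup hWb ⟨k, rfl⟩
  have hWs : ∀ k, HasSum (fun j => q j * W (k + j)) (W k) := by
    intro k
    have h1 := (hvs (k + i)).sub (hvs k)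
    have e : (fun j => q j * v (k + i + j) - q j * v (k + j)) = fun j => q j * W (k + j) := by
      funext j
      simp only [hW]
      rw [add_right_comm k i j]
      ring
    rw [e] at h1
    exact h1
  have hP : ∀ x : ℤ, ∀ ε : ℝ, 0 < ε → ∃ δ : ℝ, 0 < δ ∧ ∀ k : ℤ,
      s - δ ≤ W k → s - ε ≤ W (k + x) := by
    intro x
    have hx : x ∈ AddSubmonoid.closure (Function.support q) := by
      rw [hgen]
      exact AddSubmonoid.mem_top x
    induction hx using AddSubmonoid.closure_induction with
    | mem x hx =>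
      intro ε hε
      have hxp : 0 < q x := lt_of_le_of_ne (hpos x) (Ne.symm hx)
      refine ⟨q x * ε, by positivity, fun k hk => ?_⟩
      have h4 : HasSum (fun y => q y * (s - W (k + y))) (1 * s - W k) := by
        have h5 := (hsum.mul_right s).sub (hWs k)
        have e : (fun y => q y * s - q y * W (k + y)) = fun y => q y * (s - W (k + y)) := by
          funext y
          ring
        rw [e] at h5
        exact h5
      have h5 : ∀ y, 0 ≤ q y * (s - W (k + y)) := fun y =>
        mul_nonneg (hpos y) (by linarith [hle (k + y)])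
      have h6 := le_hasSum h4 x fun y _ => h5 y
      have h7 : q x * (s - W (k + x)) ≤ q x * ε := by linarith
      have h8 := le_of_mul_le_mul_left h7 hxp
      linarith
    | zero =>
      intro ε hε
      exact ⟨ε, hε, fun k hk => by rwa [add_zero]⟩
    | add x y _ _ ihx ihy =>
      intro ε hε
      obtain ⟨δ1, hδ1, h1⟩ := ihy ε hε
      obtain ⟨δ, hδ, h2⟩ := ihx δ1 hδ1
      refine ⟨δ, hδ, fun k hk => ?_⟩
      rw [← add_assoc]
      exact h1 _ (h2 k hk)
  have hs0 : s ≤ 0 := by
    by_contra hc
    rw [not_le] at hc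
    have hC : 0 ≤ C := le_trans (abs_nonneg _) (hv 0)
    obtain ⟨J, hJ⟩ := exists_nat_gt (2 * C / (s / 2))
    rw [div_lt_iff₀ (by linarith)] at hJ
    have hJ0 : 0 < J := by
      rcases Nat.eq_zero_or_pos J with h | h
      · rw [h] at hJ
        simp only [Nat.cast_zero, zero_mul] at hJ
        linarith
      · exact h
    have hP2 := fun n : ℕ => hP ((n : ℤ) * i) (s / 2) (by linarith)
    choose δ hδ hP3 using hP2
    obtain ⟨n0, hn0, hmin⟩ := Finset.exists_min_image (Finset.range J) δ
      ⟨0, Finset.mem_range.2 hJ0⟩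
    obtain ⟨r, ⟨k, rfl⟩, hr⟩ := exists_lt_of_lt_csSup (Set.range_nonempty W)
      (show s - δ n0 < sSup (Set.range W) by rw [← hs]; linarith [hδ n0])
    have h1 : ∀ n ∈ Finset.range J, s / 2 ≤ W (k + (n : ℤ) * i) := by
      intro n hn
      have h2 := hP3 n k (by linarith [hmin n hn])
      linarith
    have h2 := Finset.sum_range_sub (fun n : ℕ => v (k + (n : ℤ) * i)) J
    have h3 : ∑ n ∈ Finset.range J, (v (k + ((n + 1 : ℕ) : ℤ) * i) - v (k + (n : ℤ) * i)) =
        ∑ n ∈ Finset.range J, W (k + (n : ℤ) * i) := by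
      refine Finset.sum_congr rfl fun n _ => ?_
      simp only [hW]
      congr 2
      push_cast
      ring
    rw [h3] at h2
    have h4 : (J : ℝ) * (s / 2) ≤ ∑ n ∈ Finset.range J, W (k + (n : ℤ) * i) := by
      have h5 := Finset.card_nsmul_le_sum (Finset.range J) (fun n : ℕ => W (k + (n : ℤ) * i))
        (s / 2) h1
      rwa [Finset.card_range, nsmul_eq_mul] at h5
    have h5 := abs_le.1 (hv (k + (J : ℤ) * i))
    have h6 := abs_le.1 (hv (k + ((0 : ℕ) : ℤ) * i))
    linarith [h5.2, h6.1]
  intro k
  exact le_trans (hle k) hs0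

end Pool.Agent.H34.DA
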