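import Pool.Agent.H34.DA.F1

/-!
F2: a bounded function with `P u - u → 0` at infinity is slowly varying. By `tendsto_iff_ultrafilter` take an ultrafilter `U ≤ cofinite` on `ℤ`. For each `i` the bounded function `k ↦ u (k + i)` has a limit
`v i` along `U` (compactness of `Set.Icc (-C) C`: `isCompact_Icc.ultrafilter_le_nhds`, with `Ultrafilter.map`). `|v| ≤ C`. `v i = ∑' j, q j * v (i + j)`: `tendsto_tsum_of_dominated_convergence` along `U` (bound `q j * C`) gives
`∑' j, q j * u (k + i + j) → ∑' j, q j * v (i + j)`, and `∑' j, q j * u (k + i + j) - u (k + i) → 0` (the hypothesis composed with the injective map `k ↦ k + i`, which preserves `cofinite`: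
`Function.Injective.tendsto_cofinite`). By `cd_int` `v i = v 0`, so `u (k + i) - u k → v i - v 0 = 0`.
-/

namespace Pool.Agent.H34.DA

open Pool.Agent.H34.LS Pool.Agent.H34.FL Filter

theorem asymp {q : ℤ → ℝ} (hq : IsProb q)
    (hgen : AddSubmonoid.closure (Function.support q) = ⊤) {u : ℤ → ℝ} {C : ℝ}
    (hu : ∀ k, |u k| ≤ C) (hD : Tendsto (fun k => ∑' j, q j * u (k + j) - u k) cofinite (nhds 0))
    (i : ℤ) : Tendsto (fun k => u (k + i) - u k) cofinite (nhds 0) := by
  rw [tendsto_iff_ultrafilter]
  intro U hU
  have hlim : ∀ i : ℤ, ∃ v, |v| ≤ C ∧ Tendsto (fun k => u (k + i)) U (nhds v) := by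
    intro i
    obtain ⟨v, hv, h⟩ := (isCompact_Icc (a := -C) (b := C)).ultrafilter_le_nhds
      (U.map (fun k => u (k + i))) (by
        rw [le_principal_iff, Ultrafilter.coe_map, mem_map]
        exact univ_mem' fun k => abs_le.1 (hu (k + i)))
    exact ⟨v, abs_le.2 hv, h⟩
  choose v hvC hv using hlim
  have hharm : ∀ i, v i = ∑' j, q j * v (i + j) := by
    intro i
    have h1 : Tendsto (fun k => ∑' j, q j * u (k + i + j)) U (nhds (∑' j, q j * v (i + j))) := by
      refine tendsto_tsum_of_dominated_convergence (bound := fun j => q j * C)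
        (hq.2.summable.mul_right C) (fun j => ?_) (Eventually.of_forall fun k j => ?_)
      · have h2 := (hv (i + j)).const_mul (q j)
        simpa only [add_assoc] using h2
      · rw [norm_mul, Real.norm_eq_abs, Real.norm_eq_abs, abs_of_nonneg (hq.1 j)]
        exact mul_le_mul_of_nonneg_left (hu _) (hq.1 j)
    have h2 : Tendsto (fun k => ∑' j, q j * u (k + i + j) - u (k + i)) U (nhds 0) := by
      have h3 : Tendsto (fun k : ℤ => k + i) cofinite cofinite :=
        (add_left_injective i).tendsto_cofinite
      exact (hD.comp h3).mono_left hU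
    have h5 := tendsto_nhds_unique h2 (h1.sub (hv i))
    linarith
  have h6 := cd_int hq hgen hvC hharm i 0
  have h7 := (hv i).sub (hv 0)
  rw [h6, sub_self] at h7
  simpa only [add_zero] using h7

end Pool.Agent.H34.DA
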