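import Pool.Agent.H34.DA.Defs

/-!
F3: sums of differences over intervals. `flw u N (j + 1) - flw u N j = u (N + j + 1) - u (-N + j)` for every integer `j` (the sum of `u (k + j + 1) - u (k + j)` over `Icc (-N) N` telescopes:
induction on `N`, or reindex `Icc` as a range and use `Finset.sum_range_sub`), `flw u N 0 = 0`. By induction on `j ≥ 0` and on `j ≤ 0` (`Int.induction_on`): `|flw u N j| ≤ 2 C |j|` and
`flw u N j - j (u N - u (-N)) → 0` (the difference of consecutive values is `(u (N + j + 1) - u N) - (u (-N + j) - u (-N))`; `hs (j + 1)` along the injective sequence `N ↦ (N : ℤ)`, `hs j` along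
`N ↦ - (N : ℤ)`: `tendsto_cofinite` of injective maps composed with `Nat.cofinite_eq_atTop`).
-/

namespace Pool.Agent.H34.DA

open Pool.Agent.H34.LS Pool.Agent.H34.FL Filter

/-- the sum of the differences `u (k + j) - u k` over `[-N, N]`. -/
noncomputable def flw (u : ℤ → ℝ) (N : ℕ) (j : ℤ) : ℝ :=
  ∑ k ∈ Finset.Icc (-(N : ℤ)) N, (u (k + j) - u k)

private theorem f3_ico (v : ℤ → ℝ) (a : ℤ) (m : ℕ) :
    ∑ k ∈ Finset.Ico a (a + m), (v (k + 1) - v k) = v (a + m) - v a := by
  induction m with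
  | zero => simp
  | succ m ih =>
    have h1 : Finset.Ico a (a + (m + 1 : ℕ)) = insert (a + m) (Finset.Ico a (a + m)) := by
      ext k
      simp only [Finset.mem_Ico, Finset.mem_insert]
      push_cast
      omega
    have h2 : a + (m : ℤ) ∉ Finset.Ico a (a + m) := by simp
    rw [h1, Finset.sum_insert h2, ih]
    have h3 : a + ((m + 1 : ℕ) : ℤ) = a + m + 1 := by push_cast; ring
    rw [h3]
    ring

private theorem f3_icc (v : ℤ → ℝ) (N : ℕ) :
    ∑ k ∈ Finset.Icc (-(N : ℤ)) N, (v (k + 1) - v k) = v (N + 1) - v (-(N : ℤ)) := by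
  have h1 : Finset.Icc (-(N : ℤ)) N = Finset.Ico (-(N : ℤ)) (-(N : ℤ) + (2 * N + 1 : ℕ)) := by
    ext k
    simp only [Finset.mem_Icc, Finset.mem_Ico]
    push_cast
    omega
  rw [h1, f3_ico]
  congr 2
  push_cast
  ring

private theorem f3_zero (u : ℤ → ℝ) (N : ℕ) : flw u N 0 = 0 := by
  unfold flw
  simp

private theorem f3_step (u : ℤ → ℝ) (N : ℕ) (j : ℤ) :
    flw u N (j + 1) = flw u N j + (u (N + (j + 1)) - u (-(N : ℤ) + j)) := by
  have h1 := f3_icc (fun k => u (k + j)) N
  have h2 : flw u N (j + 1) - flw u N j =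
      ∑ k ∈ Finset.Icc (-(N : ℤ)) N, (u (k + 1 + j) - u (k + j)) := by
    unfold flw
    rw [← Finset.sum_sub_distrib]
    refine Finset.sum_congr rfl fun k _ => ?_
    have h3 : k + 1 + j = k + (j + 1) := by ring
    rw [h3]
    ring
  have h4 : (N : ℤ) + 1 + j = N + (j + 1) := by ring
  simp only [h4] at h1
  linarith [h1, h2]

theorem flw_bound {u : ℤ → ℝ} {C : ℝ} (hu : ∀ k, |u k| ≤ C) (N : ℕ) (j : ℤ) :
    |flw u N j| ≤ 2 * C * |(j : ℝ)| := by
  have hstep : ∀ j, |flw u N (j + 1) - flw u N j| ≤ 2 * C := by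
    intro j
    rw [f3_step, add_sub_cancel_left]
    have h1 := abs_le.1 (hu (N + (j + 1)))
    have h2 := abs_le.1 (hu (-(N : ℤ) + j))
    rw [abs_le]
    constructor <;> linarith [h1.1, h1.2, h2.1, h2.2]
  induction j using Int.induction_on with
  | zero => simp [f3_zero]
  | succ i ih =>
    have h1 := hstep i
    have h2 : |((((i : ℤ) + 1 : ℤ)) : ℝ)| = |(((i : ℤ)) : ℝ)| + 1 := by
      have h3 : (0 : ℝ) ≤ i := Nat.cast_nonneg i
      push_cast
      rw [abs_of_nonneg h3, abs_of_nonneg (by linarith)]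
    rw [h2]
    have h4 : |flw u N ((i : ℤ) + 1)| ≤ |flw u N i| + |flw u N ((i : ℤ) + 1) - flw u N i| := by
      have := abs_add_le (flw u N i) (flw u N ((i : ℤ) + 1) - flw u N i)
      rwa [add_sub_cancel] at this
    linarith
  | pred i ih =>
    have h1 := hstep (-(i : ℤ) - 1)
    rw [sub_add_cancel] at h1
    have h2 : |((-(i : ℤ) - 1 : ℤ) : ℝ)| = |((-(i : ℤ) : ℤ) : ℝ)| + 1 := by
      have h3 : (0 : ℝ) ≤ i := Nat.cast_nonneg i
      push_cast
      rw [abs_neg, abs_of_nonneg h3, abs_of_nonpos (by linarith)]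
      ring
    rw [h2]
    have h4 : |flw u N (-(i : ℤ) - 1)| ≤
        |flw u N (-(i : ℤ))| + |flw u N (-(i : ℤ)) - flw u N (-(i : ℤ) - 1)| := by
      have := abs_sub_abs_le_abs_sub (flw u N (-(i : ℤ) - 1)) (flw u N (-(i : ℤ)))
      rw [abs_sub_comm] at this
      linarith
    linarith

theorem flw_tendsto {u : ℤ → ℝ}
    (hs : ∀ i : ℤ, Tendsto (fun k => u (k + i) - u k) cofinite (nhds 0)) (j : ℤ) :
    Tendsto (fun N : ℕ => flw u N j - j * (u N - u (-(N : ℤ)))) atTop (nhds 0) := by
  have hp : Tendsto (fun N : ℕ => (N : ℤ)) atTop cofinite := by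
    rw [← Nat.cofinite_eq_atTop]
    exact Function.Injective.tendsto_cofinite Nat.cast_injective
  have hm : Tendsto (fun N : ℕ => -(N : ℤ)) atTop cofinite := by
    rw [← Nat.cofinite_eq_atTop]
    exact Function.Injective.tendsto_cofinite fun a b h => by
      have h1 : (a : ℤ) = b := neg_injective h
      exact_mod_cast h1
  -- the difference of consecutive values
  have hd : ∀ j : ℤ, Tendsto (fun N : ℕ => (u (N + (j + 1)) - u N) -
      (u (-(N : ℤ) + j) - u (-(N : ℤ)))) atTop (nhds 0) := by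
    intro j
    have h1 := ((hs (j + 1)).comp hp).sub ((hs j).comp hm)
    rw [sub_zero] at h1
    exact h1
  induction j using Int.induction_on with
  | zero => simp [f3_zero]
  | succ i ih =>
    have h1 := ih.add (hd i)
    rw [add_zero] at h1
    refine h1.congr fun N => ?_
    rw [f3_step]
    push_cast
    ring
  | pred i ih =>
    have h1 := ih.sub (hd (-(i : ℤ) - 1))
    rw [sub_zero] at h1
    refine h1.congr fun N => ?_
    have h2 := f3_step u N (-(i : ℤ) - 1)
    rw [sub_add_cancel] at h2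
    rw [h2, sub_add_cancel]
    push_cast
    ring

end Pool.Agent.H34.DA
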