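import Pool.Agent.H34.DA.F2
import Pool.Agent.H34.DA.F3

/-!
F4: bounded subharmonic functions on `ℤ` are constant for a generating law with finite first moment and mean `0` (`h0` includes the absolute summability of `q j * j`: `Summable.abs`).
`D k = ∑' j, q j * u (k + j) - u k ≥ 0`. For every `N`: `∑_{k ∈ Icc (-N) N} D k = ∑' j, q j * flw u N j` (`Summable.tsum_finsetSum` or `tsum_sum`; `∑' j, q j * u k = u k` since `∑ q = 1`), which is at most
`2 C ∑' q j |j|` by `flw_bound`; so `D` is summable (`summable_of_sum_le`: every finite set of integers lies in some `Icc (-N) N`), `D → 0` along `cofinite` (`Summable.tendsto_cofinite_zero`), `asymp` applies to all `i`, and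
`∑' j, q j * flw u N j = ∑' j, q j * (flw u N j - j * a N)` with `a N = u N - u (-N)` (as `∑ q j * j = 0`) tends to `0` by `flw_tendsto` and dominated convergence (bound `4 C q j |j|`). The sums
`∑_{Icc (-N) N} D` are monotone in `N`, `≥ 0` and tend to `0`, so `D = 0`. Now `cd_int`.
-/

namespace Pool.Agent.H34.DA

open Pool.Agent.H34.LS Pool.Agent.H34.FL Filter

private theorem f4_sum {q : ℤ → ℝ} (hq : IsProb q) {f : ℤ → ℝ} {K : ℝ} (hf : ∀ j, |f j| ≤ K) :
    Summable fun j : ℤ => q j * f j := by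
  refine Summable.of_norm_bounded (g := fun j => q j * K) (hq.2.summable.mul_right K) fun j => ?_
  rw [norm_mul, Real.norm_eq_abs, Real.norm_eq_abs, abs_of_nonneg (hq.1 j)]
  exact mul_le_mul_of_nonneg_left (hf _) (hq.1 j)

private theorem f4_diff {u : ℤ → ℝ} {C : ℝ} (hu : ∀ k, |u k| ≤ C) (k l : ℤ) :
    |u k - u l| ≤ 2 * C := by
  have h1 := abs_le.1 (hu k)
  have h2 := abs_le.1 (hu l)
  rw [abs_le]
  constructor
  · linarith [h1.1, h2.2]
  · linarith [h1.2, h2.1]

/-- the drift as a sum of differences -/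
private theorem f4_D {q : ℤ → ℝ} (hq : IsProb q) {u : ℤ → ℝ} {C : ℝ} (hu : ∀ k, |u k| ≤ C)
    (k : ℤ) : ∑' j, q j * u (k + j) - u k = ∑' j, q j * (u (k + j) - u k) := by
  have h1 : Summable fun j : ℤ => q j * u (k + j) := f4_sum hq fun j => hu (k + j)
  have h2 : HasSum (fun j : ℤ => q j * u k) (1 * u k) := hq.2.mul_right (u k)
  have h3 : HasSum (fun j : ℤ => q j * (u (k + j) - u k)) (∑' j, q j * u (k + j) - 1 * u k) := by
    refine (h1.hasSum.sub h2).congr_fun ?_
    intro j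
    ring
  rw [h3.tsum_eq, one_mul]

/-- the sum of the drift over an interval -/
private theorem f4_S {q : ℤ → ℝ} (hq : IsProb q) {u : ℤ → ℝ} {C : ℝ} (hu : ∀ k, |u k| ≤ C)
    (N : ℕ) : ∑ k ∈ Finset.Icc (-(N : ℤ)) N, (∑' j, q j * u (k + j) - u k) =
      ∑' j, q j * flw u N j := by
  have h1 : ∀ k ∈ Finset.Icc (-(N : ℤ)) N, Summable fun j : ℤ => q j * (u (k + j) - u k) :=
    fun k _ => f4_sum hq fun j => f4_diff hu (k + j) k
  calc ∑ k ∈ Finset.Icc (-(N : ℤ)) N, (∑' j, q j * u (k + j) - u k)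
      = ∑ k ∈ Finset.Icc (-(N : ℤ)) N, ∑' j, q j * (u (k + j) - u k) :=
        Finset.sum_congr rfl fun k _ => f4_D hq hu k
    _ = ∑' j, ∑ k ∈ Finset.Icc (-(N : ℤ)) N, q j * (u (k + j) - u k) :=
        (Summable.tsum_finsetSum h1).symm
    _ = ∑' j, q j * flw u N j := by
        refine tsum_congr fun j => ?_
        rw [flw, Finset.mul_sum]

theorem sub_const1 {q : ℤ → ℝ} (hq : IsProb q)
    (hgen : AddSubmonoid.closure (Function.support q) = ⊤)
    (h0 : HasSum (fun j : ℤ => q j * (j : ℝ)) 0)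
    {u : ℤ → ℝ} {C : ℝ} (hu : ∀ k, |u k| ≤ C) (hs : ∀ k, u k ≤ ∑' j, q j * u (k + j)) (k l : ℤ) :
    u k = u l := by
  have hC : 0 ≤ C := (abs_nonneg _).trans (hu 0)
  set D : ℤ → ℝ := fun k => ∑' j, q j * u (k + j) - u k with hD
  have hD0 : ∀ k, 0 ≤ D k := fun k => sub_nonneg.2 (hs k)
  have habs : Summable fun j : ℤ => q j * |(j : ℝ)| := by
    refine h0.summable.abs.congr fun j => ?_
    rw [abs_mul, abs_of_nonneg (hq.1 j)]
  have hb1 : ∀ (N : ℕ) (j : ℤ), |q j * flw u N j| ≤ 2 * C * (q j * |(j : ℝ)|) := by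
    intro N j
    rw [abs_mul, abs_of_nonneg (hq.1 j)]
    calc q j * |flw u N j| ≤ q j * (2 * C * |(j : ℝ)|) :=
          mul_le_mul_of_nonneg_left (flw_bound hu N j) (hq.1 j)
      _ = 2 * C * (q j * |(j : ℝ)|) := by ring
  have hsf : ∀ N : ℕ, Summable fun j : ℤ => q j * flw u N j := fun N =>
    Summable.of_norm_bounded (habs.mul_left (2 * C)) fun j => by
      rw [Real.norm_eq_abs]
      exact hb1 N j
  have hSle : ∀ N : ℕ, ∑ k ∈ Finset.Icc (-(N : ℤ)) N, D k ≤ ∑' j, 2 * C * (q j * |(j : ℝ)|) := by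
    intro N
    have e : ∑ k ∈ Finset.Icc (-(N : ℤ)) N, D k = ∑' j, q j * flw u N j := f4_S hq hu N
    rw [e]
    exact (hsf N).tsum_le_tsum (fun j => (le_abs_self _).trans (hb1 N j)) (habs.mul_left (2 * C))
  have hfin : ∀ F : Finset ℤ, ∃ N : ℕ, F ⊆ Finset.Icc (-(N : ℤ)) N := by
    intro F
    refine ⟨F.sup Int.natAbs, fun k hk => ?_⟩
    have h1 : k.natAbs ≤ F.sup Int.natAbs := Finset.le_sup (f := Int.natAbs) hk
    rw [Finset.mem_Icc]
    omega
  have hDs : Summable D := by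
    refine summable_of_sum_le hD0 (c := ∑' j, 2 * C * (q j * |(j : ℝ)|)) fun F => ?_
    obtain ⟨N, hN⟩ := hfin F
    exact (Finset.sum_le_sum_of_subset_of_nonneg hN fun k _ _ => hD0 k).trans (hSle N)
  have hasy : ∀ i : ℤ, Tendsto (fun k => u (k + i) - u k) cofinite (nhds 0) := fun i =>
    asymp hq hgen hu hDs.tendsto_cofinite_zero i
  -- the sums over the intervals tend to zero
  have hS0 : Tendsto (fun N : ℕ => ∑ k ∈ Finset.Icc (-(N : ℤ)) N, D k) atTop (nhds 0) := by
    have e : ∀ N : ℕ, ∑ k ∈ Finset.Icc (-(N : ℤ)) N, D k =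
        ∑' j : ℤ, q j * (flw u N j - j * (u N - u (-(N : ℤ)))) := by
      intro N
      have h1 : HasSum (fun j : ℤ => q j * flw u N j) (∑ k ∈ Finset.Icc (-(N : ℤ)) N, D k) := by
        have h2 : ∑ k ∈ Finset.Icc (-(N : ℤ)) N, D k = ∑' j, q j * flw u N j := f4_S hq hu N
        rw [h2]
        exact (hsf N).hasSum
      have h3 := h1.sub (h0.mul_right (u N - u (-(N : ℤ))))
      rw [zero_mul, sub_zero] at h3
      rw [← h3.tsum_eq]
      refine tsum_congr fun j => ?_
      ring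
    have h := tendsto_tsum_of_dominated_convergence (𝓕 := (atTop : Filter ℕ))
      (f := fun (N : ℕ) (j : ℤ) => q j * (flw u N j - j * (u N - u (-(N : ℤ)))))
      (g := fun _ : ℤ => (0 : ℝ)) (bound := fun j : ℤ => 4 * C * (q j * |(j : ℝ)|))
      (habs.mul_left (4 * C)) (fun j => ?_) (Eventually.of_forall fun N j => ?_)
    · rw [tsum_zero] at h
      exact h.congr fun N => (e N).symm
    · have h1 := (flw_tendsto hasy j).const_mul (q j)
      rw [mul_zero] at h1
      exact h1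
    · rw [Real.norm_eq_abs, abs_mul, abs_of_nonneg (hq.1 j)]
      have h1 := flw_bound hu N j
      have h2 : |(j : ℝ) * (u N - u (-(N : ℤ)))| ≤ 2 * C * |(j : ℝ)| := by
        rw [abs_mul, mul_comm]
        exact mul_le_mul_of_nonneg_right (f4_diff hu _ _) (abs_nonneg _)
      have h3 : |flw u N j - j * (u N - u (-(N : ℤ)))| ≤ 4 * C * |(j : ℝ)| := by
        refine (abs_sub _ _).trans ?_
        linarith
      calc q j * |flw u N j - j * (u N - u (-(N : ℤ)))| ≤ q j * (4 * C * |(j : ℝ)|) :=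
            mul_le_mul_of_nonneg_left h3 (hq.1 j)
        _ = 4 * C * (q j * |(j : ℝ)|) := by ring
  have hDz : ∀ k, D k = 0 := by
    intro k
    refine le_antisymm (ge_of_tendsto hS0 ?_) (hD0 k)
    filter_upwards [eventually_ge_atTop k.natAbs] with N hN
    refine Finset.single_le_sum (f := D) (fun k _ => hD0 k) ?_
    rw [Finset.mem_Icc]
    omega
  exact cd_int hq hgen hu (fun k => (sub_eq_zero.1 (hDz k)).symm) k l

end Pool.Agent.H34.DA
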