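import Pool.Agent.H34.DA.Defs

/-!
G1: a potential for a law `q` on `ℤ` of positive mean `m` and finite second moment `s2`. For `K ≥ 1` real (large) let
`g k = 1 / sqrt (K + max k 0)`. For `k ≥ 0`, `u = K + k`, and an integer `x`:
if `x ≥ -u/2`: `g (k + x) ≤ 1/sqrt u - x / (2 u sqrt u) + 2 x^2 / (u^2 sqrt u)` (with `t = x / u ≥ -1/2`: `1/sqrt (1+t) ≤ 1 - t/2 + 2 t^2`; when `k + x < 0` then
`g (k + x) = 1/sqrt K ≤ 1 / sqrt (u + x)` as `u + x = K + k + x < K`, `u + x > 0`); if `x < -u/2`: `g (k + x) ≤ 1 / sqrt K ≤ 4 x^2 / (u^2 sqrt K)` and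
`- x / (2 u sqrt u) ≥ 0`. So in all cases `g (k + x) ≤ g k - x / (2 u sqrt u) + 2 x^2 / (u^2 sqrt u) + 4 x^2 / (u^2 sqrt K)`, and the sum is
`≤ g k - m / (2 u sqrt u) + s2 (2 / (u^2 sqrt u) + 4 / (u^2 sqrt K)) ≤ g k` as soon as `m / 2 ≥ s2 (2 / u + 4 / sqrt (u K))`, e.g. for `K ≥ 12 s2 / m + 1`.
For `k < 0`: `g k = 1 / sqrt K` is the maximum of `g`. `∑' q j g (0 + j) < g 0`: some `j > 0` has `q j > 0` (as `m > 0`) and `g j < g 0`, all `g ≤ g 0`. Put
`G0 = g / (g 0 - ∑' q j g (0 + j))`.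
-/

namespace Pool.Agent.H34.DA

open Pool.Agent.H34.LS Pool.Agent.H34.FL Filter

private theorem g1_t {t : ℝ} (ht : -(1 / 2) ≤ t) :
    (Real.sqrt (1 + t))⁻¹ ≤ 1 - t / 2 + 2 * t ^ 2 := by
  have hP : 0 < 1 - t / 2 + 2 * t ^ 2 := by nlinarith [sq_nonneg (t - 1 / 8)]
  have h1 : 0 < 1 + t := by linarith
  have hs : 0 < Real.sqrt (1 + t) := Real.sqrt_pos.2 h1
  have h2 : 1 ≤ ((1 - t / 2 + 2 * t ^ 2) * Real.sqrt (1 + t)) ^ 2 := by
    rw [mul_pow, Real.sq_sqrt h1.le]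
    have e : (1 - t / 2 + 2 * t ^ 2) ^ 2 * (1 + t) - 1 =
        t ^ 2 * (4 * (t ^ 2 * (t + 1 / 2)) + (9 / 4 * t + 13 / 4)) := by ring
    have h3 : 0 ≤ t ^ 2 * (t + 1 / 2) := mul_nonneg (sq_nonneg t) (by linarith)
    have h4 : 0 ≤ t ^ 2 * (4 * (t ^ 2 * (t + 1 / 2)) + (9 / 4 * t + 13 / 4)) :=
      mul_nonneg (sq_nonneg t) (by linarith)
    linarith
  have h5 : 0 < (1 - t / 2 + 2 * t ^ 2) * Real.sqrt (1 + t) := mul_pos hP hs
  have h6 : 1 ≤ (1 - t / 2 + 2 * t ^ 2) * Real.sqrt (1 + t) := by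
    by_contra hc
    push Not at hc
    nlinarith
  rw [← one_div, div_le_iff₀ hs]
  exact h6

/-- the elementary inequality for `1 / sqrt`. -/
private theorem g1_elem {u x : ℝ} (hu : 0 < u) (hx : -(u / 2) ≤ x) :
    (Real.sqrt (u + x))⁻¹ ≤ (Real.sqrt u)⁻¹ * (1 - x / u / 2 + 2 * (x / u) ^ 2) := by
  have e1 : u + x = u * (1 + x / u) := by field_simp
  have ht : -(1 / 2) ≤ x / u := by
    rw [le_div_iff₀ hu]
    linarith
  rw [e1, Real.sqrt_mul hu.le, mul_inv]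
  exact mul_le_mul_of_nonneg_left (g1_t ht) (inv_nonneg.2 (Real.sqrt_nonneg u))

/-- the potential. -/
private noncomputable def g1_g (K : ℝ) (k : ℤ) : ℝ := (Real.sqrt (K + max (k : ℝ) 0))⁻¹

private theorem g1_pos {K : ℝ} (hK : 1 ≤ K) (k : ℤ) : 0 < g1_g K k := by
  have : 0 < K + max (k : ℝ) 0 := by
    have := le_max_right (k : ℝ) 0
    linarith
  exact inv_pos.2 (Real.sqrt_pos.2 this)

private theorem g1_le {K : ℝ} (hK : 1 ≤ K) (k : ℤ) : g1_g K k ≤ (Real.sqrt K)⁻¹ := by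
  have h0 : 0 < Real.sqrt K := Real.sqrt_pos.2 (by linarith)
  exact inv_anti₀ h0 (Real.sqrt_le_sqrt (by
    have := le_max_right (k : ℝ) 0
    linarith))

private theorem g1_nonpos {K : ℝ} {k : ℤ} (hk : k ≤ 0) : g1_g K k = (Real.sqrt K)⁻¹ := by
  unfold g1_g
  have : (k : ℝ) ≤ 0 := by exact_mod_cast hk
  rw [max_eq_right this, add_zero]

private theorem g1_nonneg {K : ℝ} {k : ℤ} (hk : 0 ≤ k) :
    g1_g K k = (Real.sqrt (K + k))⁻¹ := by
  unfold g1_g
  have : (0 : ℝ) ≤ (k : ℝ) := by exact_mod_cast hk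
  rw [max_eq_left this]

/-- the pointwise inequality. -/
private theorem g1_step {K : ℝ} (hK : 1 ≤ K) {k : ℤ} (hk : 0 ≤ k) (j : ℤ) :
    g1_g K (k + j) ≤ g1_g K k - (j : ℝ) * (g1_g K k / (2 * (K + k))) +
      (j : ℝ) ^ 2 * ((2 * g1_g K k + 4 * (Real.sqrt K)⁻¹) / (K + k) ^ 2) := by
  have hk' : (0 : ℝ) ≤ (k : ℝ) := by exact_mod_cast hk
  obtain ⟨u, hu⟩ : ∃ u : ℝ, u = K + k := ⟨_, rfl⟩
  have hu1 : 0 < u := by linarith
  have hg : g1_g K k = (Real.sqrt u)⁻¹ := by rw [g1_nonneg hk, hu]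
  have hgp := g1_pos hK k
  have hκ : 0 < (Real.sqrt K)⁻¹ := inv_pos.2 (Real.sqrt_pos.2 (by linarith))
  rw [← hu]
  by_cases hj : -(u / 2) ≤ (j : ℝ)
  · have h1 := g1_elem hu1 hj
    rw [← hg] at h1
    have h2 : g1_g K (k + j) ≤ (Real.sqrt (u + j))⁻¹ := by
      unfold g1_g
      refine inv_anti₀ (Real.sqrt_pos.2 (by linarith)) (Real.sqrt_le_sqrt ?_)
      push_cast
      have := le_max_left ((k : ℝ) + j) 0
      linarith
    have e : g1_g K k * (1 - (j : ℝ) / u / 2 + 2 * ((j : ℝ) / u) ^ 2) =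
        g1_g K k - (j : ℝ) * (g1_g K k / (2 * u)) + (j : ℝ) ^ 2 * (2 * g1_g K k / u ^ 2) := by
      field_simp
    have h3 : (j : ℝ) ^ 2 * (2 * g1_g K k / u ^ 2) ≤
        (j : ℝ) ^ 2 * ((2 * g1_g K k + 4 * (Real.sqrt K)⁻¹) / u ^ 2) := by
      refine mul_le_mul_of_nonneg_left ?_ (sq_nonneg _)
      exact div_le_div_of_nonneg_right (by linarith) (sq_nonneg u)
    linarith
  · push Not at hj
    have h1 := g1_le hK (k + j)
    have h2 : (j : ℝ) * (g1_g K k / (2 * u)) ≤ 0 :=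
      mul_nonpos_of_nonpos_of_nonneg (by linarith) (by positivity)
    have h3 : (Real.sqrt K)⁻¹ ≤
        (j : ℝ) ^ 2 * ((2 * g1_g K k + 4 * (Real.sqrt K)⁻¹) / u ^ 2) := by
      rw [← mul_div_assoc, le_div_iff₀ (by positivity)]
      have h4 : u ^ 2 ≤ 4 * (j : ℝ) ^ 2 := by nlinarith
      have h5 : 0 ≤ (j : ℝ) ^ 2 * (2 * g1_g K k) := by positivity
      nlinarith [mul_le_mul_of_nonneg_left h4 hκ.le]
    linarith

theorem pot {q : ℤ → ℝ} (hq : IsProb q) (h2 : Summable fun j : ℤ => q j * (j : ℝ) ^ 2) {m : ℝ}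
    (hm : 0 < m) (h1 : HasSum (fun j : ℤ => q j * (j : ℝ)) m) :
    ∃ (G0 : ℤ → ℝ) (B : ℝ), (∀ k, 0 ≤ G0 k ∧ G0 k ≤ B) ∧ Tendsto G0 atTop (nhds 0) ∧
      (∀ k, ∑' j, q j * G0 (k + j) ≤ G0 k) ∧ ∑' j, q j * G0 (0 + j) + 1 ≤ G0 0 := by
  obtain ⟨s, hs⟩ : ∃ s, s = ∑' j : ℤ, q j * (j : ℝ) ^ 2 := ⟨_, rfl⟩
  have hs2 : HasSum (fun j : ℤ => q j * (j : ℝ) ^ 2) s := hs ▸ h2.hasSum
  have hs0 : 0 ≤ s := by
    rw [hs]
    exact tsum_nonneg fun j => mul_nonneg (hq.1 j) (sq_nonneg _)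
  obtain ⟨K, hKd⟩ : ∃ K, K = 12 * s / m + 1 := ⟨_, rfl⟩
  have hK : 1 ≤ K := by
    have : 0 ≤ 12 * s / m := by positivity
    linarith
  have hKs : 12 * s ≤ m * K := by
    rw [hKd, mul_add, mul_one, mul_div_cancel₀ _ hm.ne']
    linarith
  have hK0 : 0 < K := by linarith
  have hsK : 0 < Real.sqrt K := Real.sqrt_pos.2 hK0
  have hκ : 0 < (Real.sqrt K)⁻¹ := inv_pos.2 hsK
  have hsum : ∀ k, Summable fun j => q j * g1_g K (k + j) := fun k =>
    Summable.of_nonneg_of_le (fun j => mul_nonneg (hq.1 j) (g1_pos hK _).le)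
      (fun j => mul_le_mul_of_nonneg_left (g1_le hK _) (hq.1 j))
      (hq.2.summable.mul_right (Real.sqrt K)⁻¹)
  have hle : ∀ k, ∑' j, q j * g1_g K (k + j) ≤ (Real.sqrt K)⁻¹ := by
    intro k
    have h3 := hasSum_le (fun j => mul_le_mul_of_nonneg_left (g1_le hK (k + j)) (hq.1 j))
      (hsum k).hasSum (hq.2.mul_right (Real.sqrt K)⁻¹)
    rwa [one_mul] at h3
  have hsup : ∀ k, ∑' j, q j * g1_g K (k + j) ≤ g1_g K k := by
    intro k
    rcases le_total k 0 with hk | hk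
    · rw [g1_nonpos hk]
      exact hle k
    · have hk' : (0 : ℝ) ≤ (k : ℝ) := by exact_mod_cast hk
      obtain ⟨u, hu⟩ : ∃ u : ℝ, u = K + k := ⟨_, rfl⟩
      have hu1 : 0 < u := by linarith
      have hKu : K ≤ u := by linarith
      have hg : g1_g K k = (Real.sqrt u)⁻¹ := by rw [g1_nonneg hk, hu]
      have hgp := g1_pos hK k
      have t1 := ((hq.2.mul_right (g1_g K k)).sub (h1.mul_right (g1_g K k / (2 * u)))).add
        (hs2.mul_right ((2 * g1_g K k + 4 * (Real.sqrt K)⁻¹) / u ^ 2))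
      have t2 := hasSum_le (fun j => ?_) (hsum k).hasSum t1
      · refine t2.trans ?_
        have k1 : (Real.sqrt K)⁻¹ * K ≤ g1_g K k * u := by
          rw [hg]
          have e1 : (Real.sqrt K)⁻¹ * K = Real.sqrt K := by
            nth_rewrite 2 [← Real.mul_self_sqrt hK0.le]
            field_simp
          have e2 : (Real.sqrt u)⁻¹ * u = Real.sqrt u := by
            have := Real.sqrt_pos.2 hu1
            nth_rewrite 2 [← Real.mul_self_sqrt hu1.le]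
            field_simp
          rw [e1, e2]
          exact Real.sqrt_le_sqrt hKu
        have k2 : s * (2 * g1_g K k + 4 * (Real.sqrt K)⁻¹) * 2 ≤ m * g1_g K k * u := by
          have k3 : (2 * g1_g K k + 4 * (Real.sqrt K)⁻¹) * K ≤ 6 * (g1_g K k * u) := by
            nlinarith [mul_le_mul_of_nonneg_left hKu hgp.le]
          have k4 : s * (2 * g1_g K k + 4 * (Real.sqrt K)⁻¹) * 2 * K ≤
              m * g1_g K k * u * K := by
            calc s * (2 * g1_g K k + 4 * (Real.sqrt K)⁻¹) * 2 * K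
                = (2 * s) * ((2 * g1_g K k + 4 * (Real.sqrt K)⁻¹) * K) := by ring
              _ ≤ (2 * s) * (6 * (g1_g K k * u)) :=
                  mul_le_mul_of_nonneg_left k3 (by linarith)
              _ = (12 * s) * (g1_g K k * u) := by ring
              _ ≤ (m * K) * (g1_g K k * u) :=
                  mul_le_mul_of_nonneg_right hKs (by positivity)
              _ = m * g1_g K k * u * K := by ring
          exact le_of_mul_le_mul_right k4 hK0
        have k5 : s * ((2 * g1_g K k + 4 * (Real.sqrt K)⁻¹) / u ^ 2) ≤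
            m * (g1_g K k / (2 * u)) := by
          rw [← mul_div_assoc, ← mul_div_assoc, div_le_div_iff₀ (by positivity) (by positivity)]
          nlinarith [mul_le_mul_of_nonneg_right k2 hu1.le]
        linarith
      · have h4 := mul_le_mul_of_nonneg_left (g1_step hK hk j) (hq.1 j)
        rw [← hu] at h4
        refine h4.trans (le_of_eq ?_)
        ring
  obtain ⟨j0, hj0, hqj⟩ : ∃ j0 : ℤ, 0 < j0 ∧ 0 < q j0 := by
    by_contra hc
    push Not at hc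
    have h3 : m ≤ 0 := by
      have h4 := hasSum_le (fun j => ?_) h1 (hasSum_zero (α := ℝ) (β := ℤ))
      · exact h4
      · rcases le_or_gt j 0 with hj | hj
        · exact mul_nonpos_of_nonneg_of_nonpos (hq.1 j) (by exact_mod_cast hj)
        · have : q j = 0 := le_antisymm (hc j hj) (hq.1 j)
          rw [this, zero_mul]
    linarith
  have hg0 : g1_g K 0 = (Real.sqrt K)⁻¹ := g1_nonpos le_rfl
  have hlt : ∑' j, q j * g1_g K (0 + j) < g1_g K 0 := by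
    have h3 := hasSum_lt (i := j0)
      (fun j => mul_le_mul_of_nonneg_left (g1_le hK (0 + j)) (hq.1 j)) ?_
      (hsum 0).hasSum (hq.2.mul_right (Real.sqrt K)⁻¹)
    · rw [one_mul] at h3
      rw [hg0]
      exact h3
    · refine mul_lt_mul_of_pos_left ?_ hqj
      have hj0' : (0 : ℝ) < (j0 : ℝ) := by exact_mod_cast hj0
      rw [zero_add, g1_nonneg hj0.le]
      exact inv_strictAnti₀ hsK (Real.sqrt_lt_sqrt hK0.le (by linarith))
  obtain ⟨δ, hδ⟩ : ∃ δ, δ = g1_g K 0 - ∑' j, q j * g1_g K (0 + j) := ⟨_, rfl⟩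
  have hδ0 : 0 < δ := by linarith
  have hdiv : ∀ k, ∑' j, q j * (g1_g K (k + j) / δ) = (∑' j, q j * g1_g K (k + j)) / δ := by
    intro k
    rw [← tsum_div_const]
    exact tsum_congr fun j => by rw [mul_div_assoc]
  refine ⟨fun k => g1_g K k / δ, (Real.sqrt K)⁻¹ / δ, fun k => ⟨?_, ?_⟩, ?_, fun k => ?_, ?_⟩
  · exact div_nonneg (g1_pos hK k).le hδ0.le
  · exact div_le_div_of_nonneg_right (g1_le hK k) hδ0.le
  · have h3 : Tendsto (fun k : ℤ => K + max (k : ℝ) 0) atTop atTop := by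
      refine tendsto_atTop_mono (fun k => ?_) tendsto_intCast_atTop_atTop
      have := le_max_left (k : ℝ) 0
      linarith
    have h4 : Tendsto (g1_g K) atTop (nhds 0) :=
      tendsto_inv_atTop_zero.comp (Real.tendsto_sqrt_atTop.comp h3)
    simpa using h4.div_const δ
  · change ∑' j, q j * (g1_g K (k + j) / δ) ≤ g1_g K k / δ
    rw [hdiv]
    exact div_le_div_of_nonneg_right (hsup k) hδ0.le
  · change ∑' j, q j * (g1_g K (0 + j) / δ) + 1 ≤ g1_g K 0 / δ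
    rw [hdiv, ← sub_nonneg]
    have h3 : g1_g K 0 / δ - ((∑' j, q j * g1_g K (0 + j)) / δ + 1) = 0 := by
      rw [← sub_sub, ← sub_div, ← hδ, div_self hδ0.ne', sub_self]
    rw [h3]

end Pool.Agent.H34.DA
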