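import Pool.Agent.H34.DA.P7

/-!
G2: `A k = ∑' j, t j * G0 (k - j)`, `G0` from `pot1`. Bounded by `B * ∑' t`; tends to `0` at `+∞` by
`tendsto_tsum_of_dominated_convergence` (bound `B * t j`; `G0 (k - j) → 0` for fixed `j`). `∑' i, q i * A (k + i) = ∑' j, t j * ∑' i, q i * G0 (k - j + i)` (Fubini:
`Summable.tsum_comm` for a summable double family bounded by `q i * t j * B`), which is
`≤ ∑' j, t j * (G0 (k - j) - if j = k then 1 else 0) = A k - t k`.
-/

namespace Pool.Agent.H34.DA

open Pool.Agent.H34.LS Pool.Agent.H34.FL Filter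

theorem pot_sum {q : ℤ → ℝ} (hq : IsProb q) {m : ℝ} (hm : 0 < m)
    (h1 : HasSum (fun j : ℤ => q j * (j : ℝ)) m) {t : ℤ → ℝ} (ht : ∀ k, 0 ≤ t k)
    (hts : Summable t) :
    ∃ (A : ℤ → ℝ) (B : ℝ), (∀ k, 0 ≤ A k ∧ A k ≤ B) ∧ Tendsto A atTop (nhds 0) ∧
      ∀ k, ∑' j, q j * A (k + j) + t k ≤ A k := by
  classical
  obtain ⟨G0, B, hB, hG, hs, hs0⟩ := pot1 hq hm h1
  have hqn : ∀ j, 0 ≤ q j := hq.1
  have hqs : Summable q := hq.2.summable
  have hsum : ∀ k : ℤ, Summable fun j => t j * G0 (k - j) := fun k =>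
    Summable.of_nonneg_of_le (fun j => mul_nonneg (ht j) (hB _).1)
      (fun j => mul_le_mul_of_nonneg_left (hB _).2 (ht j)) (hts.mul_right B)
  have hqG : ∀ a : ℤ, Summable fun i => q i * G0 (a + i) := fun a =>
    Summable.of_nonneg_of_le (fun j => mul_nonneg (hqn j) (hB _).1)
      (fun j => mul_le_mul_of_nonneg_left (hB _).2 (hqn j)) (hqs.mul_right B)
  refine ⟨fun k => ∑' j, t j * G0 (k - j), (∑' j, t j) * B, fun k => ⟨?_, ?_⟩, ?_, fun k => ?_⟩
  · exact tsum_nonneg fun j => mul_nonneg (ht j) (hB _).1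
  · rw [← tsum_mul_right]
    exact (hsum k).tsum_le_tsum (fun j => mul_le_mul_of_nonneg_left (hB _).2 (ht j))
      (hts.mul_right B)
  · have h3 : Tendsto (fun k : ℤ => ∑' j, t j * G0 (k - j)) atTop
        (nhds (∑' _ : ℤ, (0 : ℝ))) := by
      refine tendsto_tsum_of_dominated_convergence (bound := fun j => t j * B) (hts.mul_right B)
        (fun j => ?_) (Eventually.of_forall fun k j => ?_)
      · have h4 : Tendsto (fun k : ℤ => k - j) atTop atTop :=
          tendsto_atTop_add_const_right _ (-j) tendsto_id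
        have h5 := (hG.comp h4).const_mul (t j)
        rw [mul_zero] at h5
        exact h5
      · rw [Real.norm_of_nonneg (mul_nonneg (ht j) (hB _).1)]
        exact mul_le_mul_of_nonneg_left (hB _).2 (ht j)
    rwa [tsum_zero] at h3
  · have hF : Summable (Function.uncurry fun i j : ℤ => q i * (t j * G0 (k + i - j))) := by
      refine Summable.of_nonneg_of_le (fun x => ?_) (fun x => ?_)
        ((hqs.mul_of_nonneg hts hqn ht).mul_right B)
      · exact mul_nonneg (hqn _) (mul_nonneg (ht _) (hB _).1)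
      · show q x.1 * (t x.2 * G0 (k + x.1 - x.2)) ≤ q x.1 * t x.2 * B
        rw [← mul_assoc]
        exact mul_le_mul_of_nonneg_left (hB _).2 (mul_nonneg (hqn _) (ht _))
    have e1 : ∑' i, q i * (∑' j, t j * G0 (k + i - j)) =
        ∑' j, t j * ∑' i, q i * G0 (k - j + i) := by
      calc ∑' i, q i * (∑' j, t j * G0 (k + i - j))
          = ∑' i, ∑' j, q i * (t j * G0 (k + i - j)) := by
            refine tsum_congr fun i => ?_
            rw [tsum_mul_left]
        _ = ∑' j, ∑' i, q i * (t j * G0 (k + i - j)) := hF.tsum_comm.symm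
        _ = _ := by
            refine tsum_congr fun j => ?_
            rw [← tsum_mul_left]
            refine tsum_congr fun i => ?_
            rw [show k - j + i = k + i - j by ring]
            ring
    have hS : ∀ j, ∑' i, q i * G0 (k - j + i) ≤ G0 (k - j) := fun j => hs (k - j)
    have hS0 : ∀ j, 0 ≤ ∑' i, q i * G0 (k - j + i) := fun j =>
      tsum_nonneg fun i => mul_nonneg (hqn i) (hB _).1
    have hsS : Summable fun j => t j * ∑' i, q i * G0 (k - j + i) :=
      Summable.of_nonneg_of_le (fun j => mul_nonneg (ht j) (hS0 j))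
        (fun j => mul_le_mul_of_nonneg_left (hS j) (ht j)) (hsum k)
    have hite : Summable fun j : ℤ => if j = k then t k else 0 :=
      (hasSum_ite_eq k (t k)).summable
    have e2 : ∑' j : ℤ, (if j = k then t k else 0) = t k := tsum_ite_eq k _
    show ∑' i, q i * (∑' j, t j * G0 (k + i - j)) + t k ≤ ∑' j, t j * G0 (k - j)
    rw [e1]
    conv_lhs => rw [← e2]
    rw [← hsS.tsum_add hite]
    refine (hsS.add hite).tsum_le_tsum (fun j => ?_) (hsum k)
    show t j * ∑' i, q i * G0 (k - j + i) + (if j = k then t k else 0) ≤ t j * G0 (k - j)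
    by_cases hj : j = k
    · subst hj
      rw [if_pos rfl, sub_self]
      have h6 := mul_le_mul_of_nonneg_left hs0 (ht j)
      rw [mul_add, mul_one] at h6
      exact h6
    · rw [if_neg hj, add_zero]
      exact mul_le_mul_of_nonneg_left (hS j) (ht j)

end Pool.Agent.H34.DA
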