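import Pool.Agent.H34.FL.Defs

/-!
I1: image measures, unbounded functions. `image_sum`: for a function whose composition with `theta`
is summable against `mu`, the sum over `G` is the sum of the fibre sums (`Equiv.sigmaFiberEquiv`,
`HasSum.sigma`).
-/

namespace Pool.Agent.H34.DA

open Pool.Agent.H34.LS Pool.Agent.H34.FL

universe u v

theorem image_sum {G : Type u} {H : Type v} (theta : G → H) {mu : G → ℝ} (h : IsProb mu)
    {φ : H → ℝ} (hφ : Summable fun g => mu g * φ (theta g)) :
    HasSum (fun y => image theta mu y * φ y) (∑' g, mu g * φ (theta g)) := by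
  have h1 : HasSum ((fun g => mu g * φ (theta g)) ∘ (Equiv.sigmaFiberEquiv theta))
      (∑' g, mu g * φ (theta g)) :=
    (Equiv.sigmaFiberEquiv theta).hasSum_iff.2 hφ.hasSum
  refine HasSum.sigma h1 fun y => ?_
  have h2 : Summable fun c : {g : G // theta g = y} => mu c :=
    h.2.summable.comp_injective Subtype.val_injective
  have h3 : HasSum (fun c : {g : G // theta g = y} => mu c * φ y) (image theta mu y * φ y) :=
    h2.hasSum.mul_right (φ y)
  have h4 : (fun c : {g : G // theta g = y} =>
      ((fun g => mu g * φ (theta g)) ∘ (Equiv.sigmaFiberEquiv theta)) ⟨y, c⟩) =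
      fun c : {g : G // theta g = y} => mu c * φ y := by
    funext c
    change mu c.1 * φ (theta c.1) = mu c.1 * φ y
    rw [c.2]
  rw [h4]
  exact h3

end Pool.Agent.H34.DA
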