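import Pool.Agent.H34.DA.Defs
import Pool.Agent.H34.LS.LL1

/-!
K1a: the probabilities that the lamps are switched are summable (the sum is the mean number of lamps).
-/

namespace Pool.Agent.H34.DA

open Pool.Agent.H34.LS Pool.Agent.H34.FL

/-- probability that a given lamp is switched. -/
noncomputable def lampRate (nu : LL → ℝ) (k : ℤ) : ℝ :=
  ∑' x : LL, nu x * (if x.lamp (-k) = 0 then 0 else 1)

private theorem k1a_hasSum (l : ℤ →₀ ZMod 2) :
    HasSum (fun k : ℤ => if l (-k) = 0 then (0 : ℝ) else 1) (l.support.card : ℝ) := by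
  have h1 : HasSum (fun k : ℤ => if l k = 0 then (0 : ℝ) else 1) (l.support.card : ℝ) := by
    have h2 : HasSum (fun k : ℤ => if l k = 0 then (0 : ℝ) else 1)
        (∑ b ∈ l.support, (if l b = 0 then (0 : ℝ) else 1)) :=
      hasSum_sum_of_ne_finset_zero (by
        intro b hb
        rw [Finsupp.notMem_support_iff] at hb
        simp [hb])
    have h3 : ∑ b ∈ l.support, (if l b = 0 then (0 : ℝ) else 1) = (l.support.card : ℝ) := by
      rw [Finset.card_eq_sum_ones, Nat.cast_sum]
      apply Finset.sum_congr rfl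
      intro b hb
      rw [Finsupp.mem_support_iff] at hb
      simp [hb]
    rwa [h3] at h2
  exact (Equiv.neg ℤ).hasSum_iff.mpr h1

theorem lampRate_summable {nu : LL → ℝ} (h : IsProb nu)
    (hl : Summable fun x : LL => nu x * (x.lamp.support.card : ℝ)) :
    (∀ k, 0 ≤ lampRate nu k) ∧ Summable (lampRate nu) := by
  constructor
  · intro k
    exact tsum_nonneg fun x => mul_nonneg (h.1 x) (by split_ifs <;> norm_num)
  · have hF0 : ∀ p : LL × ℤ, 0 ≤ nu p.1 * (if p.1.lamp (-p.2) = 0 then (0 : ℝ) else 1) :=
      fun p => mul_nonneg (h.1 p.1) (by split_ifs <;> norm_num)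
    have hF : Summable fun p : LL × ℤ =>
        nu p.1 * (if p.1.lamp (-p.2) = 0 then (0 : ℝ) else 1) := by
      rw [summable_prod_of_nonneg hF0]
      constructor
      · intro x
        exact ((k1a_hasSum x.lamp).mul_left (nu x)).summable
      · refine hl.congr fun x => ?_
        exact ((k1a_hasSum x.lamp).mul_left (nu x)).tsum_eq.symm
    have h2 : Summable fun p : ℤ × LL =>
        nu p.2 * (if p.2.lamp (-p.1) = 0 then (0 : ℝ) else 1) :=
      (Equiv.prodComm ℤ LL).summable_iff.mpr hF
    exact h2.prod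

end Pool.Agent.H34.DA
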