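import Pool.Agent.H34.DA.G2
import Pool.Agent.H34.DA.S
import Pool.Agent.H34.DA.I
import Pool.Agent.H34.DA.K1a

/-!
K1: positive mean. `q = image pos nu`; `t k = 2 * ∑' x, nu x * (if x.lamp (-k) = 0 then 0 else 1)`, summable over `k` (double sum:
`∑_k (if x.lamp (-k) = 0 then 0 else 1) = card of the support of x.lamp`; `summable_prod_of_nonneg` or `Summable.prod_symm`, `hl`). `φ g = if g.lamp 0 = 0 then 1 else -1`.
`(g * x).lamp 0 = g.lamp 0 + x.lamp (- g.pos)` (`LL.mul_lamp`, `LL.sh_apply`), so `|φ (g x) - φ g| ≤ 2 * (if x.lamp (-g.pos) = 0 then 0 else 1)` and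
`|∑' nu x φ (g x) - φ g| ≤ t g.pos`. With `A` from `pot_sum`: `a g = φ g - A g.pos`, `b g = φ g + A g.pos` satisfy the hypotheses of `sandwich` (`∑' nu x A (g.pos + x.pos) = ∑' q j A (g.pos + j)`,
`image_hasSum`). The harmonic `f` has `|f g - φ g| ≤ A g.pos`; take `k` with `A k < 1 / 2`: `f ⟨0, k⟩ ≥ 1/2`, `f ⟨single 0 1, k⟩ ≤ -1/2`.
-/

namespace Pool.Agent.H34.DA

open Pool.Agent.H34.LS Pool.Agent.H34.FL Filter

private theorem k1_sum {nu : LL → ℝ} (h : IsProb nu) {ψ : LL → ℝ} {C : ℝ} (hψ : ∀ x, |ψ x| ≤ C) :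
    Summable fun x : LL => nu x * ψ x := by
  refine Summable.of_norm_bounded (g := fun x => nu x * C) (h.2.summable.mul_right C) fun x => ?_
  rw [norm_mul, Real.norm_eq_abs, Real.norm_eq_abs, abs_of_nonneg (h.1 x)]
  exact mul_le_mul_of_nonneg_left (hψ _) (h.1 x)

/-- the state of the lamp at `0` as a sign. -/
private noncomputable def k1_phi (g : LL) : ℝ := if g.lamp 0 = 0 then 1 else -1

private theorem k1_phi_abs (g : LL) : |k1_phi g| ≤ 1 := by
  unfold k1_phi
  split_ifs <;> simp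

private noncomputable def k1_ind (k : ℤ) (x : LL) : ℝ := if x.lamp (-k) = 0 then 0 else 1

private theorem k1_ind_abs (k : ℤ) (x : LL) : |k1_ind k x| ≤ 1 := by
  unfold k1_ind
  split_ifs <;> simp

private theorem k1_diff (g x : LL) : |k1_phi (g * x) - k1_phi g| ≤ 2 * k1_ind g.pos x := by
  have h1 : (g * x).lamp 0 = g.lamp 0 + x.lamp (-g.pos) := by
    rw [LL.mul_lamp, Finsupp.add_apply, LL.sh_apply, zero_sub]
  by_cases h2 : x.lamp (-g.pos) = 0
  · unfold k1_phi k1_ind
    rw [h1, h2, add_zero, sub_self, abs_zero, if_pos rfl, mul_zero]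
  · have h3 : k1_ind g.pos x = 1 := by
      unfold k1_ind
      rw [if_neg h2]
    rw [h3]
    have h4 := abs_le.1 (k1_phi_abs (g * x))
    have h5 := abs_le.1 (k1_phi_abs g)
    rw [abs_le]
    constructor <;> linarith [h4.1, h4.2, h5.1, h5.2]

private theorem k1_phi_mean {nu : LL → ℝ} (h : IsProb nu) (g : LL) :
    |∑' x, nu x * k1_phi (g * x) - k1_phi g| ≤ 2 * lampRate nu g.pos := by
  have s1 : Summable fun x : LL => nu x * k1_phi (g * x) :=
    k1_sum h (C := 1) fun x => k1_phi_abs _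
  have s2 : Summable fun x : LL => nu x * k1_phi g := h.2.summable.mul_right _
  have s3 : Summable fun x : LL => nu x * k1_ind g.pos x :=
    k1_sum h (C := 1) fun x => k1_ind_abs _ _
  have e1 : ∑' x, nu x * k1_phi g = k1_phi g := by
    rw [tsum_mul_right, h.2.tsum_eq, one_mul]
  have e2 : 2 * lampRate nu g.pos = ∑' x, 2 * (nu x * k1_ind g.pos x) := by
    rw [tsum_mul_left]
    rfl
  have e3 : ∑' x, nu x * k1_phi (g * x) - k1_phi g =
      ∑' x, (nu x * k1_phi (g * x) - nu x * k1_phi g) := by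
    rw [s1.tsum_sub s2, e1]
  have hle : ∀ x, |nu x * k1_phi (g * x) - nu x * k1_phi g| ≤ 2 * (nu x * k1_ind g.pos x) := by
    intro x
    rw [← mul_sub, abs_mul, abs_of_nonneg (h.1 x)]
    have := mul_le_mul_of_nonneg_left (k1_diff g x) (h.1 x)
    linarith
  rw [e2, e3, ← Real.norm_eq_abs]
  exact tsum_of_norm_bounded (s3.mul_left 2).hasSum fun x => by
    rw [Real.norm_eq_abs]
    exact hle x

theorem ll_drift_pos {nu : LL → ℝ} (h : IsProb nu)
    (hl : Summable fun x : LL => nu x * (x.lamp.support.card : ℝ)) {m : ℝ} (hm : 0 < m)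
    (h1 : HasSum (fun x : LL => nu x * (x.pos : ℝ)) m) : ¬ Liouville nu := by
  obtain ⟨hr0, hrs⟩ := lampRate_summable h hl
  obtain ⟨q, hqd⟩ : ∃ q : ℤ → ℝ, q = image (fun x : LL => x.pos) nu := ⟨_, rfl⟩
  have hq1 : HasSum q 1 := by
    have h3 := image_sum (fun x : LL => x.pos) h (φ := fun _ => (1 : ℝ))
      (by simpa using h.2.summable)
    simp only [mul_one] at h3
    rw [h.2.tsum_eq] at h3
    rw [hqd]
    exact h3
  have hq : IsProb q := by
    refine ⟨fun j => ?_, hq1⟩
    rw [hqd]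
    exact tsum_nonneg fun g => h.1 _
  have hqm : HasSum (fun j : ℤ => q j * (j : ℝ)) m := by
    have h3 := image_sum (fun x : LL => x.pos) h (φ := fun j : ℤ => (j : ℝ)) h1.summable
    rw [h1.tsum_eq] at h3
    rw [hqd]
    exact h3
  obtain ⟨A, B, hA, hlim, hpot⟩ := pot_sum hq hm hqm
    (t := fun k => 2 * lampRate nu k) (fun k => mul_nonneg zero_le_two (hr0 k)) (hrs.mul_left 2)
  have hAabs : ∀ k, |A k| ≤ B := fun k => by
    rw [abs_of_nonneg (hA k).1]
    exact (hA k).2
  have sA : ∀ g : LL, Summable fun x : LL => nu x * A ((g * x).pos) := fun g =>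
    k1_sum h (C := B) fun x => hAabs _
  have sφ : ∀ g : LL, Summable fun x : LL => nu x * k1_phi (g * x) := fun g =>
    k1_sum h (C := 1) fun x => k1_phi_abs _
  have hApot : ∀ g : LL, ∑' x, nu x * A ((g * x).pos) + 2 * lampRate nu g.pos ≤ A g.pos := by
    intro g
    have h3 := image_sum (fun x : LL => x.pos) h (φ := fun j : ℤ => A (g.pos + j)) (sA g)
    have h4 := hpot g.pos
    rw [← hqd] at h3
    rw [h3.tsum_eq] at h4
    exact h4
  obtain ⟨f, hf, hab⟩ := sandwich h (a := fun g : LL => k1_phi g - A g.pos)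
    (b := fun g : LL => k1_phi g + A g.pos) (C := 1 + B)
    (fun g => by
      have h3 := abs_le.1 (k1_phi_abs g)
      have h4 := hA g.pos
      rw [abs_le]
      constructor <;> linarith [h3.1, h3.2, h4.1, h4.2])
    (fun g => by
      have h3 := abs_le.1 (k1_phi_abs g)
      have h4 := hA g.pos
      rw [abs_le]
      constructor <;> linarith [h3.1, h3.2, h4.1, h4.2])
    (fun g => by
      have h4 := hA g.pos
      show k1_phi g - A g.pos ≤ k1_phi g + A g.pos
      linarith [h4.1])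
    (fun g => by
      have e : ∑' x, nu x * (k1_phi (g * x) - A ((g * x).pos)) =
          ∑' x, nu x * k1_phi (g * x) - ∑' x, nu x * A ((g * x).pos) := by
        rw [← (sφ g).tsum_sub (sA g)]
        exact tsum_congr fun x => by ring
      show k1_phi g - A g.pos ≤ ∑' x, nu x * (k1_phi (g * x) - A ((g * x).pos))
      rw [e]
      have h3 := (abs_le.1 (k1_phi_mean h g)).1
      have h4 := hApot g
      linarith)
    (fun g => by
      have e : ∑' x, nu x * (k1_phi (g * x) + A ((g * x).pos)) =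
          ∑' x, nu x * k1_phi (g * x) + ∑' x, nu x * A ((g * x).pos) := by
        rw [← (sφ g).tsum_add (sA g)]
        exact tsum_congr fun x => by ring
      show ∑' x, nu x * (k1_phi (g * x) + A ((g * x).pos)) ≤ k1_phi g + A g.pos
      rw [e]
      have h3 := (abs_le.1 (k1_phi_mean h g)).2
      have h4 := hApot g
      linarith)
  intro hL
  obtain ⟨k, hk⟩ := ((tendsto_order.1 hlim).2 (1 / 2) (by norm_num)).exists
  have e0 : k1_phi ⟨0, k⟩ = 1 := by
    unfold k1_phi
    rw [if_pos]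
    rfl
  have e1 : k1_phi ⟨Finsupp.single 0 1, k⟩ = -1 := by
    unfold k1_phi
    rw [if_neg]
    show (Finsupp.single (0 : ℤ) (1 : ZMod 2)) 0 ≠ 0
    rw [Finsupp.single_eq_same]
    decide
  have h5 := (hab ⟨0, k⟩).1
  have h6 := (hab ⟨Finsupp.single 0 1, k⟩).2
  have h7 := hL f hf ⟨0, k⟩ ⟨Finsupp.single 0 1, k⟩
  simp only [e0] at h5
  simp only [e1] at h6
  linarith

end Pool.Agent.H34.DA
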