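import Pool.Agent.H34.DA.Defs

/-!
L1: the Lyapunov function `sqrt |k|` for a centered law `q` on `ℤ` with finite second moment, positive side. For
`k ≥ 1` and all integers `x`: if `|x| ≤ k`: `sqrt |k + x| ≤ sqrt k + x / (2 sqrt k) - x^2 / (16 k sqrt k)` (with `t = x / k`:
`(1 + t/2 - t^2/16)^2 - (1 + t) = t^2 (1/8 - t/16 + t^2/256) ≥ 0`, `1 + t/2 - t^2/16 ≥ 0`); if `|x| > k`:
`sqrt |k + x| ≤ sqrt k + x / (2 sqrt k) + 4 x^2 / (k sqrt k)`. Multiply by `q x` and sum; for large `k` take a finite set `T` of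
integers with tail `∑_{x ∉ T} q x x^2 < η`, `T ⊆ [-k, k]`.
-/

namespace Pool.Agent.H34.DA

open Pool.Agent.H34.LS Pool.Agent.H34.FL

/-- the correction term. -/
private noncomputable def l1d (k x : ℤ) : ℝ :=
  if |x| ≤ k then -((x : ℝ) ^ 2 / 16) else 4 * (x : ℝ) ^ 2

private lemma l1_pt {k : ℤ} (hk : 1 ≤ k) (x : ℤ) :
    Real.sqrt |((k + x : ℤ) : ℝ)| ≤
      Real.sqrt (k : ℝ) + (x : ℝ) / (2 * Real.sqrt (k : ℝ)) +
        l1d k x / ((k : ℝ) * Real.sqrt (k : ℝ)) := by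
  have hK : (1 : ℝ) ≤ (k : ℝ) := by exact_mod_cast hk
  obtain ⟨s, hs, hsk⟩ : ∃ s : ℝ, 1 ≤ s ∧ (k : ℝ) = s ^ 2 :=
    ⟨Real.sqrt (k : ℝ), Real.one_le_sqrt.2 hK, (Real.sq_sqrt (by linarith)).symm⟩
  have hsq : Real.sqrt (k : ℝ) = s := by rw [hsk, Real.sqrt_sq (by linarith)]
  have hs0 : 0 < s := by linarith
  rw [hsq, Real.sqrt_le_iff]
  push_cast
  rw [hsk]
  obtain ⟨t, hxt⟩ : ∃ t : ℝ, (x : ℝ) = t * s ^ 2 := ⟨(x : ℝ) / s ^ 2, by field_simp⟩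
  have hs2 : 0 < s ^ 2 := by positivity
  unfold l1d
  split_ifs with h
  · have hx : |(x : ℝ)| ≤ s ^ 2 := by rw [← hsk]; exact_mod_cast h
    obtain ⟨h1, h2⟩ := abs_le.1 hx
    have ht1 : -1 ≤ t := by
      rw [hxt] at h1
      by_contra hc
      push Not at hc
      nlinarith
    have ht2 : t ≤ 1 := by
      rw [hxt] at h2
      by_contra hc
      push Not at hc
      nlinarith
    have e : s + (x : ℝ) / (2 * s) + -((x : ℝ) ^ 2 / 16) / (s ^ 2 * s) =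
        s * (1 + t / 2 - t ^ 2 / 16) := by
      rw [hxt]; field_simp; ring
    have hb : 0 ≤ 1 + t / 2 - t ^ 2 / 16 := by nlinarith
    rw [e]
    refine ⟨by positivity, ?_⟩
    rw [hxt, abs_of_nonneg (by nlinarith)]
    have : (s * (1 + t / 2 - t ^ 2 / 16)) ^ 2 - (s ^ 2 + t * s ^ 2) =
        s ^ 2 * (t ^ 2 * (1 / 8 - t / 16 + t ^ 2 / 256)) := by ring
    have h3 : 0 ≤ s ^ 2 * (t ^ 2 * (1 / 8 - t / 16 + t ^ 2 / 256)) := by
      have : 0 ≤ 1 / 8 - t / 16 + t ^ 2 / 256 := by nlinarith [sq_nonneg t]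
      positivity
    linarith
  · have hx : s ^ 2 < |(x : ℝ)| := by
      rw [← hsk]
      have : k < |x| := lt_of_not_ge h
      exact_mod_cast this
    have hxa : |(x : ℝ)| = |t| * s ^ 2 := by rw [hxt, abs_mul, abs_of_pos hs2]
    have hy : 1 < |t| := by
      rw [hxa] at hx
      by_contra hc
      push Not at hc
      nlinarith
    have e : s + (x : ℝ) / (2 * s) + 4 * (x : ℝ) ^ 2 / (s ^ 2 * s) =
        s * (1 + t / 2 + 4 * t ^ 2) := by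
      rw [hxt]; field_simp
    have hb : 2 * |t| ≤ 1 + t / 2 + 4 * t ^ 2 := by
      have h1 : -|t| ≤ t := neg_abs_le t
      have h2 : t ^ 2 = |t| ^ 2 := (sq_abs t).symm
      rw [h2]
      nlinarith
    rw [e]
    refine ⟨by nlinarith, ?_⟩
    have h1 : |s ^ 2 + (x : ℝ)| ≤ 2 * |t| * s ^ 2 := by
      calc |s ^ 2 + (x : ℝ)| ≤ |s ^ 2| + |(x : ℝ)| := abs_add_le _ _
        _ = s ^ 2 + |t| * s ^ 2 := by rw [abs_of_pos hs2, hxa]
        _ ≤ 2 * |t| * s ^ 2 := by nlinarith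
    have h2 : (2 * |t|) ^ 2 ≤ (1 + t / 2 + 4 * t ^ 2) ^ 2 :=
      pow_le_pow_left₀ (by positivity) hb 2
    calc |s ^ 2 + (x : ℝ)| ≤ 2 * |t| * s ^ 2 := h1
      _ ≤ (2 * |t|) ^ 2 * s ^ 2 := by
          apply mul_le_mul_of_nonneg_right _ hs2.le
          nlinarith
      _ ≤ (1 + t / 2 + 4 * t ^ 2) ^ 2 * s ^ 2 := mul_le_mul_of_nonneg_right h2 hs2.le
      _ = (s * (1 + t / 2 + 4 * t ^ 2)) ^ 2 := by ring

theorem lyap {q : ℤ → ℝ} (hq : IsProb q) (h2 : Summable fun j : ℤ => q j * (j : ℝ) ^ 2)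
    (h0 : HasSum (fun j : ℤ => q j * (j : ℝ)) 0) (hne : ∃ j : ℤ, j ≠ 0 ∧ q j ≠ 0) :
    ∃ k0 : ℕ, ∀ k : ℤ, (k0 : ℤ) ≤ k →
      Summable (fun j : ℤ => q j * Real.sqrt |((k + j : ℤ) : ℝ)|) ∧
      ∑' j : ℤ, q j * Real.sqrt |((k + j : ℤ) : ℝ)| < Real.sqrt |(k : ℝ)| := by
  classical
  obtain ⟨hq0, hq1⟩ := hq
  obtain ⟨j, hj, hqj⟩ := hne
  have hjp : 0 < q j * (j : ℝ) ^ 2 := by
    have h1 : 0 < q j := lt_of_le_of_ne (hq0 j) (Ne.symm hqj)
    have h3 : (j : ℝ) ≠ 0 := by exact_mod_cast hj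
    positivity
  set δ : ℝ := q j * (j : ℝ) ^ 2 with hδ
  set A : ℝ := ∑' x : ℤ, q x * (x : ℝ) ^ 2 with hA
  have hnn : ∀ x : ℤ, 0 ≤ q x * (x : ℝ) ^ 2 := fun x => mul_nonneg (hq0 x) (sq_nonneg _)
  -- a finite set with small tail
  obtain ⟨T, hjT, hT⟩ : ∃ T : Finset ℤ, j ∈ T ∧ A - δ / 128 < ∑ x ∈ T, q x * (x : ℝ) ^ 2 := by
    have ht : Filter.Tendsto (fun s : Finset ℤ => ∑ x ∈ s, q x * (x : ℝ) ^ 2) Filter.atTop (nhds A) :=
      h2.hasSum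
    have hev : ∀ᶠ s : Finset ℤ in Filter.atTop, A - δ / 128 < ∑ x ∈ s, q x * (x : ℝ) ^ 2 :=
      ht.eventually (lt_mem_nhds (by linarith))
    obtain ⟨T0, hT0⟩ := Filter.eventually_atTop.1 hev
    exact ⟨insert j T0, Finset.mem_insert_self _ _, hT0 _ (Finset.subset_insert _ _)⟩
  have hTδ : δ ≤ ∑ x ∈ T, q x * (x : ℝ) ^ 2 :=
    Finset.single_le_sum (f := fun x : ℤ => q x * (x : ℝ) ^ 2) (fun x _ => hnn x) hjT
  refine ⟨1 + ∑ x ∈ T, x.natAbs, fun k hk => ?_⟩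
  have hk1 : 1 ≤ k := by
    push_cast at hk
    have : (0 : ℤ) ≤ ∑ x ∈ T, |x| := Finset.sum_nonneg fun x _ => abs_nonneg x
    linarith
  have hTk : ∀ x ∈ T, |x| ≤ k := by
    intro x hx
    push_cast at hk
    have : |x| ≤ ∑ x ∈ T, |x| :=
      Finset.single_le_sum (f := fun x : ℤ => |x|) (fun x _ => abs_nonneg x) hx
    linarith
  have hkR : (1 : ℝ) ≤ (k : ℝ) := by exact_mod_cast hk1
  have hs0 : 0 < Real.sqrt (k : ℝ) := Real.sqrt_pos.2 (by linarith)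
  -- bounds for the correction
  have hd1 : ∀ x : ℤ, l1d k x ≤ 4 * (x : ℝ) ^ 2 := by
    intro x; unfold l1d
    split_ifs
    · nlinarith [sq_nonneg (x : ℝ)]
    · exact le_refl _
  have hd2 : ∀ x : ℤ, |l1d k x| ≤ 4 * (x : ℝ) ^ 2 := by
    intro x; unfold l1d
    split_ifs
    · rw [abs_neg, abs_of_nonneg (by positivity)]; nlinarith [sq_nonneg (x : ℝ)]
    · rw [abs_of_nonneg (by positivity)]
  have hsd : Summable fun x : ℤ => q x * l1d k x := by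
    refine Summable.of_norm_bounded (g := fun x : ℤ => 4 * (q x * (x : ℝ) ^ 2)) (h2.mul_left 4) ?_
    intro x
    rw [Real.norm_eq_abs, abs_mul, abs_of_nonneg (hq0 x)]
    nlinarith [mul_le_mul_of_nonneg_left (hd2 x) (hq0 x)]
  have hneg : ∑' x : ℤ, q x * l1d k x < 0 := by
    have hsh : Summable fun x : ℤ => 4 * (q x * (x : ℝ) ^ 2) - q x * l1d k x :=
      (h2.mul_left 4).sub hsd
    have hle : ∑ x ∈ T, (4 * (q x * (x : ℝ) ^ 2) - q x * l1d k x) ≤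
        ∑' x : ℤ, (4 * (q x * (x : ℝ) ^ 2) - q x * l1d k x) := by
      refine hsh.sum_le_tsum T fun x _ => ?_
      have := mul_le_mul_of_nonneg_left (hd1 x) (hq0 x)
      linarith
    have heq : ∑ x ∈ T, (4 * (q x * (x : ℝ) ^ 2) - q x * l1d k x) =
        (4 + 1 / 16) * ∑ x ∈ T, q x * (x : ℝ) ^ 2 := by
      rw [Finset.mul_sum]
      refine Finset.sum_congr rfl fun x hx => ?_
      unfold l1d
      rw [if_pos (hTk x hx)]
      ring
    rw [(h2.mul_left 4).tsum_sub hsd, tsum_mul_left, heq, ← hA] at hle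
    linarith
  -- summation
  set s : ℝ := Real.sqrt (k : ℝ) with hs
  have hF : HasSum (fun x : ℤ => q x * s + (1 / (2 * s)) * (q x * (x : ℝ)) +
      (1 / ((k : ℝ) * s)) * (q x * l1d k x))
      (1 * s + (1 / (2 * s)) * 0 + (1 / ((k : ℝ) * s)) * ∑' x : ℤ, q x * l1d k x) :=
    ((hq1.mul_right s).add (h0.mul_left _)).add (hsd.hasSum.mul_left _)
  have hpt : ∀ x : ℤ, q x * Real.sqrt |((k + x : ℤ) : ℝ)| ≤
      q x * s + (1 / (2 * s)) * (q x * (x : ℝ)) + (1 / ((k : ℝ) * s)) * (q x * l1d k x) := by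
    intro x
    have := mul_le_mul_of_nonneg_left (l1_pt hk1 x) (hq0 x)
    rw [← hs] at this
    calc q x * Real.sqrt |((k + x : ℤ) : ℝ)| ≤ _ := this
      _ = _ := by ring
  have hsum : Summable (fun x : ℤ => q x * Real.sqrt |((k + x : ℤ) : ℝ)|) :=
    Summable.of_nonneg_of_le (fun x => mul_nonneg (hq0 x) (Real.sqrt_nonneg _)) hpt hF.summable
  refine ⟨hsum, ?_⟩
  have hle := hasSum_le hpt hsum.hasSum hF
  have hk0 : 0 < 1 / ((k : ℝ) * s) := by positivity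
  have habs : |(k : ℝ)| = (k : ℝ) := abs_of_nonneg (by linarith)
  rw [habs, ← hs]
  have := mul_neg_of_pos_of_neg hk0 hneg
  linarith

end Pool.Agent.H34.DA
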