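import Pool.Agent.H34.DA.L1

/-!
L2: bounded subharmonic functions for a centered law of finite second moment on `ℤ` are constant. `lyap` for `q` and for
`j ↦ q (-j)` gives `k0` with `∑' j, q j * L (k + j) < L k` for `|k| ≥ k0`, `L k = sqrt |k|` (summable for these `k`). Let `M` be the
maximum of `u` on `B = [-k0, k0]`. Claim `u k ≤ M` for all `k`: otherwise for some `e > 0` `u k - e L k > M` (choose `e` small; `L ≥ 0`); the
function `v = u - e L` tends to `-∞` (`|u| ≤ C`), so `v` attains its maximum over `ℤ` at some `k1` (finite set where `v ≥ v k`); `v k1 > M ≥ v` on `B`,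
so `|k1| > k0` and `v k1 ≤ ∑' q j u (k1 + j) - e L k1 < ∑' q j (u - e L) (k1 + j) ≤ v k1`. So `u` has a maximum `M = u b`. The set of
`k` with: for all `x` with `u x = M` also `u (x + k) = M` is a submonoid of `ℤ` that contains the support of `q`
(`M = u x ≤ ∑' q j u (x + j) ≤ M` forces equality in each term with `q j > 0`), so it is everything.
-/

namespace Pool.Agent.H34.DA

open Pool.Agent.H34.LS Pool.Agent.H34.FL

private lemma l2_lyap {q : ℤ → ℝ} (hq : IsProb q)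
    (h2 : Summable fun j : ℤ => q j * (j : ℝ) ^ 2) (h0 : HasSum (fun j : ℤ => q j * (j : ℝ)) 0)
    (hne : ∃ j : ℤ, j ≠ 0 ∧ q j ≠ 0) :
    ∃ k0 : ℕ, ∀ k : ℤ, (k0 : ℤ) ≤ |k| →
      Summable (fun j : ℤ => q j * Real.sqrt |((k + j : ℤ) : ℝ)|) ∧
      ∑' j : ℤ, q j * Real.sqrt |((k + j : ℤ) : ℝ)| < Real.sqrt |(k : ℝ)| := by
  obtain ⟨a, ha⟩ := lyap hq h2 h0 hne
  have hq' : IsProb (fun j : ℤ => q (-j)) := by
    refine ⟨fun j => hq.1 (-j), ?_⟩
    exact (Equiv.neg ℤ).hasSum_iff.2 hq.2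
  have h2' : Summable fun j : ℤ => (fun j : ℤ => q (-j)) j * (j : ℝ) ^ 2 := by
    have := (Equiv.neg ℤ).summable_iff.2 h2
    refine this.congr fun j => ?_
    simp
  have h0' : HasSum (fun j : ℤ => (fun j : ℤ => q (-j)) j * (j : ℝ)) 0 := by
    have h := ((Equiv.neg ℤ).hasSum_iff.2 h0).neg
    rw [neg_zero] at h
    have e : (fun j : ℤ => (fun j : ℤ => q (-j)) j * (j : ℝ)) =
        fun j : ℤ => -((fun j : ℤ => q j * (j : ℝ)) ∘ (Equiv.neg ℤ)) j := by
      funext j
      simp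
    rw [e]
    exact h
  have hne' : ∃ j : ℤ, j ≠ 0 ∧ (fun j : ℤ => q (-j)) j ≠ 0 := by
    obtain ⟨j, hj, hj'⟩ := hne
    exact ⟨-j, neg_ne_zero.2 hj, by simpa using hj'⟩
  obtain ⟨b, hb⟩ := lyap hq' h2' h0' hne'
  refine ⟨max a b, fun k hk => ?_⟩
  have hk1 : (a : ℤ) ≤ |k| := le_trans (by exact_mod_cast le_max_left a b) hk
  have hk2 : (b : ℤ) ≤ |k| := le_trans (by exact_mod_cast le_max_right a b) hk
  rcases le_total 0 k with h | h
  · rw [abs_of_nonneg h] at hk1
    exact ha k hk1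
  · rw [abs_of_nonpos h] at hk2
    obtain ⟨h3, h4⟩ := hb (-k) hk2
    have e : (fun j : ℤ => q j * Real.sqrt |((k + j : ℤ) : ℝ)|) ∘ (Equiv.neg ℤ) =
        fun j : ℤ => (fun j : ℤ => q (-j)) j * Real.sqrt |((-k + j : ℤ) : ℝ)| := by
      funext j
      simp only [Function.comp, Equiv.neg_apply]
      congr 2
      rw [← abs_neg]
      congr 1
      push_cast
      ring
    rw [← e] at h3 h4
    refine ⟨(Equiv.neg ℤ).summable_iff.1 h3, ?_⟩
    have h5 := (Equiv.neg ℤ).tsum_eq (fun j : ℤ => q j * Real.sqrt |((k + j : ℤ) : ℝ)|)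
    have h6 : Real.sqrt |((-k : ℤ) : ℝ)| = Real.sqrt |(k : ℝ)| := by
      push_cast
      rw [abs_neg]
    rw [h6] at h4
    rw [← h5]
    exact h4

private lemma l2_sum {q : ℤ → ℝ} (hq : IsProb q) {u : ℤ → ℝ} {C : ℝ} (hu : ∀ k, |u k| ≤ C)
    (k : ℤ) : Summable fun j : ℤ => q j * u (k + j) := by
  refine Summable.of_norm_bounded (g := fun j => q j * C) (hq.2.summable.mul_right C) fun j => ?_
  rw [norm_mul, Real.norm_eq_abs, Real.norm_eq_abs, abs_of_nonneg (hq.1 j)]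
  exact mul_le_mul_of_nonneg_left (hu _) (hq.1 j)

private lemma l2_max {q : ℤ → ℝ} (hq : IsProb q)
    {u : ℤ → ℝ} {C : ℝ} (hu : ∀ k, |u k| ≤ C) (hs : ∀ k, u k ≤ ∑' j, q j * u (k + j)) {k0 : ℕ}
    (hk0 : ∀ k : ℤ, (k0 : ℤ) ≤ |k| →
      Summable (fun j : ℤ => q j * Real.sqrt |((k + j : ℤ) : ℝ)|) ∧
      ∑' j : ℤ, q j * Real.sqrt |((k + j : ℤ) : ℝ)| < Real.sqrt |(k : ℝ)|) :
    ∃ b : ℤ, ∀ k, u k ≤ u b := by
  classical
  have hB : (Finset.Icc (-(k0 : ℤ)) (k0 : ℤ)).Nonempty := ⟨0, by simp⟩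
  obtain ⟨b, hb, hmax⟩ := Finset.exists_max_image (Finset.Icc (-(k0 : ℤ)) (k0 : ℤ)) u hB
  refine ⟨b, fun k => ?_⟩
  by_contra hcon
  push Not at hcon
  -- choose e
  obtain ⟨e, he, hek⟩ : ∃ e : ℝ, 0 < e ∧ u b < u k - e * Real.sqrt |(k : ℝ)| := by
    refine ⟨(u k - u b) / (2 * (Real.sqrt |(k : ℝ)| + 1)), ?_, ?_⟩
    · have := Real.sqrt_nonneg |(k : ℝ)|
      have h3 : 0 < u k - u b := by linarith
      positivity
    · have h4 := Real.sqrt_nonneg |(k : ℝ)|
      have h3 : 0 < u k - u b := by linarith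
      have h5 : (u k - u b) / (2 * (Real.sqrt |(k : ℝ)| + 1)) * Real.sqrt |(k : ℝ)| < u k - u b := by
        rw [div_mul_eq_mul_div, div_lt_iff₀ (by positivity)]
        nlinarith
      linarith
  set v : ℤ → ℝ := fun j => u j - e * Real.sqrt |(j : ℝ)| with hv
  -- finite set
  have hfin : {j : ℤ | v k ≤ v j}.Finite := by
    obtain ⟨N, hN⟩ := exists_nat_ge (((C - v k) / e) ^ 2)
    refine (Set.finite_Icc (-(N : ℤ)) (N : ℤ)).subset fun j hj => ?_
    have h3 : v k ≤ u j - e * Real.sqrt |(j : ℝ)| := hj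
    have h4 := (abs_le.1 (hu j)).2
    have h5 : Real.sqrt |(j : ℝ)| ≤ (C - v k) / e := by
      rw [le_div_iff₀ he]
      linarith
    have h6 : |(j : ℝ)| ≤ ((C - v k) / e) ^ 2 := by
      rw [← Real.sq_sqrt (abs_nonneg (j : ℝ))]
      exact pow_le_pow_left₀ (Real.sqrt_nonneg _) h5 2
    have h7 : |(j : ℝ)| ≤ (N : ℝ) := le_trans h6 hN
    have h8 : |j| ≤ (N : ℤ) := by exact_mod_cast h7
    exact Set.mem_Icc.2 (abs_le.1 h8)
  obtain ⟨k1, hk1, hk1max⟩ := Set.exists_max_image _ v hfin ⟨k, le_refl (v k)⟩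
  have hall : ∀ j, v j ≤ v k1 := by
    intro j
    rcases le_total (v k) (v j) with h | h
    · exact hk1max j h
    · exact le_trans h hk1
  have hgt : u b < v k1 := lt_of_lt_of_le hek hk1
  have hout : (k0 : ℤ) ≤ |k1| := by
    by_contra hc
    push Not at hc
    have h3 := hmax k1 (Finset.mem_Icc.2 (abs_le.1 hc.le))
    have h4 : v k1 ≤ u k1 := by
      have := mul_nonneg he.le (Real.sqrt_nonneg |(k1 : ℝ)|)
      simp only [hv]
      linarith
    linarith
  obtain ⟨h3, h4⟩ := hk0 k1 hout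
  have hsu := l2_sum hq hu k1
  have hsv : Summable fun j : ℤ => q j * v (k1 + j) := by
    refine (hsu.sub (h3.mul_left e)).congr fun j => ?_
    simp only [hv]
    ring
  have htv : ∑' j, q j * v (k1 + j) = ∑' j, q j * u (k1 + j) -
      e * ∑' j : ℤ, q j * Real.sqrt |((k1 + j : ℤ) : ℝ)| := by
    rw [← tsum_mul_left, ← Summable.tsum_sub hsu (h3.mul_left e)]
    refine tsum_congr fun j => ?_
    simp only [hv]
    ring
  have hle : ∑' j, q j * v (k1 + j) ≤ v k1 := by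
    have h5 : HasSum (fun j : ℤ => q j * v k1) (1 * v k1) := hq.2.mul_right (v k1)
    rw [one_mul] at h5
    exact hasSum_le (fun j => mul_le_mul_of_nonneg_left (hall _) (hq.1 j)) hsv.hasSum h5
  have h6 := hs k1
  have h7 : e * ∑' j : ℤ, q j * Real.sqrt |((k1 + j : ℤ) : ℝ)| < e * Real.sqrt |(k1 : ℝ)| :=
    mul_lt_mul_of_pos_left h4 he
  have h8 : v k1 = u k1 - e * Real.sqrt |(k1 : ℝ)| := rfl
  linarith

theorem sub_const {q : ℤ → ℝ} (hq : IsProb q)
    (hgen : AddSubmonoid.closure (Function.support q) = ⊤)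
    (h2 : Summable fun j : ℤ => q j * (j : ℝ) ^ 2) (h0 : HasSum (fun j : ℤ => q j * (j : ℝ)) 0)
    {u : ℤ → ℝ} {C : ℝ} (hu : ∀ k, |u k| ≤ C) (hs : ∀ k, u k ≤ ∑' j, q j * u (k + j)) (k l : ℤ) :
    u k = u l := by
  have hne : ∃ j : ℤ, j ≠ 0 ∧ q j ≠ 0 := by
    by_contra hcon
    push Not at hcon
    have h3 : AddSubmonoid.closure (Function.support q) ≤ (⊥ : AddSubmonoid ℤ) := by
      rw [AddSubmonoid.closure_le]
      intro j hj
      by_contra hj0
      exact hj (hcon j (fun h => hj0 (by simp [h])))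
    rw [hgen] at h3
    have h4 : (1 : ℤ) ∈ (⊥ : AddSubmonoid ℤ) := h3 (AddSubmonoid.mem_top _)
    simp at h4
  obtain ⟨k0, hk0⟩ := l2_lyap hq h2 h0 hne
  obtain ⟨b, hb⟩ := l2_max hq hu hs hk0
  have key : ∀ x : ℤ, ∀ y, u y = u b → u (y + x) = u b := by
    intro x
    have hx : x ∈ AddSubmonoid.closure (Function.support q) := by rw [hgen]; trivial
    induction hx using AddSubmonoid.closure_induction with
    | mem j hj =>
      intro y hy
      have hsu := l2_sum hq hu y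
      have h5 : HasSum (fun i : ℤ => q i * u b) (1 * u b) := hq.2.mul_right (u b)
      rw [one_mul] at h5
      have h6 : HasSum (fun i : ℤ => q i * u b - q i * u (y + i)) (u b - ∑' i, q i * u (y + i)) :=
        h5.sub hsu.hasSum
      have h7 : ∀ i, 0 ≤ q i * u b - q i * u (y + i) := fun i => by
        have := mul_le_mul_of_nonneg_left (hb (y + i)) (hq.1 i)
        linarith
      have h8 : q j * u b - q j * u (y + j) ≤ u b - ∑' i, q i * u (y + i) :=
        le_hasSum h6 j fun i _ => h7 i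
      have h9 := hs y
      rw [hy] at h9
      have h10 : q j * u b - q j * u (y + j) = 0 := le_antisymm (by linarith) (h7 j)
      have h11 : q j * (u b - u (y + j)) = 0 := by linarith
      rcases mul_eq_zero.1 h11 with h | h
      · exact absurd h hj
      · linarith
    | zero => intro y hy; simpa using hy
    | add x1 x2 _ _ i1 i2 =>
      intro y hy
      rw [← add_assoc]
      exact i2 _ (i1 y hy)
  have all : ∀ x, u x = u b := fun x => by
    have := key (x - b) b rfl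
    rwa [add_sub_cancel] at this
  rw [all k, all l]

end Pool.Agent.H34.DA
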