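import Pool.Agent.H34.DA.F4
import Pool.Agent.H34.DA.I

/-!
M1: a bounded harmonic function on the lamplighter group has the same supremum on all levels. `u k = sSup {W g | g.pos = k}`
(or `⨆` over the subtype; nonempty, bounded by `C`). For `g` of level `k`: `W g = ∑ nu x W (g x) ≤ ∑ nu x u (k + x.pos) = ∑ q j u (k + j)`,
`q = image pos nu` (`image_hasSum` with `φ j = u (k + j)`), so `u k ≤ ∑' q j u (k + j)`; `sub_const1` with `image_prob`, `image_pos_gen`, `image_sum`
gives `u k = u 0 ≤ s`.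
-/

namespace Pool.Agent.H34.DA

open Pool.Agent.H34.LS Pool.Agent.H34.FL

private theorem m1_prob {nu : LL → ℝ} (h : IsProb nu) : IsProb (image (fun x : LL => x.pos) nu) := by
  refine ⟨fun j => tsum_nonneg fun g => h.1 g.1, ?_⟩
  have h1 : Summable fun g : LL => nu g * 1 := by
    simpa only [mul_one] using h.2.summable
  have h2 := image_sum (fun x : LL => x.pos) h (φ := fun _ : ℤ => (1 : ℝ)) h1
  simp only [mul_one] at h2
  rwa [h.2.tsum_eq] at h2

private theorem m1_sum {nu : LL → ℝ} (h : IsProb nu) {φ : LL → ℝ} {C : ℝ} (hφ : ∀ x, |φ x| ≤ C) :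
    Summable fun x => nu x * φ x := by
  refine Summable.of_norm_bounded (g := fun x => nu x * C) (h.2.summable.mul_right C) fun x => ?_
  rw [Real.norm_eq_abs, abs_mul, abs_of_nonneg (h.1 x)]
  exact mul_le_mul_of_nonneg_left (hφ x) (h.1 x)

theorem level {nu : LL → ℝ} (h : IsProb nu) (hg : Generating nu)
    (h0 : HasSum (fun x : LL => nu x * (x.pos : ℝ)) 0) {W : LL → ℝ} (hW : BddHarm nu W) {s : ℝ}
    (hs : ∀ g : LL, g.pos = 0 → W g ≤ s) (g : LL) : W g ≤ s := by
  obtain ⟨C, hC⟩ := hW.1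
  have hq := m1_prob h
  have hq0 : HasSum (fun j : ℤ => image (fun x : LL => x.pos) nu j * (j : ℝ)) 0 := by
    have h3 := image_sum (fun x : LL => x.pos) h (φ := fun j : ℤ => (j : ℝ)) h0.summable
    rwa [h0.tsum_eq] at h3
  obtain ⟨u, hu⟩ : ∃ u : ℤ → ℝ, ∀ k, u k = sSup (W '' {g | g.pos = k}) := ⟨_, fun _ => rfl⟩
  have hbdd : ∀ k : ℤ, BddAbove (W '' {g | g.pos = k}) := by
    intro k
    refine ⟨C, ?_⟩
    rintro _ ⟨g, _, rfl⟩
    exact (abs_le.1 (hC g)).2
  have hne : ∀ k : ℤ, (W '' {g | g.pos = k}).Nonempty := fun k => ⟨_, ⟨⟨0, k⟩, rfl, rfl⟩⟩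
  have hWu : ∀ g : LL, W g ≤ u g.pos := by
    intro g
    rw [hu]
    exact le_csSup (hbdd _) ⟨g, rfl, rfl⟩
  have hub : ∀ k, |u k| ≤ C := by
    intro k
    rw [abs_le]
    constructor
    · exact (abs_le.1 (hC ⟨0, k⟩)).1.trans (hWu ⟨0, k⟩)
    · rw [hu]
      refine csSup_le (hne k) ?_
      rintro _ ⟨g, _, rfl⟩
      exact (abs_le.1 (hC g)).2
  have hsub : ∀ k, u k ≤ ∑' j, image (fun x : LL => x.pos) nu j * u (k + j) := by
    intro k
    have h3 : Summable fun x : LL => nu x * u (k + x.pos) := m1_sum h fun x => hub _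
    have h4 := image_sum (fun x : LL => x.pos) h (φ := fun j : ℤ => u (k + j)) h3
    rw [h4.tsum_eq]
    conv_lhs => rw [hu]
    refine csSup_le (hne k) ?_
    rintro _ ⟨g, hgk, rfl⟩
    refine hasSum_le (fun x => ?_) (hW.2 g) h3.hasSum
    have h5 := hWu (g * x)
    have h6 : (g * x).pos = k + x.pos := by
      rw [LL.mul_pos]
      exact congrArg (· + x.pos) hgk
    rw [h6] at h5
    exact mul_le_mul_of_nonneg_left h5 (h.1 x)
  have hc := sub_const1 hq (image_pos_gen h hg) hq0 hub hsub g.pos 0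
  refine (hWu g).trans ?_
  rw [hc, hu]
  refine csSup_le (hne 0) ?_
  rintro _ ⟨g', hg', rfl⟩
  exact hs g' hg'

/-- bounded harmonic functions that depend on the position only are constant. -/
theorem level_const {nu : LL → ℝ} (h : IsProb nu) (hg : Generating nu)
    (h0 : HasSum (fun x : LL => nu x * (x.pos : ℝ)) 0) {v : ℤ → ℝ}
    (hv : BddHarm nu (fun g : LL => v g.pos)) (k l : ℤ) : v k = v l := by
  have hv' : BddHarm nu (fun g : LL => -v g.pos) := by
    obtain ⟨C, hC⟩ := hv.1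
    refine ⟨⟨C, fun g => ?_⟩, fun g => ?_⟩
    · rw [abs_neg]
      exact hC g
    · have h3 := (hv.2 g).neg
      have h4 : (fun x : LL => nu x * -v (g * x).pos) = fun x : LL => -(nu x * v (g * x).pos) := by
        funext x
        ring
      rw [h4]
      exact h3
  have h1 : ∀ k, v k = v 0 := by
    intro k
    refine le_antisymm ?_ ?_
    · exact level h hg h0 hv (s := v 0) (fun g hg' => by rw [hg']) ⟨0, k⟩
    · have h3 : -v k ≤ -v 0 := level h hg h0 hv' (s := -v 0) (fun g hg' => by rw [hg']) ⟨0, k⟩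
      linarith
  rw [h1 k, h1 l]

end Pool.Agent.H34.DA
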