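import Pool.Agent.H34.DA.M1

/-!
M2: centered case of the lamplighter group. `left_inv`: `W g = h (z g) - h g` is bounded harmonic; it is enough to show `W ≤ 0` everywhere (`z z = 1` gives the other
inequality: `W (z g) = - W g`). `s = sSup (range W)`; suppose `s > 0`. Property `P x`: for every `e > 0` there is `d > 0` with `W g ≥ s - d → W (g x) ≥ s - e` for all `g`:
proved for all `x` by `Submonoid.closure_induction` exactly as in FL/A (support: `W g = ∑ nu y W (g y)`, all terms `≤ s`). Take `d` for `x = z`, `e = s / 2`, `d ≤ s / 2`.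
By `level` (contrapositive, with `s - d` in place of `s`) there is `g` with `g.pos = 0` and `W g > s - d`. Then `g z = z g` (positions `0`, lamps commute), so
`s / 2 ≤ W (g z) = W (z g) = - W g < - (s - d) ≤ - s / 2`. Contradiction. `ll_centered`: `h g = h ⟨0, g.pos⟩` by `left_inv` with `z = g * ⟨0, g.pos⟩⁻¹`;
`level_const` with `v k = h ⟨0, k⟩`.
-/

namespace Pool.Agent.H34.DA

open Pool.Agent.H34.LS Pool.Agent.H34.FL

private theorem m2_sh0 (l : ℤ →₀ ZMod 2) : LL.sh 0 l = l := by
  ext i
  rw [LL.sh_apply, sub_zero]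

private theorem m2_comm {z g : LL} (hz : z.pos = 0) (hg : g.pos = 0) : g * z = z * g := by
  ext1
  · rw [LL.mul_lamp, LL.mul_lamp, hz, hg, m2_sh0, m2_sh0, add_comm]
  · show g.pos + z.pos = z.pos + g.pos
    rw [add_comm]

private theorem m2_sq {z : LL} (hz : z.pos = 0) : z * z = 1 := by
  ext1
  · rw [LL.mul_lamp, hz, m2_sh0]
    ext i
    show z.lamp i + z.lamp i = 0
    generalize z.lamp i = a
    revert a
    decide
  · show z.pos + z.pos = 0
    rw [hz, add_zero]

/-- the propagation property of the points where a bounded harmonic function is almost maximal -/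
private theorem m2_prop {nu W : LL → ℝ} (hp : IsProb nu) (hg : Generating nu) (hW : BddHarm nu W)
    {s : ℝ} (hs : ∀ g, W g ≤ s) (x : LL) : ∀ e : ℝ, 0 < e → ∃ d : ℝ, 0 < d ∧
      ∀ g, s - d ≤ W g → s - e ≤ W (g * x) := by
  obtain ⟨-, hh⟩ := hW
  obtain ⟨hpos, hsum⟩ := hp
  have hx : x ∈ Submonoid.closure (Function.support nu) := by
    rw [show Submonoid.closure (Function.support nu) = ⊤ from hg]
    exact Submonoid.mem_top x
  induction hx using Submonoid.closure_induction with
  | mem x hx =>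
    intro e he
    have hxp : 0 < nu x := lt_of_le_of_ne (hpos x) (Ne.symm hx)
    refine ⟨nu x * e, by positivity, ?_⟩
    intro g h3
    have h4 : HasSum (fun y => nu y * (s - W (g * y))) (1 * s - W g) := by
      refine ((hsum.mul_right s).sub (hh g)).congr_fun ?_
      intro y
      ring
    have h5 : ∀ y, 0 ≤ nu y * (s - W (g * y)) := fun y =>
      mul_nonneg (hpos y) (by linarith [hs (g * y)])
    have h6 := le_hasSum h4 x fun y _ => h5 y
    have h7 : nu x * (s - W (g * x)) ≤ nu x * e := by linarith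
    have h8 := le_of_mul_le_mul_left h7 hxp
    linarith
  | one =>
    intro e he
    refine ⟨e, he, ?_⟩
    intro g h3
    rwa [mul_one]
  | mul x y _ _ ihx ihy =>
    intro e he
    obtain ⟨d1, hd1, h1⟩ := ihy e he
    obtain ⟨d, hd, h2⟩ := ihx d1 hd1
    refine ⟨d, hd, ?_⟩
    intro g h3
    have h4 := h1 (g * x) (h2 g h3)
    rwa [← mul_assoc]

private theorem m2_le {nu : LL → ℝ} (hp : IsProb nu) (hg : Generating nu)
    (h0 : HasSum (fun x : LL => nu x * (x.pos : ℝ)) 0) {h : LL → ℝ} (hh : BddHarm nu h) {z : LL}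
    (hz : z.pos = 0) (g : LL) : h (z * g) ≤ h g := by
  obtain ⟨⟨C, hC⟩, hhs⟩ := id hh
  set W : LL → ℝ := fun g => h (z * g) - h g with hWdef
  have hWb : ∀ g, |W g| ≤ 2 * C := by
    intro g
    have h1 := abs_le.1 (hC (z * g))
    have h2 := abs_le.1 (hC g)
    rw [abs_le]
    constructor
    · show -(2 * C) ≤ h (z * g) - h g
      linarith [h1.1, h2.2]
    · show h (z * g) - h g ≤ 2 * C
      linarith [h1.2, h2.1]
  have hW : BddHarm nu W := by
    refine ⟨⟨2 * C, hWb⟩, fun g => ?_⟩
    refine ((hhs (z * g)).sub (hhs g)).congr_fun ?_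
    intro y
    show nu y * (h (z * (g * y)) - h (g * y)) = nu y * h (z * g * y) - nu y * h (g * y)
    rw [mul_assoc, mul_sub]
  have hbd : BddAbove (Set.range W) := ⟨2 * C, by
    rintro _ ⟨g, rfl⟩
    exact (abs_le.1 (hWb g)).2⟩
  set s : ℝ := sSup (Set.range W) with hs
  have hle : ∀ g, W g ≤ s := fun g => le_csSup hbd ⟨g, rfl⟩
  have hneg : ∀ g, W (z * g) = - W g := by
    intro g
    show h (z * (z * g)) - h (z * g) = -(h (z * g) - h g)
    rw [← mul_assoc, m2_sq hz, one_mul]
    ring
  have hs0 : s ≤ 0 := by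
    by_contra hc
    rw [not_le] at hc
    obtain ⟨d, hd, hP⟩ := m2_prop hp hg hW hle z (s / 2) (by linarith)
    set d' : ℝ := min d (s / 2) with hd'
    have hd'0 : 0 < d' := lt_min hd (by linarith)
    have hex : ∃ g : LL, g.pos = 0 ∧ s - d' < W g := by
      by_contra hno
      push Not at hno
      have h1 : ∀ g, W g ≤ s - d' := level hp hg h0 hW hno
      have h3 : s ≤ s - d' := csSup_le ⟨_, 1, rfl⟩ (by
        rintro _ ⟨g, rfl⟩
        exact h1 g)
      linarith
    obtain ⟨g, hg0, hgW⟩ := hex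
    have h3 := hP g (by linarith [min_le_left d (s / 2)])
    rw [m2_comm hz hg0, hneg] at h3
    have h4 := min_le_right d (s / 2)
    linarith
  have := hle g
  have h3 : h (z * g) - h g ≤ s := this
  linarith

theorem left_inv {nu : LL → ℝ} (hp : IsProb nu) (hg : Generating nu)
    (h0 : HasSum (fun x : LL => nu x * (x.pos : ℝ)) 0) {h : LL → ℝ} (hh : BddHarm nu h) {z : LL}
    (hz : z.pos = 0) (g : LL) : h (z * g) = h g := by
  refine le_antisymm (m2_le hp hg h0 hh hz g) ?_
  have h1 := m2_le hp hg h0 hh hz (z * g)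
  rwa [← mul_assoc, m2_sq hz, one_mul] at h1

theorem ll_centered {nu : LL → ℝ} (hp : IsProb nu) (hg : Generating nu)
    (h0 : HasSum (fun x : LL => nu x * (x.pos : ℝ)) 0) : Liouville nu := by
  intro f hf x y
  have h1 : ∀ g : LL, f g = f ⟨0, g.pos⟩ := by
    intro g
    have e : g = g * (⟨0, g.pos⟩ : LL)⁻¹ * ⟨0, g.pos⟩ := by group
    have hz : (g * (⟨0, g.pos⟩ : LL)⁻¹).pos = 0 := by
      show g.pos + -g.pos = 0
      ring
    have h3 := left_inv hp hg h0 hf hz ⟨0, g.pos⟩
    rwa [← e] at h3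
  have h3 : (fun g : LL => (fun k : ℤ => f ⟨0, k⟩) g.pos) = f := by
    funext g
    exact (h1 g).symm
  have h4 : BddHarm nu (fun g : LL => (fun k : ℤ => f ⟨0, k⟩) g.pos) := by
    rw [h3]
    exact hf
  rw [h1 x, h1 y]
  exact level_const (v := fun k : ℤ => f ⟨0, k⟩) hp hg h0 h4 x.pos y.pos

end Pool.Agent.H34.DA
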