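import Pool.Agent.H34.DA.P1a

/-!
P1b: the sum of the left tails of a law on `ℤ`: `∑_{n ≥ 1} q (-∞, -n] = ∑_j q j * max (-j) 0`.
-/

namespace Pool.Agent.H34.DA

open Pool.Agent.H34.LS Pool.Agent.H34.FL

private theorem p1b_fib (q : ℤ → ℝ) (j : ℤ) :
    HasSum (fun n : ℕ => if j ≤ -((n + 1 : ℕ) : ℤ) then q j else 0) (q j * max (-(j : ℝ)) 0) := by
  have h0 : HasSum (fun n : ℕ => if j ≤ -((n + 1 : ℕ) : ℤ) then q j else 0)
      (∑ n ∈ Finset.range (Int.toNat (-j)), if j ≤ -((n + 1 : ℕ) : ℤ) then q j else 0) := by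
    refine hasSum_sum_of_ne_finset_zero fun n hn => ?_
    rw [Finset.mem_range, not_lt] at hn
    rw [if_neg]
    intro h
    have h1 : -j ≤ (n : ℤ) := Int.toNat_le.1 hn
    push_cast at h
    omega
  have h2 : (∑ n ∈ Finset.range (Int.toNat (-j)), if j ≤ -((n + 1 : ℕ) : ℤ) then q j else 0) =
      q j * max (-(j : ℝ)) 0 := by
    have h3 : ∀ n ∈ Finset.range (Int.toNat (-j)),
        (if j ≤ -((n + 1 : ℕ) : ℤ) then q j else 0) = q j := by
      intro n hn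
      rw [Finset.mem_range] at hn
      rw [if_pos]
      have h4 : (n : ℤ) < -j := Int.lt_toNat.1 hn
      push_cast
      omega
    rw [Finset.sum_congr rfl h3, Finset.sum_const, Finset.card_range, nsmul_eq_mul, mul_comm]
    congr 1
    have h5 : ((Int.toNat (-j) : ℕ) : ℤ) = max (-j) 0 := Int.toNat_eq_max (-j)
    have h6 : (((Int.toNat (-j) : ℕ) : ℤ) : ℝ) = ((max (-j) 0 : ℤ) : ℝ) := by rw [h5]
    push_cast at h6
    exact h6
  rw [← h2]
  exact h0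

theorem tl_sum2 {q : ℤ → ℝ} (hq : IsProb q) {m : ℝ} (h1 : HasSum (fun j : ℤ => q j * (j : ℝ)) m) :
    HasSum (fun n : ℕ => tl q (n + 1)) (∑' j : ℤ, q j * max (-(j : ℝ)) 0) := by
  have h2 : Summable fun j : ℤ => q j * max (-(j : ℝ)) 0 := by
    refine Summable.of_norm_bounded (g := fun j : ℤ => |q j * (j : ℝ)|) h1.summable.abs
      fun j => ?_
    rw [Real.norm_eq_abs, abs_mul, abs_mul]
    refine mul_le_mul_of_nonneg_left ?_ (abs_nonneg _)
    rw [abs_of_nonneg (le_max_right _ _)]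
    exact max_le (neg_le_abs _) (abs_nonneg _)
  have h3 : ∀ p : ℤ × ℕ, 0 ≤ (if p.1 ≤ -((p.2 + 1 : ℕ) : ℤ) then q p.1 else 0) := by
    intro p
    split_ifs
    · exact hq.1 _
    · exact le_rfl
  have h4 : Summable fun p : ℤ × ℕ => if p.1 ≤ -((p.2 + 1 : ℕ) : ℤ) then q p.1 else 0 := by
    rw [summable_prod_of_nonneg h3]
    refine ⟨fun j => (p1b_fib q j).summable, ?_⟩
    have h5 : (fun j : ℤ => ∑' n : ℕ, if j ≤ -((n + 1 : ℕ) : ℤ) then q j else 0) =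
        fun j : ℤ => q j * max (-(j : ℝ)) 0 := funext fun j => (p1b_fib q j).tsum_eq
    change Summable fun j : ℤ => ∑' n : ℕ, if j ≤ -((n + 1 : ℕ) : ℤ) then q j else 0
    rw [h5]
    exact h2
  have h6 : HasSum (fun j : ℤ => q j * max (-(j : ℝ)) 0)
      (∑' p : ℤ × ℕ, if p.1 ≤ -((p.2 + 1 : ℕ) : ℤ) then q p.1 else 0) :=
    HasSum.prod_fiberwise h4.hasSum fun j => p1b_fib q j
  rw [h6.tsum_eq]
  have h7 : HasSum ((fun p : ℤ × ℕ => if p.1 ≤ -((p.2 + 1 : ℕ) : ℤ) then q p.1 else 0) ∘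
      (Equiv.prodComm ℕ ℤ))
      (∑' p : ℤ × ℕ, if p.1 ≤ -((p.2 + 1 : ℕ) : ℤ) then q p.1 else 0) :=
    (Equiv.prodComm ℕ ℤ).hasSum_iff.2 h4.hasSum
  refine HasSum.prod_fiberwise h7 fun n => ?_
  change HasSum (fun j : ℤ => if j ≤ -((n + 1 : ℕ) : ℤ) then q j else 0) (tl q (n + 1))
  have h8 : Summable fun j : ℤ => if j ≤ -((n + 1 : ℕ) : ℤ) then q j else 0 := by
    refine Summable.of_nonneg_of_le (fun j => h3 (j, n)) (fun j => ?_) hq.2.summable
    split_ifs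
    · exact le_rfl
    · exact hq.1 _
  exact h8.hasSum

end Pool.Agent.H34.DA
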