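import Pool.Agent.H34.DA.P1a
import Pool.Agent.H34.DA.P1b

/-!
P1: left tails of a law on `ℤ` (proofs in P1a, P1b).
-/

namespace Pool.Agent.H34.DA

open Pool.Agent.H34.LS Pool.Agent.H34.FL

theorem tl_sum {q : ℤ → ℝ} (hq : IsProb q) {m : ℝ} (h1 : HasSum (fun j : ℤ => q j * (j : ℝ)) m) :
    HasSum (fun n : ℕ => tl q (n + 1)) (∑' j : ℤ, q j * max (-(j : ℝ)) 0) :=
  tl_sum2 hq h1

end Pool.Agent.H34.DA
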