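import Pool.Agent.H34.DA.Defs

/-!
P1a: left tails of a law on `ℤ`. `tl q n = q (-∞, -n]`: definition, nonnegativity, monotonicity.
-/

namespace Pool.Agent.H34.DA

open Pool.Agent.H34.LS Pool.Agent.H34.FL

/-- left tail of `q`. -/
noncomputable def tl (q : ℤ → ℝ) (n : ℕ) : ℝ := ∑' j : ℤ, if j ≤ -(n : ℤ) then q j else 0

private lemma p1a_summable {q : ℤ → ℝ} (hq : IsProb q) (n : ℕ) :
    Summable fun j : ℤ => if j ≤ -(n : ℤ) then q j else 0 := by
  refine Summable.of_nonneg_of_le (fun j => ?_) (fun j => ?_) hq.2.summable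
  · split_ifs
    · exact hq.1 j
    · exact le_rfl
  · split_ifs
    · exact le_rfl
    · exact hq.1 j

theorem tl_nonneg {q : ℤ → ℝ} (hq : IsProb q) (n : ℕ) : 0 ≤ tl q n := by
  refine tsum_nonneg fun j => ?_
  split_ifs
  · exact hq.1 j
  · exact le_rfl

theorem tl_anti {q : ℤ → ℝ} (hq : IsProb q) : Antitone (tl q) := by
  intro m n hmn
  refine Summable.tsum_le_tsum (fun j => ?_) (p1a_summable hq n) (p1a_summable hq m)
  have hmn' : (m : ℤ) ≤ n := by exact_mod_cast hmn
  split_ifs with h1 h2 h2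
  · exact le_rfl
  · omega
  · exact hq.1 j
  · exact le_rfl

end Pool.Agent.H34.DA
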