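import Pool.Agent.H34.DA.P2a

/-!
P2b: `rr q p` is summable. By induction on `N`: `∑_{u ≤ N} rr u + 2 * (numerator N) / (N + 1) ≤ 2 + 4 ∑_{w < N} tl q ((w+1)/p)`, and
`∑_{w < p N} tl q ((w+1)/p) ≤ p ∑_{n < N} tl q n`.
-/

namespace Pool.Agent.H34.DA

open Pool.Agent.H34.LS Pool.Agent.H34.FL

/-- the numerator of `rr` -/
private noncomputable def p2b_num (q : ℤ → ℝ) (p u : ℕ) : ℝ :=
  1 + ∑ w ∈ Finset.range u, (2 * (w : ℝ) + 1) * tl q ((w + 1) / p)

private theorem p2b_num_nonneg {q : ℤ → ℝ} (hq : IsProb q) (p u : ℕ) : 0 ≤ p2b_num q p u := by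
  have h1 : 0 ≤ ∑ w ∈ Finset.range u, (2 * (w : ℝ) + 1) * tl q ((w + 1) / p) :=
    Finset.sum_nonneg fun w _ => mul_nonneg (by positivity) (tl_nonneg hq _)
  unfold p2b_num
  linarith

private theorem p2b_rr (q : ℤ → ℝ) (p u : ℕ) : rr q p u = p2b_num q p u / (u : ℝ) ^ 2 := rfl

private theorem p2b_ind {q : ℤ → ℝ} (hq : IsProb q) (p N : ℕ) :
    ∑ u ∈ Finset.range (N + 1), rr q p u + 2 * p2b_num q p N / (N + 1) ≤
      2 + 4 * ∑ w ∈ Finset.range N, tl q ((w + 1) / p) := by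
  induction N with
  | zero =>
    have h1 : rr q p 0 = 0 := by
      rw [p2b_rr]
      simp
    have h2 : p2b_num q p 0 = 1 := by simp [p2b_num]
    simp [h1, h2]
  | succ N ih =>
    rw [Finset.sum_range_succ, Finset.sum_range_succ (fun w => tl q ((w + 1) / p)) N]
    have h1 : p2b_num q p (N + 1) = p2b_num q p N + (2 * (N : ℝ) + 1) * tl q ((N + 1) / p) := by
      unfold p2b_num
      rw [Finset.sum_range_succ]
      ring
    have h2 : 0 ≤ p2b_num q p (N + 1) := p2b_num_nonneg hq p (N + 1)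
    have h3 : 0 ≤ tl q ((N + 1) / p) := tl_nonneg hq _
    set x := p2b_num q p (N + 1) with hx
    set t := tl q ((N + 1) / p) with ht
    have h4 : p2b_num q p N = x - (2 * (N : ℝ) + 1) * t := by linarith
    rw [h4] at ih
    rw [p2b_rr q p (N + 1), ← hx]
    have hN : (0 : ℝ) < (N : ℝ) + 1 := by positivity
    have hN2 : (0 : ℝ) < (N : ℝ) + 2 := by positivity
    push_cast
    -- the two elementary inequalities
    have h5 : x / ((N : ℝ) + 1) ^ 2 + 2 * x / ((N : ℝ) + 1 + 1) ≤ 2 * x / ((N : ℝ) + 1) := by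
      have h6 : 2 * x / ((N : ℝ) + 1) - (x / ((N : ℝ) + 1) ^ 2 + 2 * x / ((N : ℝ) + 1 + 1)) =
          x * N / (((N : ℝ) + 1) ^ 2 * ((N : ℝ) + 1 + 1)) := by
        have h7 : (N : ℝ) + 1 + 1 ≠ 0 := by positivity
        field_simp
        ring
      have h8 : 0 ≤ x * N / (((N : ℝ) + 1) ^ 2 * ((N : ℝ) + 1 + 1)) := by positivity
      linarith
    have h9 : 2 * (x - (2 * (N : ℝ) + 1) * t) / ((N : ℝ) + 1) = 2 * x / ((N : ℝ) + 1) - 4 * t + 2 * t / ((N : ℝ) + 1) := by
      field_simp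
      ring
    have h10 : 0 ≤ 2 * t / ((N : ℝ) + 1) := by positivity
    rw [h9] at ih
    linarith

private theorem p2b_blk {q : ℤ → ℝ} (hq : IsProb q) {p : ℕ} (hp : 1 ≤ p) (M : ℕ) :
    ∑ w ∈ Finset.range (p * M), tl q ((w + 1) / p) ≤ p * ∑ n ∈ Finset.range M, tl q n := by
  induction M with
  | zero => simp
  | succ M ih =>
    rw [Nat.mul_succ, Finset.sum_range_add, Finset.sum_range_succ, mul_add]
    refine add_le_add ih ?_
    calc ∑ i ∈ Finset.range p, tl q ((p * M + i + 1) / p) ≤ ∑ _i ∈ Finset.range p, tl q M := by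
          refine Finset.sum_le_sum fun i _ => tl_anti hq ?_
          rw [Nat.le_div_iff_mul_le (by omega)]
          nlinarith
      _ = p * tl q M := by rw [Finset.sum_const, Finset.card_range, nsmul_eq_mul]

theorem rr_summable2 {q : ℤ → ℝ} (hq : IsProb q) {m : ℝ}
    (h1 : HasSum (fun j : ℤ => q j * (j : ℝ)) m) {p : ℕ} (hp : 1 ≤ p) : Summable (rr q p) := by
  have hs : Summable (tl q) := (summable_nat_add_iff 1).1 (tl_sum hq h1).summable
  refine summable_of_sum_range_le (c := 2 + 4 * (p * ∑' n, tl q n)) (fun u => ?_) fun N => ?_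
  · rw [p2b_rr]
    exact div_nonneg (p2b_num_nonneg hq p u) (by positivity)
  · have h2 := p2b_ind hq p N
    have h3 : 0 ≤ 2 * p2b_num q p N / ((N : ℝ) + 1) :=
      div_nonneg (mul_nonneg zero_le_two (p2b_num_nonneg hq p N)) (by positivity)
    have h4 : ∑ w ∈ Finset.range N, tl q ((w + 1) / p) ≤ ∑ w ∈ Finset.range (p * N), tl q ((w + 1) / p) :=
      Finset.sum_le_sum_of_subset_of_nonneg (Finset.range_mono (Nat.le_mul_of_pos_left N (by omega)))
        fun w _ _ => tl_nonneg hq _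
    have h5 := p2b_blk hq hp N
    have h6 : ∑ n ∈ Finset.range N, tl q n ≤ ∑' n, tl q n :=
      hs.sum_le_tsum _ fun n _ => tl_nonneg hq n
    have h7 : (p : ℝ) * ∑ n ∈ Finset.range N, tl q n ≤ p * ∑' n, tl q n :=
      mul_le_mul_of_nonneg_left h6 (by positivity)
    have h8 : ∑ u ∈ Finset.range N, rr q p u ≤ ∑ u ∈ Finset.range (N + 1), rr q p u := by
      rw [Finset.sum_range_succ, p2b_rr q p N]
      have : 0 ≤ p2b_num q p N / (N : ℝ) ^ 2 := div_nonneg (p2b_num_nonneg hq p N) (by positivity)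
      linarith
    linarith

end Pool.Agent.H34.DA
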