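import Pool.Agent.H34.DA.P2a
import Pool.Agent.H34.DA.P2b

/-!
P2: weighted averages of the left tails (proofs in P2a, P2b).
-/

namespace Pool.Agent.H34.DA

open Pool.Agent.H34.LS Pool.Agent.H34.FL

theorem rr_summable {q : ℤ → ℝ} (hq : IsProb q) {m : ℝ}
    (h1 : HasSum (fun j : ℤ => q j * (j : ℝ)) m) {p : ℕ} (hp : 1 ≤ p) : Summable (rr q p) :=
  rr_summable2 hq h1 hp

end Pool.Agent.H34.DA
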