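import Pool.Agent.H34.DA.P1

/-!
P2a: weighted averages of the left tails: `rr_pos`, `rr_ge`, `rr_anti`, `rr_sq` (see DA/P2).
-/

namespace Pool.Agent.H34.DA

open Pool.Agent.H34.LS Pool.Agent.H34.FL

/-- weighted averages of the left tails. -/
noncomputable def rr (q : ℤ → ℝ) (p u : ℕ) : ℝ :=
  (1 + ∑ w ∈ Finset.range u, (2 * (w : ℝ) + 1) * tl q ((w + 1) / p)) / (u : ℝ) ^ 2

private lemma p2a_nonneg {q : ℤ → ℝ} (hq : IsProb q) (p w : ℕ) :
    0 ≤ (2 * (w : ℝ) + 1) * tl q ((w + 1) / p) :=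
  mul_nonneg (by positivity) (tl_nonneg hq _)

private lemma p2a_sum (u : ℕ) :
    ∑ w ∈ Finset.range u, (2 * (w : ℝ) + 1) = (u : ℝ) ^ 2 := by
  induction u with
  | zero => simp
  | succ n ih =>
    rw [Finset.sum_range_succ, ih]
    push_cast
    ring

private lemma p2a_ge {q : ℤ → ℝ} (hq : IsProb q) (p u : ℕ) :
    (u : ℝ) ^ 2 * tl q (u / p) ≤
      ∑ w ∈ Finset.range u, (2 * (w : ℝ) + 1) * tl q ((w + 1) / p) := by
  rw [← p2a_sum, Finset.sum_mul]
  refine Finset.sum_le_sum fun w hw => ?_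
  refine mul_le_mul_of_nonneg_left ?_ (by positivity)
  refine tl_anti hq ?_
  exact Nat.div_le_div_right (Finset.mem_range.1 hw)

theorem rr_pos {q : ℤ → ℝ} (hq : IsProb q) {p u : ℕ} (hu : 1 ≤ u) : 0 < rr q p u := by
  unfold rr
  have h1 : 0 ≤ ∑ w ∈ Finset.range u, (2 * (w : ℝ) + 1) * tl q ((w + 1) / p) :=
    Finset.sum_nonneg fun w _ => p2a_nonneg hq p w
  have h2 : (0 : ℝ) < u := by exact_mod_cast hu
  positivity

theorem rr_ge {q : ℤ → ℝ} (hq : IsProb q) {p u : ℕ} (hu : 1 ≤ u) : tl q (u / p) ≤ rr q p u := by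
  unfold rr
  have h2 : (0 : ℝ) < u := by exact_mod_cast hu
  rw [le_div_iff₀ (by positivity)]
  have h3 := p2a_ge hq p u
  linarith

private lemma p2a_step {q : ℤ → ℝ} (hq : IsProb q) {p u : ℕ} (hu : 1 ≤ u) :
    rr q p (u + 1) ≤ rr q p u := by
  unfold rr
  have h2 : (0 : ℝ) < u := by exact_mod_cast hu
  have h3 := p2a_ge hq p u
  have h4 : tl q ((u + 1) / p) ≤ tl q (u / p) :=
    tl_anti hq (Nat.div_le_div_right (Nat.le_succ u))
  rw [Finset.sum_range_succ]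
  set A := ∑ w ∈ Finset.range u, (2 * (w : ℝ) + 1) * tl q ((w + 1) / p) with hA
  set t := tl q ((u + 1) / p) with ht
  have h5 : (u : ℝ) ^ 2 * t ≤ A :=
    le_trans (mul_le_mul_of_nonneg_left h4 (by positivity)) h3
  rw [div_le_div_iff₀ (by positivity) (by positivity)]
  push_cast
  nlinarith [mul_le_mul_of_nonneg_left h5 (show (0 : ℝ) ≤ 2 * (u : ℝ) + 1 by positivity)]

theorem rr_anti {q : ℤ → ℝ} (hq : IsProb q) {p u v : ℕ} (hu : 1 ≤ u) (huv : u ≤ v) :
    rr q p v ≤ rr q p u := by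
  induction v, huv using Nat.le_induction with
  | base => exact le_refl _
  | succ n hn ih => exact le_trans (p2a_step hq (le_trans hu hn)) ih

theorem rr_sq {q : ℤ → ℝ} (hq : IsProb q) {p u v : ℕ} (hu : 1 ≤ u) (huv : u ≤ v) :
    (u : ℝ) ^ 2 * rr q p u ≤ (v : ℝ) ^ 2 * rr q p v := by
  unfold rr
  have h2 : (0 : ℝ) < u := by exact_mod_cast hu
  have h3 : (0 : ℝ) < v := by exact_mod_cast le_trans hu huv
  rw [mul_div_cancel₀ _ (by positivity), mul_div_cancel₀ _ (by positivity)]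
  have h4 : ∑ w ∈ Finset.range u, (2 * (w : ℝ) + 1) * tl q ((w + 1) / p) ≤
      ∑ w ∈ Finset.range v, (2 * (w : ℝ) + 1) * tl q ((w + 1) / p) :=
    Finset.sum_le_sum_of_subset_of_nonneg (Finset.range_mono huv)
      fun w _ _ => p2a_nonneg hq p w
  linarith

end Pool.Agent.H34.DA
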