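import Pool.Agent.H34.DA.P2

/-!
P3: choice of the constants. `b = ∑' q j * max (-j) 0` (mean of the negative part), `a R = ∑' q j * min (max j 0) R`. `a R → ∑' q j * max j 0 = m + b > b` as `R → ∞` (dominated convergence,
`tendsto_tsum_of_dominated_convergence` with bound `|q j * j|`; for fixed `j` eventually constant), so `a R > b` for some `R ≥ 1`. Then `(p/(p-1))^2 → 1` gives `p ≥ 2` with `b (p/(p-1))^2 < a R`, and for `K → ∞`
`((K+R)/K)^2 (b (p/(p-1))^2 + ∑_{i ≥ K} rr i) → b (p/(p-1))^2` (tails of a summable series: `tendsto_sum_nat_add`). `c = b (p/(p-1))^2`.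
-/

namespace Pool.Agent.H34.DA

open Pool.Agent.H34.LS Pool.Agent.H34.FL Filter Topology

private theorem p3_abs_le {q : ℤ → ℝ} (hq : IsProb q) (j : ℤ) {t : ℝ} (h0 : 0 ≤ t)
    (ht : t ≤ |(j : ℝ)|) : ‖q j * t‖ ≤ |q j * (j : ℝ)| := by
  rw [Real.norm_eq_abs, abs_mul, abs_mul, abs_of_nonneg h0]
  exact mul_le_mul_of_nonneg_left ht (abs_nonneg _)

theorem consts {q : ℤ → ℝ} (hq : IsProb q) {m : ℝ} (hm : 0 < m)
    (h1 : HasSum (fun j : ℤ => q j * (j : ℝ)) m) :
    ∃ R p K : ℕ, 1 ≤ R ∧ 2 ≤ p ∧ 1 ≤ K ∧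
      (((K : ℝ) + R) / K) ^ 2 * ((∑' j : ℤ, q j * max (-(j : ℝ)) 0) * ((p : ℝ) / (p - 1)) ^ 2 +
        ∑' i : ℕ, rr q p (i + K)) ≤ ∑' j : ℤ, q j * min (max (j : ℝ) 0) R := by
  have habs : Summable fun j : ℤ => |q j * (j : ℝ)| := h1.summable.abs
  have hP : Summable fun j : ℤ => q j * max (j : ℝ) 0 :=
    Summable.of_norm_bounded habs fun j =>
      p3_abs_le hq j (le_max_right _ _) (max_le (le_abs_self _) (abs_nonneg _))
  have hN : Summable fun j : ℤ => q j * max (-(j : ℝ)) 0 :=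
    Summable.of_norm_bounded habs fun j =>
      p3_abs_le hq j (le_max_right _ _) (max_le (neg_le_abs _) (abs_nonneg _))
  set b : ℝ := ∑' j : ℤ, q j * max (-(j : ℝ)) 0 with hb
  have hPN : ∑' j : ℤ, q j * max (j : ℝ) 0 = m + b := by
    rw [hb, ← h1.tsum_eq, ← h1.summable.tsum_add hN]
    refine tsum_congr fun j => ?_
    rw [← mul_add]
    congr 1
    rcases le_total (j : ℝ) 0 with h | h
    · rw [max_eq_right h, max_eq_left (neg_nonneg.2 h)]
      ring
    · rw [max_eq_left h, max_eq_right (neg_nonpos.2 h)]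
      ring
  have hR : Tendsto (fun R : ℕ => ∑' j : ℤ, q j * min (max (j : ℝ) 0) R) atTop
      (𝓝 (∑' j : ℤ, q j * max (j : ℝ) 0)) := by
    refine tendsto_tsum_of_dominated_convergence habs (fun j => ?_)
      (Eventually.of_forall fun R j => ?_)
    · refine tendsto_const_nhds.congr' ?_
      filter_upwards [eventually_ge_atTop ⌈max (j : ℝ) 0⌉₊] with R hR
      rw [min_eq_left ((Nat.le_ceil _).trans (by exact_mod_cast hR))]
    · exact p3_abs_le hq j (le_min (le_max_right _ _) (Nat.cast_nonneg _))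
        ((min_le_left _ _).trans (max_le (le_abs_self _) (abs_nonneg _)))
  rw [hPN] at hR
  obtain ⟨R, hR1, hRb⟩ := ((eventually_ge_atTop 1).and
    (hR.eventually_const_lt (show b < m + b by linarith))).exists
  have hp : Tendsto (fun p : ℕ => b * ((p : ℝ) / (p - 1)) ^ 2) atTop (𝓝 (b * 1 ^ 2)) := by
    refine ((?_ : Tendsto (fun p : ℕ => (p : ℝ) / (p - 1)) atTop (𝓝 1)).pow 2).const_mul b
    have h2 := tendsto_natCast_div_add_atTop (-1 : ℝ)
    simpa only [sub_eq_add_neg] using h2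
  obtain ⟨p, hp2, hpb⟩ := ((eventually_ge_atTop 2).and
    (hp.eventually_lt_const (show b * 1 ^ 2 < ∑' j : ℤ, q j * min (max (j : ℝ) 0) R by
      rwa [one_pow, mul_one]))).exists
  have hK : Tendsto (fun K : ℕ => (((K : ℝ) + R) / K) ^ 2 * (b * ((p : ℝ) / (p - 1)) ^ 2 +
      ∑' i : ℕ, rr q p (i + K))) atTop (𝓝 (1 ^ 2 * (b * ((p : ℝ) / (p - 1)) ^ 2 + 0))) := by
    refine Tendsto.mul (Tendsto.pow ?_ 2) (tendsto_const_nhds.add (tendsto_sum_nat_add _))
    have h2 : Tendsto (fun K : ℕ => 1 + (R : ℝ) / K) atTop (𝓝 (1 + 0)) :=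
      tendsto_const_nhds.add (tendsto_const_div_atTop_nhds_zero_nat _)
    rw [add_zero] at h2
    refine h2.congr' ?_
    filter_upwards [eventually_ge_atTop 1] with K hK
    have : (K : ℝ) ≠ 0 := by
      have : 0 < K := hK
      positivity
    field_simp
  obtain ⟨K, hK1, hKb⟩ := ((eventually_ge_atTop 1).and
    (hK.eventually_lt_const (show 1 ^ 2 * (b * ((p : ℝ) / (p - 1)) ^ 2 + 0) <
      ∑' j : ℤ, q j * min (max (j : ℝ) 0) R by rwa [one_pow, one_mul, add_zero]))).exists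
  exact ⟨R, p, K, hR1, hp2, hK1, hKb.le⟩

end Pool.Agent.H34.DA
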