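import Pool.Agent.H34.DA.P3

/-!
P4: `gg K r k = ∑' i, r (i + max k K)` (tail sum of `r` from `max k K` on; `k : ℤ`, as a natural number `(max k K).toNat`). Differences: for `k ≥ K` (write `k : ℕ`) and `n : ℕ`:
`gg (k + n) - gg k = - ∑_{i < n} r (k + i)` and `gg (k - n) - gg k = ∑_{l < n} (if K ≤ k - (l+1) then r (k - (l+1)) else 0)` (integers; `Summable.sum_add_tsum_nat_add`, induction on `n`).
`gg_super`: for `k < K` and `k = K` `gg` is maximal, so `P gg ≤ gg` (`gg_le`). For `k ≥ K`: `gg (k + j) - gg k ≤ - min (max j 0) R * r (k + R) + ∑_{l < toNat (-j)} (if K + l + 1 ≤ k then r (k - (l+1)) else 0)`; sum with the weights `q j`: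
`P gg k - gg k ≤ - a r (k + R) + ∑_{l : K + l + 1 ≤ k} tl q (l + 1) r (k - (l+1))` (exchange of a finite sum over `l < k` with the sum over `j`; `∑' j, q j [j ≤ -(l+1)] = tl q (l + 1)`). For `l + 1 ≤ k / p` (natural quotient):
`r (k - (l+1)) ≤ r k (k / (k - (l+1)))^2 ≤ r k (p/(p-1))^2` (`rr_sq`), total at most `b (p/(p-1))^2 r k` (`tl_sum`); for `l + 1 > k / p`: `tl q (l + 1) ≤ tl q (k / p) ≤ r k` (`rr_ge`) and `∑ r (k - (l+1)) ≤ ∑' i, r (i + K)`. And
`r k ≤ r (k + R) ((k+R)/k)^2 ≤ r (k + R) ((K+R)/K)^2`. So `P gg k - gg k ≤ r (k+R) (-a + ((K+R)/K)^2 (b (p/(p-1))^2 + ∑' r (i + K))) ≤ 0` by the hypothesis `hc` (the conclusion of `consts`). Here `r = rr q p`.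
-/

namespace Pool.Agent.H34.DA

open Pool.Agent.H34.LS Pool.Agent.H34.FL

/-- the tail sums of `r` from `max k K` on. -/
noncomputable def gg (K : ℕ) (r : ℕ → ℝ) (k : ℤ) : ℝ := ∑' i : ℕ, r (i + (max k K).toNat)

private theorem p4_gg_nat {K : ℕ} (r : ℕ → ℝ) (k : ℕ) (hk : K ≤ k) :
    gg K r (k : ℤ) = ∑' i : ℕ, r (i + k) := by
  have h : (max (k : ℤ) (K : ℤ)).toNat = k := by omega
  rw [gg, h]

/-- the decrease over `n` steps to the right. -/
theorem gg_right {K : ℕ} {r : ℕ → ℝ} (hr : Summable r) (k n : ℕ) (hk : K ≤ k) :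
    gg K r ((k : ℤ) + n) = gg K r k - ∑ i ∈ Finset.range n, r (k + i) := by
  have h0 : ((k : ℤ) + n) = ((k + n : ℕ) : ℤ) := by push_cast; ring
  rw [h0, p4_gg_nat r (k + n) (by omega), p4_gg_nat r k hk]
  have h1 : Summable fun i : ℕ => r (i + k) := (summable_nat_add_iff k).2 hr
  have h2 := h1.sum_add_tsum_nat_add n
  have h3 : ∑ i ∈ Finset.range n, r (i + k) = ∑ i ∈ Finset.range n, r (k + i) :=
    Finset.sum_congr rfl fun i _ => by rw [add_comm]
  have h4 : ∑' i : ℕ, r (i + n + k) = ∑' i : ℕ, r (i + (k + n)) :=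
    tsum_congr fun i => by congr 1; ring
  rw [h3, h4] at h2
  linarith

/-- the increase over `n` steps to the left. -/
theorem gg_left {K : ℕ} {r : ℕ → ℝ} (hr : Summable r) (k n : ℕ) (hk : K ≤ k) :
    gg K r ((k : ℤ) - n) =
      gg K r k + ∑ l ∈ Finset.range n, (if K + l + 1 ≤ k then r (k - (l + 1)) else 0) := by
  induction n with
  | zero => simp
  | succ n ih =>
    rw [Finset.sum_range_succ, ← add_assoc, ← ih]
    by_cases h : K + n + 1 ≤ k
    · rw [if_pos h]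
      have h1 := gg_right hr (k - (n + 1)) 1 (show K ≤ k - (n + 1) by omega)
      have h2 : (((k - (n + 1) : ℕ) : ℤ) + (1 : ℕ)) = (k : ℤ) - n := by
        rw [Nat.cast_sub (by omega : n + 1 ≤ k)]
        push_cast
        ring
      have h3 : (k : ℤ) - ((n + 1 : ℕ) : ℤ) = ((k - (n + 1) : ℕ) : ℤ) := by
        rw [Nat.cast_sub (by omega : n + 1 ≤ k)]
      rw [h2] at h1
      rw [h3, h1, Finset.sum_range_one, add_zero]
      ring
    · rw [if_neg h, add_zero]
      have h4 : (max ((k : ℤ) - ((n + 1 : ℕ) : ℤ)) (K : ℤ)).toNat = (max ((k : ℤ) - (n : ℤ)) (K : ℤ)).toNat := by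
        push_cast
        omega
      rw [gg, gg, h4]

end Pool.Agent.H34.DA
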