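import Pool.Agent.H34.DA.P4

/-!
P5: `conv_bound`: the sum over `l` in the docstring of P4. Let `r = rr q p`, `b = ∑' q j max (-j) 0`. Split the sum over `l < n` with `K + l + 1 ≤ k` at `l + 1 ≤ k / p` (natural quotient). First part: `r (k - (l+1)) ≤ r k (k/(k-(l+1)))^2 ≤ r k (p/(p-1))^2`
(`rr_sq` with `u = k - (l+1) ≥ K ≥ 1`, `v = k`; `p (l+1) ≤ k`), and `∑ tl q (l + 1) ≤ b` (`tl_sum`, partial sums of a nonnegative series). Second part: `tl q (l+1) ≤ tl q (k / p) ≤ r k` (`tl_anti`, `rr_ge`), and the sum of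
`r (k - (l+1))` over the `l` with `K + l + 1 ≤ k` is at most `∑' i, r (i + K)` (distinct indices `k - (l+1) = i + K`).
-/

namespace Pool.Agent.H34.DA

open Pool.Agent.H34.LS Pool.Agent.H34.FL

private theorem p5_first {q : ℤ → ℝ} (hq : IsProb q) {p u k l : ℕ} (hp : 2 ≤ p) (hu : 1 ≤ u)
    (hl : u + (l + 1) = k) (hlp : l + 1 ≤ k / p) :
    rr q p u ≤ rr q p k * ((p : ℝ) / (p - 1)) ^ 2 := by
  have h1 := rr_sq hq (p := p) hu (show u ≤ k by omega)
  have hu0 : (0 : ℝ) < u := by exact_mod_cast hu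
  have hp1 : (0 : ℝ) < (p : ℝ) - 1 := by
    have : (2 : ℝ) ≤ p := by exact_mod_cast hp
    linarith
  have hr : 0 ≤ rr q p k := (rr_pos hq (show 1 ≤ k by omega)).le
  have h2 : (l + 1) * p ≤ k := (Nat.le_div_iff_mul_le (by omega)).1 hlp
  have h3 : ((l : ℝ) + 1) * p ≤ k := by exact_mod_cast h2
  have h4 : (u : ℝ) + (l + 1) = k := by exact_mod_cast hl
  have h5 : (k : ℝ) * (p - 1) ≤ p * u := by
    have : (u : ℝ) = k - (l + 1) := by linarith
    rw [this]
    nlinarith
  have h6 : (k : ℝ) / u ≤ p / (p - 1) := by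
    rw [div_le_div_iff₀ hu0 hp1]
    exact h5
  have h7 : rr q p u ≤ rr q p k * ((k : ℝ) / u) ^ 2 := by
    rw [div_pow, ← mul_div_assoc, le_div_iff₀ (by positivity)]
    linarith
  refine h7.trans (mul_le_mul_of_nonneg_left ?_ hr)
  exact pow_le_pow_left₀ (by positivity) h6 2

theorem conv_bound {q : ℤ → ℝ} (hq : IsProb q) {m : ℝ}
    (h1 : HasSum (fun j : ℤ => q j * (j : ℝ)) m) {p K : ℕ} (hp : 2 ≤ p) (hK : 1 ≤ K) (k n : ℕ)
    (hk : K ≤ k) :
    ∑ l ∈ Finset.range n, (if K + l + 1 ≤ k then tl q (l + 1) * rr q p (k - (l + 1)) else 0) ≤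
      rr q p k * ((∑' j : ℤ, q j * max (-(j : ℝ)) 0) * ((p : ℝ) / (p - 1)) ^ 2 +
        ∑' i : ℕ, rr q p (i + K)) := by
  have hrk : 0 ≤ rr q p k := (rr_pos hq (show 1 ≤ k by omega)).le
  have hterm : ∀ l ∈ Finset.range n,
      (if K + l + 1 ≤ k then tl q (l + 1) * rr q p (k - (l + 1)) else 0) ≤
      rr q p k * (((p : ℝ) / (p - 1)) ^ 2 * tl q (l + 1) +
        (if K + l + 1 ≤ k then rr q p (k - (l + 1)) else 0)) := by
    intro l _
    have htl : 0 ≤ tl q (l + 1) := tl_nonneg hq _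
    by_cases hc : K + l + 1 ≤ k
    · rw [if_pos hc, if_pos hc]
      have hu : 1 ≤ k - (l + 1) := by omega
      have hru : 0 ≤ rr q p (k - (l + 1)) := (rr_pos hq hu).le
      by_cases hlp : l + 1 ≤ k / p
      · have h2 := p5_first hq hp hu (show k - (l + 1) + (l + 1) = k by omega) hlp
        calc tl q (l + 1) * rr q p (k - (l + 1))
            ≤ tl q (l + 1) * (rr q p k * ((p : ℝ) / (p - 1)) ^ 2) :=
              mul_le_mul_of_nonneg_left h2 htl
          _ = rr q p k * (((p : ℝ) / (p - 1)) ^ 2 * tl q (l + 1)) := by ring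
          _ ≤ _ := by
              refine mul_le_mul_of_nonneg_left ?_ hrk
              linarith
      · have h2 : tl q (l + 1) ≤ rr q p k :=
          (tl_anti hq (show k / p ≤ l + 1 by omega)).trans (rr_ge hq (show 1 ≤ k by omega))
        calc tl q (l + 1) * rr q p (k - (l + 1)) ≤ rr q p k * rr q p (k - (l + 1)) :=
              mul_le_mul_of_nonneg_right h2 hru
          _ ≤ _ := by
              refine mul_le_mul_of_nonneg_left ?_ hrk
              have : 0 ≤ ((p : ℝ) / (p - 1)) ^ 2 * tl q (l + 1) := mul_nonneg (sq_nonneg _) htl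
              linarith
    · rw [if_neg hc, if_neg hc, add_zero]
      exact mul_nonneg hrk (mul_nonneg (sq_nonneg _) htl)
  refine (Finset.sum_le_sum hterm).trans ?_
  rw [← Finset.mul_sum, Finset.sum_add_distrib, ← Finset.mul_sum]
  refine mul_le_mul_of_nonneg_left (add_le_add ?_ ?_) hrk
  · rw [mul_comm]
    refine mul_le_mul_of_nonneg_right ?_ (sq_nonneg _)
    exact sum_le_hasSum _ (fun i _ => tl_nonneg hq _) (tl_sum hq h1)
  · have hsum : Summable fun i : ℕ => rr q p (i + K) :=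
      (summable_nat_add_iff K).2 (rr_summable hq h1 (show 1 ≤ p by omega))
    rw [← Finset.sum_filter]
    have hinj : Set.InjOn (fun l => k - (l + 1) - K)
        ((Finset.range n).filter fun l => K + l + 1 ≤ k : Finset ℕ) := by
      intro a ha b hb hab
      have ha' := (Finset.mem_filter.1 (Finset.mem_coe.1 ha)).2
      have hb' := (Finset.mem_filter.1 (Finset.mem_coe.1 hb)).2
      have hab' : k - (a + 1) - K = k - (b + 1) - K := hab
      omega
    have h2 : ∑ l ∈ (Finset.range n).filter (fun l => K + l + 1 ≤ k), rr q p (k - (l + 1)) =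
        ∑ i ∈ ((Finset.range n).filter (fun l => K + l + 1 ≤ k)).image
          (fun l => k - (l + 1) - K), rr q p (i + K) := by
      rw [Finset.sum_image hinj]
      refine Finset.sum_congr rfl fun l hl => ?_
      have hl' := (Finset.mem_filter.1 hl).2
      congr 1
      omega
    rw [h2]
    exact hsum.sum_le_tsum _ fun i _ => (rr_pos hq (show 1 ≤ i + K by omega)).le

end Pool.Agent.H34.DA
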