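import Pool.Agent.H34.DA.P5

/-!
P6b: the tail sums of `rr q p` are superharmonic.
-/

namespace Pool.Agent.H34.DA

open Pool.Agent.H34.LS Pool.Agent.H34.FL Filter

private theorem p6b_nonneg {q : ℤ → ℝ} (hq : IsProb q) {p K : ℕ} (hK : 1 ≤ K) (k : ℤ) :
    0 ≤ gg K (rr q p) k := by
  unfold gg
  refine tsum_nonneg fun i => (rr_pos hq ?_).le
  have h1 : K ≤ (max k (K : ℤ)).toNat := by
    have h2 := Int.toNat_le_toNat (le_max_right k (K : ℤ))
    rwa [Int.toNat_natCast] at h2
  omega

private theorem p6b_eq {K : ℕ} {r : ℕ → ℝ} {k : ℤ} (h : k ≤ (K : ℤ)) :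
    gg K r k = gg K r K := by
  unfold gg
  rw [max_eq_right h, max_self]

private theorem p6b_le {q : ℤ → ℝ} (hq : IsProb q) {m : ℝ}
    (h1 : HasSum (fun j : ℤ => q j * (j : ℝ)) m) {p K : ℕ} (hp : 1 ≤ p) (hK : 1 ≤ K) (k : ℤ) :
    gg K (rr q p) k ≤ gg K (rr q p) K := by
  rcases le_total k (K : ℤ) with h | h
  · rw [p6b_eq h]
  · obtain ⟨n, rfl⟩ : ∃ n : ℕ, k = (K : ℤ) + n := ⟨(k - K).toNat, by omega⟩
    rw [gg_right (rr_summable hq h1 hp) K n le_rfl]
    have h2 : 0 ≤ ∑ i ∈ Finset.range n, rr q p (K + i) :=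
      Finset.sum_nonneg fun i _ => (rr_pos hq (by omega)).le
    linarith

private theorem p6b_pt {q : ℤ → ℝ} (hq : IsProb q) {m : ℝ}
    (h1 : HasSum (fun j : ℤ => q j * (j : ℝ)) m) {R p K : ℕ} (hp : 1 ≤ p) (hK : 1 ≤ K) (k : ℕ)
    (hk : K ≤ k) (j : ℤ) :
    gg K (rr q p) ((k : ℤ) + j) ≤
      gg K (rr q p) k - min (max (j : ℝ) 0) R * rr q p (k + R) +
        ∑ l ∈ Finset.range k, (if j ≤ -((l + 1 : ℕ) : ℤ) then
          (if K + l + 1 ≤ k then rr q p (k - (l + 1)) else 0) else 0) := by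
  have hr := rr_summable hq h1 hp
  rcases le_or_gt 0 j with hj | hj
  · obtain ⟨n, rfl⟩ : ∃ n : ℕ, j = n := ⟨j.toNat, by omega⟩
    rw [gg_right hr k n hk]
    have e1 : ∑ l ∈ Finset.range k, (if (n : ℤ) ≤ -((l + 1 : ℕ) : ℤ) then
          (if K + l + 1 ≤ k then rr q p (k - (l + 1)) else 0) else 0) = 0 :=
      Finset.sum_eq_zero fun l _ => if_neg (by push_cast; omega)
    rw [e1, add_zero]
    have e2 : min (max ((n : ℤ) : ℝ) 0) (R : ℝ) = ((min n R : ℕ) : ℝ) := by
      rw [Int.cast_natCast, max_eq_left (Nat.cast_nonneg n), Nat.cast_min]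
    rw [e2]
    have e3 : ((min n R : ℕ) : ℝ) * rr q p (k + R) ≤ ∑ i ∈ Finset.range n, rr q p (k + i) := by
      calc ((min n R : ℕ) : ℝ) * rr q p (k + R) =
          ∑ _i ∈ Finset.range (min n R), rr q p (k + R) := by
            rw [Finset.sum_const, Finset.card_range, nsmul_eq_mul]
        _ ≤ ∑ i ∈ Finset.range (min n R), rr q p (k + i) :=
            Finset.sum_le_sum fun i hi => rr_anti hq (by omega) (by
              have h2 := Finset.mem_range.1 hi
              have h3 := min_le_right n R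
              omega)
        _ ≤ ∑ i ∈ Finset.range n, rr q p (k + i) :=
            Finset.sum_le_sum_of_subset_of_nonneg
              (Finset.range_subset_range.2 (min_le_left n R))
              fun i _ _ => (rr_pos hq (by omega)).le
    linarith
  · obtain ⟨n, rfl⟩ : ∃ n : ℕ, j = -(n : ℤ) := ⟨(-j).toNat, by omega⟩
    have e0 : (k : ℤ) + -(n : ℤ) = (k : ℤ) - n := by ring
    rw [e0, gg_left hr k n hk]
    have e1 : min (max (((-(n : ℤ)) : ℤ) : ℝ) 0) (R : ℝ) = 0 := by
      have h2 : ((-(n : ℤ) : ℤ) : ℝ) ≤ 0 := by exact_mod_cast hj.le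
      rw [max_eq_right h2, min_eq_left (Nat.cast_nonneg R)]
    rw [e1, zero_mul, sub_zero]
    have e2 : ∑ l ∈ Finset.range n, (if K + l + 1 ≤ k then rr q p (k - (l + 1)) else 0) =
        ∑ l ∈ Finset.range k, (if -(n : ℤ) ≤ -((l + 1 : ℕ) : ℤ) then
          (if K + l + 1 ≤ k then rr q p (k - (l + 1)) else 0) else 0) := by
      have e3 : ∀ l : ℕ, (if -(n : ℤ) ≤ -((l + 1 : ℕ) : ℤ) then
          (if K + l + 1 ≤ k then rr q p (k - (l + 1)) else 0) else 0) =
          (if -(n : ℤ) ≤ -((l + 1 : ℕ) : ℤ) ∧ K + l + 1 ≤ k then rr q p (k - (l + 1)) else 0) :=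
        fun l => by rw [ite_and]
      rw [Finset.sum_congr rfl fun l _ => e3 l, ← Finset.sum_filter, ← Finset.sum_filter]
      refine Finset.sum_congr ?_ fun _ _ => rfl
      ext l
      rw [Finset.mem_filter, Finset.mem_filter, Finset.mem_range, Finset.mem_range]
      push_cast
      constructor
      · rintro ⟨h2, h3⟩
        exact ⟨by omega, by omega, h3⟩
      · rintro ⟨h2, h3, h4⟩
        exact ⟨by omega, h4⟩
    rw [e2]

theorem gg_super {q : ℤ → ℝ} (hq : IsProb q) {m : ℝ}
    (h1 : HasSum (fun j : ℤ => q j * (j : ℝ)) m) {R p K : ℕ} (hR : 1 ≤ R) (hp : 2 ≤ p) (hK : 1 ≤ K)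
    (hc : (((K : ℝ) + R) / K) ^ 2 * ((∑' j : ℤ, q j * max (-(j : ℝ)) 0) *
      ((p : ℝ) / (p - 1)) ^ 2 + ∑' i : ℕ, rr q p (i + K)) ≤
        ∑' j : ℤ, q j * min (max (j : ℝ) 0) R) (k : ℤ) :
    ∑' j, q j * gg K (rr q p) (k + j) ≤ gg K (rr q p) k := by
  have hp1 : 1 ≤ p := by omega
  have hsA : Summable fun j => q j * gg K (rr q p) (k + j) := by
    refine Summable.of_nonneg_of_le
      (fun j => mul_nonneg (hq.1 j) (p6b_nonneg hq hK _))
      (fun j => mul_le_mul_of_nonneg_left (p6b_le hq h1 hp1 hK _) (hq.1 j))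
      (hq.2.summable.mul_right _)
  rcases le_total k (K : ℤ) with h | h
  · rw [p6b_eq h]
    have h2 := hasSum_le (fun j => mul_le_mul_of_nonneg_left (p6b_le hq h1 hp1 hK (k + j)) (hq.1 j))
      hsA.hasSum (hq.2.mul_right (gg K (rr q p) K))
    rwa [one_mul] at h2
  · obtain ⟨k, rfl⟩ : ∃ k' : ℕ, k = (k' : ℤ) := ⟨k.toNat, by omega⟩
    have hk : K ≤ k := by exact_mod_cast h
    have hrpos : 0 < rr q p (k + R) := rr_pos hq (by omega)
    -- the sum of the right hand sides
    have s1 : HasSum (fun j => q j * gg K (rr q p) k) (1 * gg K (rr q p) k) := hq.2.mul_right _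
    have s2' : Summable fun j : ℤ => q j * min (max (j : ℝ) 0) R := by
      refine Summable.of_nonneg_of_le
        (fun j => mul_nonneg (hq.1 j) (le_min (le_max_right _ _) (Nat.cast_nonneg R)))
        (fun j => mul_le_mul_of_nonneg_left (min_le_right _ _) (hq.1 j))
        (hq.2.summable.mul_right (R : ℝ))
    have s2 := s2'.hasSum.mul_right (rr q p (k + R))
    have s3 : HasSum (fun j : ℤ => ∑ l ∈ Finset.range k,
        (if j ≤ -((l + 1 : ℕ) : ℤ) then q j else 0) *
          (if K + l + 1 ≤ k then rr q p (k - (l + 1)) else 0))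
        (∑ l ∈ Finset.range k, tl q (l + 1) *
          (if K + l + 1 ≤ k then rr q p (k - (l + 1)) else 0)) := by
      refine hasSum_sum fun l _ => HasSum.mul_right _ ?_
      have h3 : Summable fun j : ℤ => if j ≤ -((l + 1 : ℕ) : ℤ) then q j else 0 := by
        refine Summable.of_nonneg_of_le (fun j => ?_) (fun j => ?_) hq.2.summable
        · split_ifs
          · exact hq.1 j
          · exact le_rfl
        · split_ifs
          · exact le_rfl
          · exact hq.1 j
      exact h3.hasSum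
    have s4 := (s1.sub s2).add s3
    have hle := hasSum_le (fun j => ?_) hsA.hasSum s4
    · -- the final computation
      have hcv := conv_bound hq h1 hp hK k k hk
      have e1 : ∑ l ∈ Finset.range k, tl q (l + 1) *
          (if K + l + 1 ≤ k then rr q p (k - (l + 1)) else 0) =
          ∑ l ∈ Finset.range k,
            (if K + l + 1 ≤ k then tl q (l + 1) * rr q p (k - (l + 1)) else 0) := by
        refine Finset.sum_congr rfl fun l _ => ?_
        rw [mul_ite, mul_zero]
      rw [e1] at hle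
      set c0 : ℝ := (∑' j : ℤ, q j * max (-(j : ℝ)) 0) * ((p : ℝ) / (p - 1)) ^ 2 +
        ∑' i : ℕ, rr q p (i + K) with hc0
      have hc00 : 0 ≤ c0 := by
        have t1 : 0 ≤ ∑' j : ℤ, q j * max (-(j : ℝ)) 0 :=
          tsum_nonneg fun j => mul_nonneg (hq.1 j) (le_max_right _ _)
        have t2 : 0 ≤ ∑' i : ℕ, rr q p (i + K) :=
          tsum_nonneg fun i => (rr_pos hq (by omega)).le
        rw [hc0]
        positivity
      have hK0 : (0 : ℝ) < K := by exact_mod_cast hK
      have hkr : (K : ℝ) ≤ k := by exact_mod_cast hk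
      have hk0 : (0 : ℝ) < k := hK0.trans_le hkr
      have hR0 : (0 : ℝ) ≤ R := Nat.cast_nonneg R
      have hrk : rr q p k ≤ (((K : ℝ) + R) / K) ^ 2 * rr q p (k + R) := by
        have t1 := rr_sq (p := p) hq (u := k) (v := k + R) (by omega) (by omega)
        have t2 : rr q p k ≤ (((k : ℝ) + R) / k) ^ 2 * rr q p (k + R) := by
          rw [div_pow, div_mul_eq_mul_div, le_div_iff₀ (by positivity), mul_comm]
          push_cast at t1
          exact t1
        refine t2.trans (mul_le_mul_of_nonneg_right ?_ hrpos.le)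
        refine pow_le_pow_left₀ (by positivity) ?_ 2
        rw [div_le_div_iff₀ hk0 hK0]
        nlinarith
      have hfin : rr q p k * c0 ≤ (∑' j : ℤ, q j * min (max (j : ℝ) 0) R) * rr q p (k + R) := by
        calc rr q p k * c0 ≤ ((((K : ℝ) + R) / K) ^ 2 * rr q p (k + R)) * c0 :=
              mul_le_mul_of_nonneg_right hrk hc00
          _ = ((((K : ℝ) + R) / K) ^ 2 * c0) * rr q p (k + R) := by ring
          _ ≤ _ := mul_le_mul_of_nonneg_right hc hrpos.le
      linarith
    · -- the pointwise inequality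
      have h3 := mul_le_mul_of_nonneg_left (p6b_pt (R := R) hq h1 hp1 hK k hk j) (hq.1 j)
      refine h3.trans (le_of_eq ?_)
      rw [mul_add, mul_sub, Finset.mul_sum, mul_assoc]
      congr 1
      refine Finset.sum_congr rfl fun l _ => ?_
      by_cases h4 : j ≤ -((l + 1 : ℕ) : ℤ)
      · rw [if_pos h4, if_pos h4]
      · rw [if_neg h4, if_neg h4, mul_zero, zero_mul]

end Pool.Agent.H34.DA
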