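import Pool.Agent.H34.DA.P6a
import Pool.Agent.H34.DA.P6b

/-!
P6: the superharmonic function of a law on `ℤ` (proofs in P6a, P6b).
-/
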