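import Pool.Agent.H34.DA.P5

/-!
P6a: the potential `gg K (rr q p)` is nonnegative, maximal at `K`, tends to `0`, and the average
over one step from `K` is strictly smaller.
-/

namespace Pool.Agent.H34.DA

open Pool.Agent.H34.LS Pool.Agent.H34.FL Filter

private lemma p6a_rr_nonneg {q : ℤ → ℝ} (hq : IsProb q) (p u : ℕ) : 0 ≤ rr q p u := by
  rcases Nat.eq_zero_or_pos u with h | h
  · subst h
    simp [rr]
  · exact (rr_pos hq h).le

private lemma p6a_le {q : ℤ → ℝ} (hq : IsProb q) {m : ℝ}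
    (h1 : HasSum (fun j : ℤ => q j * (j : ℝ)) m) {p K : ℕ} (hp : 2 ≤ p) (k : ℤ) :
    gg K (rr q p) k ≤ gg K (rr q p) K := by
  rcases le_total k (K : ℤ) with h | h
  · unfold gg
    rw [max_eq_right h, max_self]
  · obtain ⟨n, hn⟩ := Int.eq_ofNat_of_zero_le (sub_nonneg.2 h)
    have e : k = (K : ℤ) + n := by omega
    rw [e, gg_right (rr_summable hq h1 (by omega)) K n le_rfl]
    have := Finset.sum_nonneg (s := Finset.range n) (f := fun i => rr q p (K + i))
      (fun i _ => p6a_rr_nonneg hq p _)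
    linarith

private lemma p6a_nonneg {q : ℤ → ℝ} (hq : IsProb q) {p K : ℕ} (k : ℤ) :
    0 ≤ gg K (rr q p) k :=
  tsum_nonneg fun _ => p6a_rr_nonneg hq p _

theorem gg_facts {q : ℤ → ℝ} (hq : IsProb q) {m : ℝ}
    (h1 : HasSum (fun j : ℤ => q j * (j : ℝ)) m) {p K : ℕ} (hp : 2 ≤ p) (hK : 1 ≤ K) :
    (∀ k, 0 ≤ gg K (rr q p) k ∧ gg K (rr q p) k ≤ gg K (rr q p) K) ∧
      Tendsto (gg K (rr q p)) atTop (nhds 0) := by
  refine ⟨fun k => ⟨p6a_nonneg hq k, p6a_le hq h1 hp k⟩, ?_⟩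
  have h2 : Tendsto (fun k : ℤ => (max k (K : ℤ)).toNat) atTop atTop := by
    refine tendsto_atTop.2 fun b => ?_
    filter_upwards [eventually_ge_atTop (b : ℤ)] with k hk
    have : (b : ℤ) ≤ max k (K : ℤ) := le_trans hk (le_max_left _ _)
    omega
  exact (tendsto_sum_nat_add (rr q p)).comp h2

theorem gg_strict {q : ℤ → ℝ} (hq : IsProb q) {m : ℝ} (hm : 0 < m)
    (h1 : HasSum (fun j : ℤ => q j * (j : ℝ)) m) {p K : ℕ} (hp : 2 ≤ p) (hK : 1 ≤ K) :
    ∑' j, q j * gg K (rr q p) (K + j) < gg K (rr q p) K := by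
  obtain ⟨j, hj⟩ : ∃ j : ℤ, 0 < q j * (j : ℝ) := by
    by_contra hcon
    push Not at hcon
    have := hasSum_le hcon h1 hasSum_zero
    linarith
  have hqj : 0 < q j := by
    rcases (hq.1 j).lt_or_eq with h | h
    · exact h
    · rw [← h, zero_mul] at hj
      exact absurd hj (lt_irrefl _)
  have hj1 : 0 < (j : ℝ) := (mul_pos_iff_of_pos_left hqj).1 hj
  have hj2 : 0 < j := by exact_mod_cast hj1
  have hle : ∀ i : ℤ, q i * gg K (rr q p) (K + i) ≤ q i * gg K (rr q p) K := fun i =>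
    mul_le_mul_of_nonneg_left (p6a_le hq h1 hp _) (hq.1 i)
  have hs2 : HasSum (fun i : ℤ => q i * gg K (rr q p) K) (1 * gg K (rr q p) K) :=
    hq.2.mul_right _
  have hs1 : Summable (fun i : ℤ => q i * gg K (rr q p) (K + i)) :=
    Summable.of_nonneg_of_le (fun i => mul_nonneg (hq.1 i) (p6a_nonneg hq _)) hle hs2.summable
  have hlt : q j * gg K (rr q p) (K + j) < q j * gg K (rr q p) K := by
    refine mul_lt_mul_of_pos_left ?_ hqj
    obtain ⟨n, hn⟩ := Int.eq_ofNat_of_zero_le hj2.le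
    rw [hn, gg_right (rr_summable hq h1 (by omega)) K n le_rfl]
    have hn0 : 0 < n := by omega
    have h3 : rr q p (K + 0) ≤ ∑ i ∈ Finset.range n, rr q p (K + i) :=
      Finset.single_le_sum (f := fun i => rr q p (K + i))
        (fun i _ => p6a_rr_nonneg hq p _) (Finset.mem_range.2 hn0)
    have h4 : 0 < rr q p (K + 0) := rr_pos hq (by omega)
    linarith
  have := hasSum_lt hle hlt hs1.hasSum hs2
  simpa using this

end Pool.Agent.H34.DA
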