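import Pool.Agent.H34.DA.P6

/-!
P7: the potential for a law with finite first moment and positive mean: `G0 k = gg K r (k + K) / d`, `d = gg K - ∑' q j gg (K + j) > 0` (`consts`, `gg_super` at `k + K`, `gg_strict`, `gg_facts`).
-/

namespace Pool.Agent.H34.DA

open Pool.Agent.H34.LS Pool.Agent.H34.FL Filter

private theorem p7_avg (q : ℤ → ℝ) (g : ℤ → ℝ) (K k : ℤ) (d : ℝ) :
    ∑' j, q j * (g (k + j + K) / d) = (∑' j, q j * g (k + K + j)) / d := by
  rw [← tsum_div_const]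
  refine tsum_congr fun j => ?_
  rw [show k + j + K = k + K + j by ring, mul_div_assoc]

theorem pot1 {q : ℤ → ℝ} (hq : IsProb q) {m : ℝ}
    (hm : 0 < m) (h1 : HasSum (fun j : ℤ => q j * (j : ℝ)) m) :
    ∃ (G0 : ℤ → ℝ) (B : ℝ), (∀ k, 0 ≤ G0 k ∧ G0 k ≤ B) ∧ Tendsto G0 atTop (nhds 0) ∧
      (∀ k, ∑' j, q j * G0 (k + j) ≤ G0 k) ∧ ∑' j, q j * G0 (0 + j) + 1 ≤ G0 0 := by
  obtain ⟨R, p, K, hR, hp, hK, hc⟩ := consts hq hm h1
  have hst := gg_strict hq hm h1 hp hK
  obtain ⟨hb, ht⟩ := gg_facts hq h1 hp hK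
  have hsu := gg_super hq h1 hR hp hK hc
  set g := gg K (rr q p) with hg
  have hd : 0 < g K - ∑' j, q j * g (K + j) := sub_pos.2 hst
  set d := g K - ∑' j, q j * g (K + j) with hdef
  refine ⟨fun k => g (k + K) / d, g K / d, fun k => ⟨?_, ?_⟩, ?_, fun k => ?_, ?_⟩
  · exact div_nonneg (hb _).1 hd.le
  · exact div_le_div_of_nonneg_right (hb _).2 hd.le
  · have h2 : Tendsto (fun k : ℤ => k + (K : ℤ)) atTop atTop :=
      tendsto_atTop_add_const_right _ _ tendsto_id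
    have h3 := (ht.comp h2).div_const d
    rwa [zero_div] at h3
  · change ∑' j, q j * (g (k + j + K) / d) ≤ g (k + K) / d
    rw [p7_avg]
    exact div_le_div_of_nonneg_right (hsu (k + K)) hd.le
  · change ∑' j, q j * (g (0 + j + K) / d) + 1 ≤ g (0 + K) / d
    rw [p7_avg, zero_add]
    have h4 : (∑' j, q j * g (K + j)) / d + 1 = g K / d := by
      rw [div_add_one hd.ne', hdef]
      congr 1
      ring
    exact h4.le

end Pool.Agent.H34.DA
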